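import Mathlib
import Pool.Agent.Helper51.VN.Fun
import Pool.Agent.Helper83.VN.Pnt
import Pool.Agent.Helper26.VC.Main4

/-!
# Elliptic surfaces over a curve of arbitrary genus: definitions

Project VB. `L` is the function field of the base curve, the generic fibre of the elliptic surface
is `y ^ 2 = x ^ 3 - 3 al x - 2 be`. Only the NICE places of `L` are used: places where `al`, `be` are
regular and the discriminant `be ^ 2 - al ^ 3` is a unit, outside a finite set `R`; there is no model
of the surface, only a class of functionals (`OJ`).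
-/

set_option linter.unusedSectionVars false

namespace Pool.Agent.Helper51.VB

open VC VF Function Polynomial
open Pool.Agent.Helper51.VN

universe u

/-- The place `w` of `K` lies over the place `P` of `L`, for the embedding `ι` of `L` in `K`. -/
def Over {k L K : Type u} [Field k] [Field L] [Algebra k L] [Field K] [Algebra k K]
    (P : Place k L) (ι : L →ₐ[k] K) (w : Place k K) : Prop :=
  ∀ (f : L) (c : k), IsRes P f c → IsRes w (ι f) c

open Classical in
/-- The value of a function at a place (`0` if it has a pole). -/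
noncomputable def rs {k L : Type u} [Field k] [Field L] [Algebra k L] (P : Place k L) (f : L) : k :=
  if h : ∃ c, IsRes P f c then h.choose else 0

/-- An elliptic curve over the function field `L`, with a divisor `E` of degree `N` such that
`al`, `be` are sections of `4 E`, `6 E`. `R` is a finite set of places which are not used. If `N` is
positive then `e1` is a place which is not nice (bad reduction, or in `R`), otherwise it is not
used. -/
structure Ell (k L : Type u) [Field k] [Field L] [Algebra k L] where
  hL : IsFunctionField k L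
  al : L
  be : L
  hD : be ^ 2 - al ^ 3 ≠ 0
  E : Place k L →₀ ℤ
  N : ℕ
  deg : (E.sum fun _ m => m) = N
  h4 : ∀ P : Place k L, al ≠ 0 → 0 ≤ ord P.ring al + 4 * E P
  h6 : ∀ P : Place k L, be ≠ 0 → 0 ≤ ord P.ring be + 6 * E P
  R : Finset (Place k L)
  nice : ∀ P : Place k L, al ∈ P.ring → be ∈ P.ring → ord P.ring (be ^ 2 - al ^ 3) = 0 → P ∉ R →
    E P = 0
  e1 : Place k L
  bad0 : 1 ≤ N → ¬ (al ∈ e1.ring ∧ be ∈ e1.ring ∧ ord e1.ring (be ^ 2 - al ^ 3) = 0 ∧ e1 ∉ R)

/-- The degree of `E` is positive. -/
class Ell.Pos {k L : Type u} [Field k] [Field L] [Algebra k L] (D : Ell k L) : Prop where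
  N0 : 1 ≤ D.N

/-- The degree of `E` is positive, `j` is not constant (and the coefficients are not zero). -/
class Ell.Gen {k L : Type u} [Field k] [Field L] [Algebra k L] (D : Ell k L) : Prop
    extends D.Pos where
  al0 : D.al ≠ 0
  be0 : D.be ≠ 0
  j0 : ∀ c : k, D.be ^ 2 ≠ algebraMap k L c * (D.be ^ 2 - D.al ^ 3)

section nicebad

variable {k L : Type u} [Field k] [Field L] [Algebra k L] (D : Ell k L)

theorem Ell.hN [h : D.Pos] : 1 ≤ D.N := h.N0

theorem Ell.bad [h : D.Pos] : ¬ (D.al ∈ D.e1.ring ∧ D.be ∈ D.e1.ring ∧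
    ord D.e1.ring (D.be ^ 2 - D.al ^ 3) = 0 ∧ D.e1 ∉ D.R) := D.bad0 h.N0

theorem Ell.hal [h : D.Gen] : D.al ≠ 0 := h.al0

theorem Ell.hbe [h : D.Gen] : D.be ≠ 0 := h.be0

theorem Ell.hj [h : D.Gen] : ∀ c : k, D.be ^ 2 ≠ algebraMap k L c * (D.be ^ 2 - D.al ^ 3) := h.j0

/-- The coefficients are regular at `P`, the discriminant is a unit and `P` is not in `R`. -/
def Ell.Nice (P : Place k L) : Prop :=
  D.al ∈ P.ring ∧ D.be ∈ P.ring ∧ ord P.ring (D.be ^ 2 - D.al ^ 3) = 0 ∧ P ∉ D.R

/-- `a (P)` -/
noncomputable def Ell.a₀ (P : Place k L) : k := rs P D.al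

/-- `b (P)` -/
noncomputable def Ell.b₀ (P : Place k L) : k := rs P D.be

/-- `d (P) = b (P) ^ 2 - a (P) ^ 3` -/
noncomputable def Ell.d₀ (P : Place k L) : k := D.b₀ P ^ 2 - D.a₀ P ^ 3

end nicebad

/-! ### Points of the base curve with coordinates in a field -/

/-- Points of the base curve with coordinates in `K`: constant points and embeddings. -/
inductive BP (k L K : Type u) [Field k] [Field L] [Algebra k L] [Field K] [Algebra k K] : Type u
  | cst (P : Place k L)
  | emb (ι : L →ₐ[k] K)

/-- A point of the base curve with coordinates in `K`, and a scaling factor for the equation of the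
fibre. -/
structure Bpt (k L K : Type u) [Field k] [Field L] [Algebra k L] [Field K] [Algebra k K] where
  p : BP k L K
  l : K
  hl : l ≠ 0

section points

variable {k L K : Type u} [Field k] [Field L] [Algebra k L] [Field K] [Algebra k K]

/-- The value of a function. -/
noncomputable def BP.ev (p : BP k L K) (f : L) : K :=
  match p with
  | .cst P => algebraMap k K (rs P f)
  | .emb ι => ι f

/-- The value of the point at the place `w` is `P`. -/
def BP.Ov (p : BP k L K) (w : Place k K) (P : Place k L) : Prop :=
  match p with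
  | .cst P' => P' = P
  | .emb ι => Over P ι w

/-- The value of the point at the place `w` is `P`, the value of the scaling factor is `1`. -/
def BRes (w : Place k K) (t : Bpt k L K) (P : Place k L) : Prop := t.p.Ov w P ∧ IsRes w t.l 1

/-- The constant point. -/
def cs (P : Place k L) : Bpt k L K := ⟨.cst P, 1, one_ne_zero⟩

/-- Change of the field. -/
def BP.map {K' : Type u} [Field K'] [Algebra k K'] (φ : K →ₐ[k] K') (p : BP k L K) : BP k L K' :=
  match p with
  | .cst P => .cst P
  | .emb ι => .emb (φ.comp ι)

/-- Change of the field. -/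
def Bpt.map {K' : Type u} [Field K'] [Algebra k K'] (φ : K →ₐ[k] K') (t : Bpt k L K) :
    Bpt k L K' := ⟨t.p.map φ, φ t.l, (_root_.map_ne_zero φ).mpr t.hl⟩

/-- The point is nice (no condition for embeddings). -/
def BP.Nc (D : Ell k L) (p : BP k L K) : Prop := ∀ P, p = .cst P → D.Nice P

variable (D : Ell k L)

/-- `a (t)` -/
noncomputable def Ell.a (t : Bpt k L K) : K := t.l ^ 4 * t.p.ev D.al

/-- `b (t)` -/
noncomputable def Ell.b (t : Bpt k L K) : K := t.l ^ 6 * t.p.ev D.be

/-- `d (t) = b (t) ^ 2 - a (t) ^ 3` -/
noncomputable def Ell.d (t : Bpt k L K) : K := D.b t ^ 2 - D.a t ^ 3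

/-- Points with coordinates in `K` of the surface (outside the zero section). -/
structure KPt (K : Type u) [Field K] [Algebra k K] where
  p : BP k L K
  x : K
  y : K
  nc : p.Nc D
  hE : OnE (p.ev D.al) (p.ev D.be) x y

variable {D}

/-- At `w` the point reduces to the affine point `(x, y)` of the nice fibre over `P`. -/
def KPt.Val (c : KPt D K) (w : Place k K) (p : Place k L × k × k) : Prop :=
  D.Nice p.1 ∧ c.p.Ov w p.1 ∧ IsRes w c.x p.2.1 ∧ IsRes w c.y p.2.2

/-- At `w` the point lies in the fibre over `e1` (if the degree of `E` is positive), or on the zero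
section of a nice fibre. -/
def KPt.Zero (c : KPt D K) (w : Place k K) : Prop :=
  (1 ≤ D.N ∧ c.p.Ov w D.e1) ∨ (∃ P, D.Nice P ∧ c.p.Ov w P ∧ c.x ∉ w.ring)

end points

/-! ### The functionals -/

/-- The functions considered: functions on the `n`-tuples of affine points of nice fibres of the
elliptic surface, which are odd in every variable, alternating, and whose composition with any
`n`-tuple of points with coordinates in a function field is harmonic (this means: the value is the
value of the function where all points reduce to affine points of nice fibres, the value is `0`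
where one of the points reduces to a point of the zero section or, if the degree of `E` is positive,
of the fibre over `e1`, no condition elsewhere). -/
structure OJ {k L : Type u} [Field k] [IsAlgClosed k] [CharZero k] [Field L] [Algebra k L]
    (D : Ell k L) (n : ℕ) (Ψ : (Fin n → Place k L × k × k) → k) : Prop where
  harm : ∀ (K : Type u) [Field K] [Algebra k K] (hK : IsFunctionField k K) (c : Fin n → KPt D K),
    ∃ F : Place k K → k, Harm hK F ∧
      (∀ (w : Place k K) (p : Fin n → Place k L × k × k), (∀ i, (c i).Val w (p i)) → F w = Ψ p) ∧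
      (∀ (w : Place k K) (i : Fin n), (c i).Zero w → F w = 0)
  odd : ∀ (p : Fin n → Place k L × k × k) (i : Fin n), (∀ j, D.Nice (p j).1 ∧
    OnE (D.a₀ (p j).1) (D.b₀ (p j).1) (p j).2.1 (p j).2.2) →
    Ψ (update p i ((p i).1, (p i).2.1, -(p i).2.2)) = -Ψ p
  alt : ∀ (i j : Fin n), i ≠ j → ∀ p : Fin n → Place k L × k × k, (∀ j, D.Nice (p j).1 ∧
    OnE (D.a₀ (p j).1) (D.b₀ (p j).1) (p j).2.1 (p j).2.2) →
    Ψ (fun l => p (Equiv.swap i j l)) = -Ψ p

section kf

variable {k L : Type u} [Field k] [IsAlgClosed k] [CharZero k] [Field L] [Algebra k L]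
  (D : Ell k L) {n : ℕ}

/-- The restriction of a functional to the product of the fibres over the places `T i`. -/
def psT (Ψ : (Fin n → Place k L × k × k) → k) (T : Fin n → Place k L) :
    (Fin n → k × k) → k := fun p => Ψ (fun i => (T i, (p i).1, (p i).2))

variable {K : Type u} [Field K] [Algebra k K]

/-- The conditions for `t`, `z`, `v` to give a point of the power of the surface. -/
def Adm (t : Fin n → Bpt k L K) (z v : Fin n → K) : Prop :=
  (∀ i, (t i).p.Nc D) ∧ ∀ i, OnX (D.b (t i)) (D.d (t i)) (z i) (v i)

/-- The point of the power of the surface with coordinates in the function field `K`: the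
coordinates `z i` and `ω ^ (e i) * v i` on the covering of the fibre over `t i`, scaled back. -/
noncomputable def kpt (ω : k) (t : Fin n → Bpt k L K) (z v : Fin n → K) (e : Fin n → ZMod 3)
    (hω : ω ^ 2 + ω + 1 = 0) (h : Adm D t z v) : Fin n → KPt D K := fun i =>
  { p := (t i).p
    x := px (D.a (t i)) (algebraMap k K (ω ^ (e i).val) * v i) / (t i).l ^ 2
    y := py (D.d (t i)) (z i) (algebraMap k K (ω ^ (e i).val) * v i) / (t i).l ^ 3
    nc := h.1 i
    hE := by
      have hch : CharZero K := charZero_of_injective_algebraMap (algebraMap k K).injective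
      have h3 : ω ^ 3 = 1 := by linear_combination (ω - 1) * hω
      have h6 : (algebraMap k K (ω ^ (e i).val)) ^ 6 = 1 := by
        rw [← map_pow, ← pow_mul, mul_comm, pow_mul, show (6 : ℕ) = 3 * 2 from rfl, pow_mul, h3,
          one_pow, one_pow, map_one]
      have h1 : OnE (D.a (t i)) (D.b (t i)) (px (D.a (t i)) (algebraMap k K (ω ^ (e i).val) * v i))
          (py (D.d (t i)) (z i) (algebraMap k K (ω ^ (e i).val) * v i)) :=
        Helper83.VN.onE_of_onX rfl (Helper83.VN.onX_mul h6 (h.2 i))
      have hl := (t i).hl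
      generalize px (D.a (t i)) (algebraMap k K (ω ^ (e i).val) * v i) = X at h1 ⊢
      generalize py (D.d (t i)) (z i) (algebraMap k K (ω ^ (e i).val) * v i) = Y at h1 ⊢
      unfold OnE Ell.a Ell.b at h1
      unfold OnE
      rw [div_pow, div_pow, ← pow_mul, ← pow_mul, h1]
      field_simp
      ring }

open Classical in
/-- The function on the places of `K` given by the values of `Ψ` at the points `kpt`. -/
noncomputable def KF (ω : k) (hω : ω ^ 2 + ω + 1 = 0) {Ψ : (Fin n → Place k L × k × k) → k}
    (h : OJ D n Ψ) (hK : IsFunctionField k K) (t : Fin n → Bpt k L K) (z v : Fin n → K)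
    (w : Place k K) : k :=
  if hh : Adm D t z v then
    ∑ e : Fin n → ZMod 3, ω ^ (-∑ i, e i).val *
      (h.harm K hK (kpt D ω t z v e hω hh)).choose w
  else 0

end kf

/-! ### Pencils -/

section pencil

variable {k L : Type u} [Field k] [IsAlgClosed k] [CharZero k] [Field L] [Algebra k L]
  (D : Ell k L) {n : ℕ}

open Classical in
/-- The function `q` has at most simple poles at the `T i`, no other poles, and a zero at `e1`. -/
def InRR (T : Fin n → Place k L) (q : L) : Prop :=
  q = 0 ∨ ∀ P : Place k L, (if P = D.e1 then 1 else 0) ≤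
    ord P.ring q + (if ∃ i, T i = P then 1 else 0)

open Classical in
/-- The norm of a section `G` of `m E` for the pencil `1 + s q`, as a polynomial in `s`; `u P` is the
value of `q` at `P`. -/
noncomputable def nm {A : Type*} [CommRing A] [Algebra k A] {G : L} (hG : G ≠ 0) (m : ℕ)
    (T : Fin n → Place k L) (u : Place k L → A) : A[X] :=
  C (algebraMap k A (∏ i, rs (T i) G)) *
    ∏ P ∈ (finite_support_ord D.hL hG).toFinset ∪ D.E.support,
      (1 + X * C (u P)) ^ (ord P.ring G + m * D.E P).toNat

/-- The pencil of divisors `div (1 + s q) + ∑ T i = ∑ t i`. -/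
structure Pen (T : Fin n → Place k L) (q : L) {K : Type u} [Field K] [Algebra k K] (s : K)
    (t : Fin n → Bpt k L K) : Prop where
  nc : ∀ i, (t i).p.Nc D
  prod : ∀ (G : L) (hG : G ≠ 0) (m : ℕ), (∀ P : Place k L, 0 ≤ ord P.ring G + m * D.E P) →
    (∀ i, ord (T i).ring G = 0) →
    ∏ i, ((t i).l ^ m * (t i).p.ev G) = aeval s (nm D hG m T (fun P => rs P q))
  zero : ∀ w : Place k K, IsRes w s 0 → ∃ π : Equiv.Perm (Fin n), ∀ i, BRes w (t i) (T (π i))
  infty : ∀ w : Place k K, s ∉ w.ring → q ≠ 0 → ∃ i, (t i).p.Ov w D.e1
  cst : q = 0 → ∀ i, t i = cs (T i)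

end pencil

end Pool.Agent.Helper51.VB
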