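import Mathlib
import Pool.Agent.Helper51.VB.Defs
import Pool.Agent.Helper83.VN.Ctc

/-!
# Block VB-NM: the contact data, norms

The lemmas on `nm` (the norm of a section of `m E` for the pencil `1 + s q`). `nm_degree`: the degree
is at most `∑ P, (ord G + m E P) = m N` (`VP.degree_zero`, `D.deg`). `nm_val` is `Pen.prod`.
-/

set_option linter.unusedSectionVars false

namespace Pool.Agent.Helper51.VB

open VC VF Function Polynomial
open Pool.Agent.Helper83.VN
open Pool.Agent.Helper51.VN (Harm OnE OnX px py Fun FF)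

universe u

/-- The contact data. -/
structure Con {k : Type u} [Field k] [IsAlgClosed k] [CharZero k] {FB : Type u} [Field FB]
    [Algebra k FB] (D : Ell k FB) {n : ℕ} (T : Fin n → Place k FB) (V₀ : V4 k) (ξ η : k) where
  q : FB
  V : V4 k[X]
  Xp : k[X]
  Op : k[X]
  c : k
  hq : InRR D T q
  hV : V.map (evalRingHom 0) = V₀
  hXp : Xp.eval 0 = ξ
  hOp : Op.eval 0 = η
  dOp : Op.natDegree ≤ 3 * D.N
  ne : q ≠ 0 ∨ V ≠ V₀.map C ∨ Xp ≠ C ξ ∨ Op ≠ C η
  dg : Dg n V
  form : ∀ (K : Type u) [Field K] [Algebra k K] (s : K) (t : Fin n → Bpt k FB K), Pen D T q s t →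
    (V.ev s).form = ∏ i, (C (D.b (t i) ^ 2) - C (D.d (t i) / 4) * X)
  Q0 : ∀ (K : Type u) [Field K] [Algebra k K] (s : K) (t : Fin n → Bpt k FB K), Pen D T q s t →
    (V.ev s).Q.eval 0 = ∏ i, D.b (t i)
  eqn : ∀ (K : Type u) [Field K] [Algebra k K] (s : K) (t : Fin n → Bpt k FB K), Pen D T q s t →
    aeval s Op ^ 2 = aeval s Xp ^ 3 - 3 * (∏ i, D.a (t i)) * aeval s Xp -
      2 * (V.ev s).Q.eval 4 + algebraMap k K c * s ^ (6 * D.N)

section nrm

variable {k : Type u} [Field k] [IsAlgClosed k] [CharZero k] {FB : Type u} [Field FB]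
  [Algebra k FB] (D : Ell k FB) {n : ℕ} {T : Fin n → Place k FB} {G : FB} (hG : G ≠ 0) (m : ℕ)
  {A : Type*} [CommRing A] [Algebra k A]

lemma nm_map {B : Type*} [CommRing B] [Algebra k B] (f : A →ₐ[k] B) (u : Place k FB → A) :
    (nm D hG m T u).map f.toRingHom = nm D hG m T (fun P => f (u P)) := by
  unfold nm
  rw [Polynomial.map_mul, Polynomial.map_C, Polynomial.map_prod]
  have e1 : f.toRingHom (algebraMap k A (∏ i, rs (T i) G)) =
      algebraMap k B (∏ i, rs (T i) G) := f.commutes _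
  rw [e1]
  congr 1
  apply Finset.prod_congr rfl
  intro P _
  rw [Polynomial.map_pow, Polynomial.map_add, Polynomial.map_one, Polynomial.map_mul,
    Polynomial.map_X, Polynomial.map_C]
  rfl

lemma nm_degree (h : ∀ P : Place k FB, 0 ≤ ord P.ring G + m * D.E P) (u : Place k FB → A) :
    (nm D hG m T u).natDegree ≤ m * D.N := by
  classical
  have h0 : ∑ P ∈ (finite_support_ord D.hL hG).toFinset ∪ D.E.support,
      (ord P.ring G + m * D.E P) = m * D.N := by
    rw [Finset.sum_add_distrib, ← Finset.mul_sum]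
    have e1 : ∑ P ∈ (finite_support_ord D.hL hG).toFinset ∪ D.E.support, ord P.ring G = 0 := by
      rw [← Finset.sum_subset Finset.subset_union_left (fun P _ hP => ?_)]
      · exact VP.degree_zero D.hL hG
      · by_contra h1
        exact hP ((finite_support_ord D.hL hG).mem_toFinset.mpr h1)
    have e2 : ∑ P ∈ (finite_support_ord D.hL hG).toFinset ∪ D.E.support, D.E P = D.N := by
      rw [← Finset.sum_subset Finset.subset_union_right (fun P _ hP => ?_)]
      · exact D.deg
      · exact Finsupp.notMem_support_iff.mp hP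
    rw [e1, e2, zero_add]
  have h1 : ∑ P ∈ (finite_support_ord D.hL hG).toFinset ∪ D.E.support,
      (ord P.ring G + m * D.E P).toNat = m * D.N := by
    have e3 : ((∑ P ∈ (finite_support_ord D.hL hG).toFinset ∪ D.E.support,
        (ord P.ring G + m * D.E P).toNat : ℕ) : ℤ) = ((m * D.N : ℕ) : ℤ) := by
      rw [Nat.cast_sum, Finset.sum_congr rfl (fun P _ => Int.toNat_of_nonneg (h P)), h0]
      push_cast
      rfl
    exact_mod_cast e3
  unfold nm
  refine (Polynomial.natDegree_C_mul_le _ _).trans ((Polynomial.natDegree_prod_le _ _).trans ?_)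
  rw [← h1]
  apply Finset.sum_le_sum
  intro P _
  refine Polynomial.natDegree_pow_le.trans ?_
  have h2 : (1 + X * C (u P) : A[X]).natDegree ≤ 1 := by
    refine (Polynomial.natDegree_add_le _ _).trans (max_le (by simp) ?_)
    exact (Polynomial.natDegree_mul_C_le _ _).trans Polynomial.natDegree_X_le
  exact (Nat.mul_le_mul_left _ h2).trans (by rw [mul_one])

lemma nm_zero (u : Place k FB → A) :
    (nm D hG m T u).eval 0 = algebraMap k A (∏ i, rs (T i) G) := by
  unfold nm
  rw [Polynomial.eval_mul, Polynomial.eval_C, Polynomial.eval_prod]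
  conv_rhs => rw [← mul_one (algebraMap k A (∏ i, rs (T i) G))]
  congr 1
  apply Finset.prod_eq_one
  intro P _
  simp

lemma nm_const : nm D hG m T (fun _ => (0 : A)) = C (algebraMap k A (∏ i, rs (T i) G)) := by
  unfold nm
  conv_rhs => rw [← mul_one (C (algebraMap k A (∏ i, rs (T i) G)))]
  congr 1
  apply Finset.prod_eq_one
  intro P _
  simp

end nrm

/-! ### Values at places -/

section rsl

variable {k : Type u} [Field k] [IsAlgClosed k] [CharZero k] {L : Type u} [Field L] [Algebra k L]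
  {P : Place k L}

lemma rs_eq {f : L} {c : k} (h : IsRes P f c) : rs P f = c := by
  unfold rs
  rw [dif_pos ⟨c, h⟩]
  exact (Exists.choose_spec (⟨c, h⟩ : ∃ c, IsRes P f c)).unique h

lemma isRes_rs (hL : IsFunctionField k L) {f : L} (h : f ∈ P.ring) : IsRes P f (rs P f) := by
  obtain ⟨c, hc⟩ := exists_res hL h
  rw [rs_eq hc]
  exact hc

lemma mem_of_rs {f : L} (h : rs P f ≠ 0) : f ∈ P.ring := by
  by_contra h0
  apply h
  unfold rs
  rw [dif_neg]
  rintro ⟨c, hc⟩
  exact h0 hc.mem

lemma ord_of_rs (hL : IsFunctionField k L) {f : L} (h : rs P f ≠ 0) : ord P.ring f = 0 := by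
  have h1 := isRes_rs hL (mem_of_rs h)
  have h2 := h1.ne_zero h
  have h3 := (ord_nonneg_iff hL P h2).mpr (mem_of_rs h)
  have h4 : ¬ 0 < ord P.ring f := by
    rw [ord_pos_iff hL P h2]
    intro h5
    exact h (h1.unique (isRes_zero_iff.mpr h5))
  omega

end rsl

section prod

variable {k : Type u} [Field k] [IsAlgClosed k] [CharZero k] {FB : Type u} [Field FB]
  [Algebra k FB] {D : Ell k FB} {n : ℕ} {T : Fin n → Place k FB} {q : FB} {K : Type u} [Field K]
  [Algebra k K] {s : K} {t : Fin n → Bpt k FB K}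

/-- The product of the `a (t i)`. -/
lemma Pen.prod_a [D.Gen] (h : Pen D T q s t) (ha : ∀ i, D.a₀ (T i) ≠ 0) :
    ∏ i, D.a (t i) = aeval s (nm D D.hal 4 T (fun P => rs P q)) := by
  rw [← h.prod D.al D.hal 4 (fun P => by exact_mod_cast D.h4 P D.hal)
    (fun i => ord_of_rs D.hL (ha i))]
  rfl

/-- The product of the `b (t i)`. -/
lemma Pen.prod_b [D.Gen] (h : Pen D T q s t) (hb : ∀ i, D.b₀ (T i) ≠ 0) :
    ∏ i, D.b (t i) = aeval s (nm D D.hbe 6 T (fun P => rs P q)) := by
  rw [← h.prod D.be D.hbe 6 (fun P => by exact_mod_cast D.h6 P D.hbe)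
    (fun i => ord_of_rs D.hL (hb i))]
  rfl

end prod

end Pool.Agent.Helper51.VB
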