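import Mathlib
import Pool.Agent.Helper51.VB.Defs
import Pool.Agent.Helper51.VB.Ctc

/-!
# Block VB-KF: functions on the places of a function field

Template: `Helper83/VN/Kf.lean` (here everything is simpler: the values are given by `OJ.harm`).
`isRes_a`: for `t.p = .cst P` the value of `algebraMap k K (rs P D.al)` is `rs P D.al`; for `.emb ι` use
`isRes_rs` and `Over`. `fun_psT`: take the function given by `OJ.harm` for the points with
`p := .cst (T i)` (`rs (T i) D.al = D.a₀ (T i)`). `kf_val`: `KPt.Val` in each variable (`x` is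
`px .. / l ^ 2` with `l` of value `1`; `IsRes.inv`), the tuple of points is `f ∘ π`;
`Ψ (f ∘ π) = sign π * Ψ f` (`h.alt`, `Equiv.Perm.swap_induction_on`; the points are on the curves:
`onE_of_onX`, or as values); the sum over `e` is reindexed by `e ↦ e ∘ π.symm`. `kf_base`, `kf_pole`:
`KPt.Zero`.
-/

set_option linter.unusedSectionVars false

namespace Pool.Agent.Helper51.VB

open VC VF Function Polynomial
open Pool.Agent.Helper83.VN
open Pool.Agent.Helper51.VN (Harm OnE OnX px py Fun FF)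

universe u

variable {k : Type u} [Field k] [IsAlgClosed k] [CharZero k] {FB : Type u} [Field FB]
  [Algebra k FB] (D : Ell k FB) {K : Type u} [Field K] [Algebra k K] {n : ℕ}
  {Ψ : (Fin n → Place k FB × k × k) → k}

/-! ### Values of the coefficients -/

lemma isRes_ev (hL : IsFunctionField k FB) {w : Place k K} {p : BP k FB K} {P : Place k FB}
    (h : p.Ov w P) {f : FB} (hf : f ∈ P.ring) : IsRes w (p.ev f) (rs P f) := by
  cases p with
  | cst P' =>
    have h' : P' = P := h
    subst h'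
    exact isRes_const _
  | emb ι => exact h f _ (isRes_rs hL hf)

lemma isRes_a {w : Place k K} {t : Bpt k FB K} {P : Place k FB} (ht : BRes w t P)
    (hP : D.Nice P) : IsRes w (D.a t) (D.a₀ P) := by
  have h1 := (ht.2.pow 4).mul (isRes_ev D.hL ht.1 hP.1)
  rw [one_pow, one_mul] at h1
  exact h1

lemma isRes_b {w : Place k K} {t : Bpt k FB K} {P : Place k FB} (ht : BRes w t P)
    (hP : D.Nice P) : IsRes w (D.b t) (D.b₀ P) := by
  have h1 := (ht.2.pow 6).mul (isRes_ev D.hL ht.1 hP.2.1)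
  rw [one_pow, one_mul] at h1
  exact h1

lemma isRes_d {w : Place k K} {t : Bpt k FB K} {P : Place k FB} (ht : BRes w t P)
    (hP : D.Nice P) : IsRes w (D.d t) (D.d₀ P) :=
  ((isRes_b D ht hP).pow 2).sub ((isRes_a D ht hP).pow 3)

lemma a_cs (P : Place k FB) : D.a (cs P : Bpt k FB K) = algebraMap k K (D.a₀ P) := by
  unfold Ell.a cs Ell.a₀ BP.ev
  simp

lemma b_cs (P : Place k FB) : D.b (cs P : Bpt k FB K) = algebraMap k K (D.b₀ P) := by
  unfold Ell.b cs Ell.b₀ BP.ev
  simp

lemma d_cs (P : Place k FB) : D.d (cs P : Bpt k FB K) = algebraMap k K (D.d₀ P) := by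
  unfold Ell.d Ell.d₀
  rw [a_cs, b_cs, map_sub, map_pow, map_pow]

private lemma ev_map50 {K' : Type u} [Field K'] [Algebra k K'] (φ : K →ₐ[k] K')
    (p : BP k FB K) (f : FB) : (p.map φ).ev f = φ (p.ev f) := by
  cases p with
  | cst P => exact (φ.commutes _).symm
  | emb ι => rfl

lemma a_map {K' : Type u} [Field K'] [Algebra k K'] (φ : K →ₐ[k] K') (t : Bpt k FB K) :
    D.a (t.map φ) = φ (D.a t) := by
  change φ t.l ^ 4 * (t.p.map φ).ev D.al = φ (t.l ^ 4 * t.p.ev D.al)
  rw [ev_map50, map_mul, map_pow]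

lemma b_map {K' : Type u} [Field K'] [Algebra k K'] (φ : K →ₐ[k] K') (t : Bpt k FB K) :
    D.b (t.map φ) = φ (D.b t) := by
  change φ t.l ^ 6 * (t.p.map φ).ev D.be = φ (t.l ^ 6 * t.p.ev D.be)
  rw [ev_map50, map_mul, map_pow]

lemma d_map {K' : Type u} [Field K'] [Algebra k K'] (φ : K →ₐ[k] K') (t : Bpt k FB K) :
    D.d (t.map φ) = φ (D.d t) := by
  unfold Ell.d
  rw [a_map, b_map, map_sub, map_pow, map_pow]

/-- The discriminant of a nice fibre is not zero. -/
lemma d₀_ne {P : Place k FB} (hP : D.Nice P) : D.d₀ P ≠ 0 := by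
  intro h0
  have h1 : IsRes P (D.be ^ 2 - D.al ^ 3) (D.d₀ P) :=
    ((isRes_rs D.hL hP.2.1).pow 2).sub ((isRes_rs D.hL hP.1).pow 3)
  rw [h0] at h1
  have h2 := (ord_pos_iff D.hL P D.hD).mpr (isRes_zero_iff.mp h1)
  rw [hP.2.2.1] at h2
  exact lt_irrefl _ h2

/-! ### Auxiliary facts -/

variable {D} in
private lemma val_onE50 {c : KPt D K} {w : Place k K} {p : Place k FB × k × k}
    (hc : c.Val w p) : OnE (D.a₀ p.1) (D.b₀ p.1) p.2.1 p.2.2 := by
  obtain ⟨hN, hO, hx, hy⟩ := hc
  have ha := isRes_ev D.hL hO hN.1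
  have hb := isRes_ev D.hL hO hN.2.1
  have h3 : IsRes w (3 : K) (3 : k) := by
    have := isRes_const (v := w) (3 : k)
    rwa [map_ofNat] at this
  have h2 : IsRes w (2 : K) (2 : k) := by
    have := isRes_const (v := w) (2 : k)
    rwa [map_ofNat] at this
  have h1 := hy.pow 2
  have h0 := c.hE
  unfold OnE at h0
  rw [h0] at h1
  exact h1.unique (((hx.pow 3).sub ((h3.mul ha).mul hx)).sub (h2.mul hb))

variable {D} in
/-- An alternating function under a permutation. -/
private lemma kf_perm50 (h : OJ D n Ψ) (π : Equiv.Perm (Fin n)) :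
    ∀ p : Fin n → Place k FB × k × k, (∀ j, D.Nice (p j).1 ∧
      OnE (D.a₀ (p j).1) (D.b₀ (p j).1) (p j).2.1 (p j).2.2) →
      Ψ (fun l => p (π l)) = (((Equiv.Perm.sign π : ℤˣ) : ℤ) : k) * Ψ p := by
  induction π using Equiv.Perm.swap_induction_on with
  | one => intro p _; simp
  | swap_mul f i j hij ih =>
    intro p hp
    have h1 := ih (fun l => p (Equiv.swap i j l)) (fun l => hp _)
    rw [h.alt i j hij p hp] at h1
    have h2 : (fun l => p ((Equiv.swap i j * f) l)) = fun l => p (Equiv.swap i j (f l)) := rfl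
    rw [h2, h1, Equiv.Perm.sign_mul, Equiv.Perm.sign_swap hij]
    push_cast
    ring

private lemma kf_omega_ne50 {ω : k} (hω : ω ^ 2 + ω + 1 = 0) : ω ≠ 0 := by
  rintro rfl
  norm_num at hω

/-! ### The restriction to a product of fibres -/

/-- The restrictions of a functional to products of fibres. -/
theorem fun_psT (h : OJ D n Ψ) {T : Fin n → Place k FB} (hT : ∀ i, D.Nice (T i)) :
    Fun (fun i => D.a₀ (T i)) (fun i => D.b₀ (T i)) (psT Ψ T) := by
  refine ⟨?_, ?_⟩
  · intro K _ _ hK x y hxy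
    obtain ⟨F, hF, hv, -⟩ := h.harm K hK (fun i => (⟨.cst (T i), x i, y i, by
      intro P hP
      cases hP
      exact hT i, hxy i⟩ : KPt D K))
    refine ⟨F, hF, fun w c d hc hd => ?_⟩
    exact hv w (fun i => (T i, c i, d i)) (fun i => ⟨hT i, rfl, hc i, hd i⟩)
  · intro p i hp
    have h1 := h.odd (fun j => (T j, (p j).1, (p j).2)) i (fun j => ⟨hT j, hp j⟩)
    have h2 : update (fun j => (T j, (p j).1, (p j).2)) i (T i, (p i).1, -(p i).2) =
        fun j => (T j, ((update p i ((p i).1, -(p i).2)) j).1,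
          ((update p i ((p i).1, -(p i).2)) j).2) := by
      funext j
      by_cases hj : j = i
      · subst hj
        rw [update_self, update_self]
      · rw [update_of_ne hj, update_of_ne hj]
    change Ψ (fun j => (T j, ((update p i ((p i).1, -(p i).2)) j).1,
      ((update p i ((p i).1, -(p i).2)) j).2)) = -Ψ (fun j => (T j, (p j).1, (p j).2))
    rw [← h2]
    exact h1

/-! ### The functions on the places of a function field -/

variable {ω : k} (hω : ω ^ 2 + ω + 1 = 0) (hK : IsFunctionField k K) {t : Fin n → Bpt k FB K}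
  {z v : Fin n → K}

theorem kf_harm (h : OJ D n Ψ) (t : Fin n → Bpt k FB K) (z v : Fin n → K) :
    Harm hK (KF D ω hω h hK t z v) := by
  intro f hf
  unfold KF
  by_cases hh : Adm D t z v
  · simp only [dif_pos hh, Finset.mul_sum]
    rw [Finset.sum_comm]
    apply Finset.sum_eq_zero
    intro e _
    have h1 := (h.harm K hK (kpt D ω t z v e hω hh)).choose_spec.1 f hf
    have h2 : ∀ w ∈ (finite_support_ord hK hf).toFinset,
        (ord w.ring f : k) * (ω ^ (-∑ i, e i).val *
          (h.harm K hK (kpt D ω t z v e hω hh)).choose w) =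
        ω ^ (-∑ i, e i).val * ((ord w.ring f : k) *
          (h.harm K hK (kpt D ω t z v e hω hh)).choose w) := fun w _ => by ring
    rw [Finset.sum_congr rfl h2, ← Finset.mul_sum, h1, mul_zero]
  · simp only [dif_neg hh, mul_zero, Finset.sum_const_zero]

/-- The value at a place at which everything is regular. -/
theorem kf_val (h : OJ D n Ψ) (hA : Adm D t z v) (w : Place k K)
    (π : Equiv.Perm (Fin n)) {T : Fin n → Place k FB} {ζ ν : Fin n → k}
    (hT : ∀ i, D.Nice (T i)) (ht : ∀ i, BRes w (t i) (T (π i)))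
    (hz : ∀ i, IsRes w (z i) (ζ i)) (hv : ∀ i, IsRes w (v i) (ν i)) (hζ : ∀ i, ζ i ≠ 0)
    (hν : ∀ i, ν i ≠ 0) :
    KF D ω hω h hK t z v w = (((Equiv.Perm.sign π : ℤˣ) : ℤ) : k) *
      FF ω (fun i => D.a₀ (T i)) (fun i => D.d₀ (T i)) (psT Ψ T) (fun i => ζ (π.symm i))
        (fun i => ν (π.symm i)) := by
  have hω0 := kf_omega_ne50 hω
  have h4 : IsRes w (4 : K) (4 : k) := by
    have := isRes_const (v := w) (4 : k)
    rwa [map_ofNat] at this
  have hval : ∀ (e : Fin n → ZMod 3) (i : Fin n), (kpt D ω t z v e hω hA i).Val w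
      (T (π i), px (D.a₀ (T (π i))) (ω ^ (e i).val * ν i),
        py (D.d₀ (T (π i))) (ζ i) (ω ^ (e i).val * ν i)) := by
    intro e i
    have hv' : IsRes w (algebraMap k K (ω ^ (e i).val) * v i) (ω ^ (e i).val * ν i) :=
      (isRes_const _).mul (hv i)
    have hn : ω ^ (e i).val * ν i ≠ 0 := mul_ne_zero (pow_ne_zero _ hω0) (hν i)
    refine ⟨hT _, (ht i).1, ?_, ?_⟩
    · have h1 : IsRes w (px (D.a (t i)) (algebraMap k K (ω ^ (e i).val) * v i))
          (px (D.a₀ (T (π i))) (ω ^ (e i).val * ν i)) := by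
        unfold px
        rw [div_eq_mul_inv, div_eq_mul_inv]
        exact (hv'.pow 2).add ((isRes_a D (ht i) (hT _)).mul
          ((hv'.pow 2).inv hK (pow_ne_zero _ hn)))
      have h2 := h1.mul (((ht i).2.pow 2).inv hK (pow_ne_zero _ one_ne_zero))
      rw [one_pow, inv_one, mul_one, ← div_eq_mul_inv] at h2
      exact h2
    · have h1 : IsRes w (py (D.d (t i)) (z i) (algebraMap k K (ω ^ (e i).val) * v i))
          (py (D.d₀ (T (π i))) (ζ i) (ω ^ (e i).val * ν i)) := by
        unfold py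
        rw [div_eq_mul_inv, div_eq_mul_inv, div_eq_mul_inv, div_eq_mul_inv]
        exact ((hz i).sub ((isRes_d D (ht i) (hT _)).mul ((h4.mul (hz i)).inv hK
          (mul_ne_zero (by norm_num) (hζ i))))).mul ((hv'.pow 3).inv hK (pow_ne_zero _ hn))
      have h2 := h1.mul (((ht i).2.pow 3).inv hK (pow_ne_zero _ one_ne_zero))
      rw [one_pow, inv_one, mul_one, ← div_eq_mul_inv] at h2
      exact h2
  unfold KF FF
  rw [dif_pos hA, ← Equiv.sum_comp (Equiv.arrowCongr π.symm (Equiv.refl (ZMod 3))),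
    Finset.mul_sum]
  apply Finset.sum_congr rfl
  intro e _
  have he : ∀ i, (Equiv.arrowCongr π.symm (Equiv.refl (ZMod 3))) e i = e (π i) := fun i => rfl
  have hsum : ∑ i, (Equiv.arrowCongr π.symm (Equiv.refl (ZMod 3))) e i = ∑ i, e i :=
    Equiv.sum_comp π e
  rw [hsum]
  generalize hE' : (Equiv.arrowCongr π.symm (Equiv.refl (ZMod 3))) e = e' at he
  let q : Fin n → Place k FB × k × k := fun j => (T j, px (D.a₀ (T j)) (ω ^ (e j).val *
    ν (π.symm j)), py (D.d₀ (T j)) (ζ (π.symm j)) (ω ^ (e j).val * ν (π.symm j)))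
  have hq : ∀ i, (kpt D ω t z v e' hω hA i).Val w (q (π i)) := by
    intro i
    have h1 := hval e' i
    rw [he] at h1
    change (kpt D ω t z v e' hω hA i).Val w (T (π i), px (D.a₀ (T (π i)))
      (ω ^ (e (π i)).val * ν (π.symm (π i))), py (D.d₀ (T (π i))) (ζ (π.symm (π i)))
        (ω ^ (e (π i)).val * ν (π.symm (π i))))
    rw [Equiv.symm_apply_apply]
    exact h1
  have h1 := (h.harm K hK (kpt D ω t z v e' hω hA)).choose_spec.2.1 w (fun i => q (π i)) hq
  have h3 : ∀ j, D.Nice (q j).1 ∧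
      OnE (D.a₀ (q j).1) (D.b₀ (q j).1) (q j).2.1 (q j).2.2 := by
    intro j
    have h5 := hq (π.symm j)
    rw [Equiv.apply_symm_apply] at h5
    exact ⟨h5.1, val_onE50 h5⟩
  have h2 : Ψ (fun i => q (π i)) = (((Equiv.Perm.sign π : ℤˣ) : ℤ) : k) * Ψ q :=
    kf_perm50 h π q h3
  rw [h1, h2]
  change ω ^ (-∑ i, e i).val * ((((Equiv.Perm.sign π : ℤˣ) : ℤ) : k) * Ψ q) =
    (((Equiv.Perm.sign π : ℤˣ) : ℤ) : k) * (ω ^ (-∑ i, e i).val * Ψ q)
  ring

/-- The value is zero if one of the `t i` has the value `e1`. -/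
theorem kf_base [D.Pos] (h : OJ D n Ψ) (hA : Adm D t z v) (w : Place k K) {i : Fin n}
    (hi : (t i).p.Ov w D.e1) : KF D ω hω h hK t z v w = 0 := by
  unfold KF
  rw [dif_pos hA]
  apply Finset.sum_eq_zero
  intro e _
  rw [(h.harm K hK (kpt D ω t z v e hω hA)).choose_spec.2.2 w i (Or.inl ⟨D.hN, hi⟩), mul_zero]

/-- The value is zero if one of the `v i` has a pole or a zero, and `a (t i)` is not zero there. -/
theorem kf_pole (h : OJ D n Ψ) (hA : Adm D t z v) (w : Place k K) {i : Fin n}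
    {P : Place k FB} (hP : D.Nice P) (ht : BRes w (t i) P) (ha : D.a₀ P ≠ 0)
    (hi : v i ∉ w.ring ∨ IsRes w (v i) 0) : KF D ω hω h hK t z v w = 0 := by
  have hω0 := kf_omega_ne50 hω
  unfold KF
  rw [dif_pos hA]
  apply Finset.sum_eq_zero
  intro e _
  have hg : ω ^ (e i).val ≠ 0 := pow_ne_zero _ hω0
  have hpx : px (D.a (t i)) (algebraMap k K (ω ^ (e i).val) * v i) ∉ w.ring := by
    set v' : K := algebraMap k K (ω ^ (e i).val) * v i with hv'
    have hvi : v i = algebraMap k K (ω ^ (e i).val)⁻¹ * v' := by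
      rw [hv', ← mul_assoc, ← map_mul, inv_mul_cancel₀ hg, map_one, one_mul]
    have hv0 : v' ≠ 0 := by
      rw [hv']
      exact mul_ne_zero (by rw [Ne, _root_.map_eq_zero]; exact hg) (hA.2 i).2.1
    intro hmem
    unfold px at hmem
    rcases hi with hi | hi
    · have h1 : v' ∉ w.ring := by
        intro h1
        apply hi
        rw [hvi]
        exact w.ring.mul_mem _ _ (w.algebraMap_mem _) h1
      have h2 : v'⁻¹ ∈ w.ring := (w.ring.mem_or_inv_mem v').resolve_left h1
      have h3 : D.a (t i) / v' ^ 2 ∈ w.ring := by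
        rw [div_eq_mul_inv, ← inv_pow]
        exact w.ring.mul_mem _ _ (isRes_a D ht hP).mem (pow_mem h2 2)
      have h4 : v' ^ 2 ∈ w.ring := by
        have := sub_mem hmem h3
        rwa [add_sub_cancel_right] at this
      exact h1 (mem_of_pow two_ne_zero h4)
    · have h1 : IsRes w v' 0 := by
        have := (isRes_const (v := w) (ω ^ (e i).val)).mul hi
        rwa [mul_zero] at this
      have h2 : IsRes w (v' ^ 2) 0 := by
        have := h1.pow 2
        rwa [zero_pow two_ne_zero] at this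
      have h3 : D.a (t i) / v' ^ 2 ∈ w.ring := by
        have := sub_mem hmem h2.mem
        rwa [add_sub_cancel_left] at this
      have h4 : D.a (t i) ∈ w.ring.nonunits := by
        have := nonunits_mul h3 (isRes_zero_iff.mp h2)
        rwa [div_mul_cancel₀ _ (pow_ne_zero 2 hv0)] at this
      exact ha ((isRes_a D ht hP).unique (isRes_zero_iff.mpr h4))
  have hx : (kpt D ω t z v e hω hA i).x ∉ w.ring := by
    intro hmem
    change px (D.a (t i)) (algebraMap k K (ω ^ (e i).val) * v i) / (t i).l ^ 2 ∈ w.ring at hmem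
    have h5 := w.ring.mul_mem _ _ hmem (ht.2.pow 2).mem
    rw [div_mul_cancel₀ _ (pow_ne_zero 2 (t i).hl)] at h5
    exact hpx h5
  rw [(h.harm K hK (kpt D ω t z v e hω hA)).choose_spec.2.2 w i
    (Or.inr ⟨P, hP, ht.1, hx⟩), mul_zero]

end Pool.Agent.Helper51.VB
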