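import Mathlib
import Pool.Agent.Helper51.VB.Ctc

/-!
# General points of the base curve
-/

set_option linter.unusedSectionVars false

namespace Pool.Agent.Helper51.VB

open VC VF Function Polynomial

universe u

variable {k : Type u} [Field k] [IsAlgClosed k] [CharZero k] {FB : Type u} [Field FB]
  [Algebra k FB] {n : ℕ}

/-- The points `T i` are general: the fibres are nice, `a`, `b` do not vanish and the spectral
values `4 b ^ 2 / d` are different. -/
structure Gn (D : Ell k FB) (T : Fin n → Place k FB) : Prop where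
  nc : ∀ i, D.Nice (T i)
  ha : ∀ i, D.a₀ (T i) ≠ 0
  hb : ∀ i, D.b₀ (T i) ≠ 0
  hj : ∀ i j, i ≠ j → D.b₀ (T i) ^ 2 * D.d₀ (T j) ≠ D.b₀ (T j) ^ 2 * D.d₀ (T i)

lemma Gn.inj {D : Ell k FB} {T : Fin n → Place k FB} (h : Gn D T) : Injective T := by
  intro i j hij
  by_contra hne
  exact h.hj i j hne (by rw [hij])

end Pool.Agent.Helper51.VB
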