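import Mathlib
import Pool.Agent.Helper51.VB.Defs
import Pool.Agent.Helper17.FF.Genus

/-!
# Block VB-RR: the dimension of the space of pencils

For the divisor `B = ∑ single (T i) 1 - single D.e1 1` of degree `n - 1`, Riemann's inequality
(`hg.1 B`, or `FF.ell_ge`) gives `dim L(B) ≥ n - g`. Take `n - g` linearly independent elements. An element
`f ≠ 0` of `L(B)` satisfies `0 ≤ ord P f + B P` for all `P` (`FF.mem_rr`), and
`B P = (if ∃ i, T i = P then 1 else 0) - (if P = e1 then 1 else 0)` because `T` is injective.
`InRR` is closed under linear combinations: `riemannRochSpace` is a submodule.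
-/

set_option linter.unusedSectionVars false

namespace Pool.Agent.Helper51.VB

open VC VF Function Polynomial

universe u

variable {k : Type u} [Field k] [IsAlgClosed k] [CharZero k] {FB : Type u} [Field FB]
  [Algebra k FB] {D : Ell k FB} {n : ℕ} {T : Fin n → Place k FB}

open Classical in
/-- the divisor `∑ T i - e1` -/
private noncomputable def B40 (D : Ell k FB) {n : ℕ} (T : Fin n → Place k FB) : Place k FB →₀ ℤ :=
  ∑ i, Finsupp.single (T i) (1 : ℤ) - Finsupp.single D.e1 1

open Classical in
private lemma B40_apply (D : Ell k FB) {n : ℕ} {T : Fin n → Place k FB} (hinj : Injective T)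
    (P : Place k FB) : B40 D T P = (if ∃ i, T i = P then 1 else 0) - (if P = D.e1 then 1 else 0) := by
  unfold B40
  rw [Finsupp.sub_apply, Finsupp.finsetSum_apply, Finsupp.single_apply]
  congr 1
  · by_cases h : ∃ i, T i = P
    · rw [if_pos h]
      obtain ⟨i, hi⟩ := h
      rw [Finset.sum_eq_single i]
      · rw [Finsupp.single_apply, if_pos hi]
      · intro j _ hj
        rw [Finsupp.single_apply, if_neg]
        intro h1
        exact hj (hinj (h1.trans hi.symm))
      · intro h1
        exact absurd (Finset.mem_univ i) h1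
    · rw [if_neg h]
      apply Finset.sum_eq_zero
      intro j _
      rw [Finsupp.single_apply, if_neg (fun h1 => h ⟨j, h1⟩)]
  · by_cases h : P = D.e1
    · rw [if_pos h, if_pos h.symm]
    · rw [if_neg h, if_neg (fun h1 => h h1.symm)]

private lemma deg_B40 (D : Ell k FB) {n : ℕ} (T : Fin n → Place k FB) :
    FF.deg (B40 D T) = n - 1 := by
  unfold B40
  rw [map_sub, map_sum]
  simp

private lemma inRR_of_mem40 (hinj : Injective T) {f : FB}
    (hf : f ∈ riemannRochSpace k FB (B40 D T)) : InRR D T f := by
  rcases eq_or_ne f 0 with h0 | h0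
  · exact Or.inl h0
  · right
    intro P
    have h1 := (FF.mem_rr D.hL _ h0).mp hf P
    rw [B40_apply D hinj] at h1
    linarith

/-- There is an `n - g` dimensional space of functions satisfying `InRR`. -/
theorem exists_rr {g : ℕ} (hg : IsGenus k FB g) (hinj : Injective T) :
    ∃ q : Fin (n - g) → FB, LinearIndependent k q ∧
      ∀ x : Fin (n - g) → k, InRR D T (∑ j, algebraMap k FB (x j) * q j) := by
  have h1 := FF.ell_ge hg (B40 D T)
  rw [deg_B40] at h1
  have h2 : n - g ≤ Module.finrank k (riemannRochSpace k FB (B40 D T)) := by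
    have h3 : (n : ℤ) - g ≤ (Module.finrank k (riemannRochSpace k FB (B40 D T)) : ℤ) := by
      linarith
    omega
  obtain ⟨q, hq⟩ := exists_linearIndependent_of_le_finrank h2
  refine ⟨fun j => (q j : FB), hq.map' (Submodule.subtype _) (Submodule.ker_subtype _), ?_⟩
  intro x
  apply inRR_of_mem40 hinj
  apply Submodule.sum_mem
  intro j _
  rw [← Algebra.smul_def]
  exact Submodule.smul_mem _ _ (q j).2

/-- Values outside the poles. -/
lemma InRR.mem {q : FB} (hq : InRR D T q) {P : Place k FB} (hP : ∀ i, T i ≠ P) : q ∈ P.ring := by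
  classical
  rcases hq with h0 | h1
  · rw [h0]
    exact P.ring.zero_mem
  · rcases eq_or_ne q 0 with h0 | h0
    · rw [h0]
      exact P.ring.zero_mem
    · have h2 := h1 P
      rw [if_neg (show ¬ ∃ i, T i = P from fun ⟨i, hi⟩ => hP i hi)] at h2
      rw [← FF.ord_nonneg_iff D.hL P h0]
      split_ifs at h2 <;> linarith

end Pool.Agent.Helper51.VB
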