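import Mathlib
import Pool.Agent.Helper51.VB.Ctc
import Pool.Agent.Helper51.VB.Rr
import Pool.Agent.Helper71.SE.Zero

/-!
# Block VB-CTB: the contact data exist

Template: `Helper83/VN/Ctb.lean` (the same theorem over the projective line, by helper46), itself
modelled on `Helper83/KV/Contact.lean`. Index set of the unknowns
`Ix = Fin (n - g) ⊕ ((Sl × Fin (6 N)) ⊕ (Fin (2 N) ⊕ Fin (3 N)))`, `Sl` with `2 n + 1` elements (the
coefficients of `U, U', Q, R`). Let `q j` be as in `exists_rr`. For `x : Ix → A` (`A` a commutative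
`k`-algebra) let `u x P = ∑ j, x j * algebraMap k A (rs P (q j))`, the coefficients of `U, ..` the
constants of `V₀` plus `pol (x ..)` (polynomials in `s` without constant term, of degree `≤ 6 N`),
`Xp = ξ + pol`, `Op = η + pol`. For `ϖ : k` let `G ϖ = be ^ 2 - (ϖ / 4) (be ^ 2 - al ^ 3)`, a section of
`12 E` (`ord (G ϖ) + 12 E ≥ 0` from `h4`, `h6`), with `rs (T i) (G ϖ) = b₀ ^ 2 - (ϖ / 4) d₀`. Choose `n`
different nonzero `ϖ j ∈ k` with `rs (T i) (G (ϖ j)) ≠ 0` for all `i, j` (`d₀ ≠ 0`); then `G (ϖ j) ≠ 0`. Put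
* `E j = Q (ϖ j) ^ 2 - ϖ j U (ϖ j) U' (ϖ j) - ϖ j (ϖ j - 4) R (ϖ j) ^ 2 - nm (G (ϖ j)) 12 T (u x)`,
* `E' = Q (0) - nm be 6 T (u x)`, of degree `≤ 6 N`,
* `E'' = Op ^ 2 - Xp ^ 3 + 3 nm al 4 T (u x) * Xp + 2 Q (4)`, of degree `≤ 6 N`.
Equations: the coefficients of `s ^ m` of `E j` (`1 ≤ m ≤ 12 N`), of `E'` (`1 ≤ m ≤ 6 N`), of `E''`
(`1 ≤ m ≤ 6 N - 1`), in `A = MvPolynomial Ix k`. They have no constant term: for `x = 0` all the
polynomials are constant in `s` (`nm_const`). The number of unknowns minus the number of equations is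
`(n - g) - N + 1 ≥ 1`. `Helper71.SE.exists_common_zero` gives a nonzero solution `x`. For this
solution (with `q = ∑ x j q j`; `u x P = rs P q` for all `P` which are not one of the `T i`; in `nm` the
factors at the `T i` have exponent `0`, so `nm G m T (u x) = nm G m T (rs · q)`) the `E j`, `E'` vanish and
`E'' = c s ^ (6 N)` (the constant terms vanish by the hypotheses, `nm_zero`). With `Pen.prod`
(`Pen.prod_a`, `Pen.prod_b`) these are the identities over every field `K`: `form` is an identity of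
polynomials of degree `≤ n` which holds at `0` (where it is the square of `Q0`) and at the `ϖ j`; note
`(t i).l ^ 12 * (t i).p.ev (G ϖ) = D.b (t i) ^ 2 - (ϖ / 4) D.d (t i)` (for `.cst P` with `P` nice).
-/

set_option linter.unusedSectionVars false

namespace Pool.Agent.Helper51.VB

open VC VF Function Polynomial
open Pool.Agent.Helper83.VN
open Pool.Agent.Helper51.VN (Harm OnE OnX px py Fun FF)

universe u

section aux6

variable {k : Type u} [Field k]

/-- A polynomial without constant term. -/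
private noncomputable def pl6 {A : Type*} [CommRing A] {n : ℕ} (g : Fin n → A) : A[X] :=
  ∑ i : Fin n, C (g i) * X ^ ((i : ℕ) + 1)

private lemma pl6_degree {A : Type*} [CommRing A] {n : ℕ} (g : Fin n → A) :
    (pl6 g).natDegree ≤ n := by
  unfold pl6
  refine natDegree_sum_le_of_forall_le _ _ fun i _ => ?_
  refine (natDegree_C_mul_X_pow_le _ _).trans ?_
  omega

private lemma pl6_coeff {A : Type*} [CommRing A] {n : ℕ} (g : Fin n → A) (j : Fin n) :
    (pl6 g).coeff ((j : ℕ) + 1) = g j := by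
  unfold pl6
  rw [finsetSum_coeff, Finset.sum_eq_single j]
  · simp
  · intro i _ hij
    rw [coeff_C_mul, coeff_X_pow, if_neg, mul_zero]
    intro h
    apply hij
    apply Fin.ext
    omega
  · intro h
    exact absurd (Finset.mem_univ j) h

private lemma pl6_eval {A : Type*} [CommRing A] {n : ℕ} (g : Fin n → A) :
    (pl6 g).eval 0 = 0 := by
  unfold pl6
  rw [eval_finsetSum]
  apply Finset.sum_eq_zero
  intro i _
  simp

private lemma pl6_zero {A : Type*} [CommRing A] {n : ℕ} (g : Fin n → A) (h : pl6 g = 0)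
    (j : Fin n) : g j = 0 := by
  rw [← pl6_coeff g j, h, coeff_zero]

private lemma pl6_of_zero {A : Type*} [CommRing A] {n : ℕ} :
    pl6 (fun _ : Fin n => (0 : A)) = 0 := by
  unfold pl6
  simp

private lemma pl6_map {A B : Type*} [CommRing A] [CommRing B] {n : ℕ} (f : A →+* B)
    (g : Fin n → A) : (pl6 g).map f = pl6 (fun i => f (g i)) := by
  unfold pl6
  rw [Polynomial.map_sum]
  simp

/-- a coefficient -/
private noncomputable def cf6 {A : Type*} [CommRing A] [Algebra k A] {M : ℕ} (p : k[X]) (i : ℕ)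
    (g : Fin M → A) : A[X] := C (algebraMap k A (p.coeff i)) + pl6 g

private lemma cf6_degree {A : Type*} [CommRing A] [Algebra k A] {M : ℕ} (p : k[X]) (i : ℕ)
    (g : Fin M → A) : (cf6 p i g).natDegree ≤ M := by
  unfold cf6
  refine (natDegree_add_le _ _).trans (max_le ?_ (pl6_degree _))
  rw [natDegree_C]
  exact Nat.zero_le _

private lemma cf6_eval {A : Type*} [CommRing A] [Algebra k A] {M : ℕ} (p : k[X]) (i : ℕ)
    (g : Fin M → A) : (cf6 p i g).eval 0 = algebraMap k A (p.coeff i) := by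
  unfold cf6
  rw [eval_add, eval_C, pl6_eval, add_zero]

private lemma cf6_map {A B : Type*} [CommRing A] [Algebra k A] [CommRing B] [Algebra k B] {M : ℕ}
    (f : A →ₐ[k] B) (p : k[X]) (i : ℕ) (g : Fin M → A) :
    (cf6 p i g).map f.toRingHom = cf6 p i (fun j => f (g j)) := by
  unfold cf6
  rw [Polynomial.map_add, Polynomial.map_C, pl6_map]
  congr 2
  exact f.commutes _

/-- the value at `c ∈ k` -/
private noncomputable def ev6 {A : Type*} [CommRing A] [Algebra k A] {m M : ℕ} (p : k[X])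
    (g : Fin m → Fin M → A) (c : k) : A[X] :=
  ∑ i : Fin m, cf6 p i (g i) * C (algebraMap k A (c ^ (i : ℕ)))

private lemma ev6_map {A B : Type*} [CommRing A] [Algebra k A] [CommRing B] [Algebra k B]
    {m M : ℕ} (f : A →ₐ[k] B) (p : k[X]) (g : Fin m → Fin M → A) (c : k) :
    (ev6 p g c).map f.toRingHom = ev6 p (fun i j => f (g i j)) c := by
  unfold ev6
  rw [Polynomial.map_sum]
  refine Finset.sum_congr rfl fun i _ => ?_
  rw [Polynomial.map_mul, cf6_map, Polynomial.map_C]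
  congr 2
  exact f.commutes _

private lemma ev6_degree {A : Type*} [CommRing A] [Algebra k A] {m M : ℕ} (p : k[X])
    (g : Fin m → Fin M → A) (c : k) : (ev6 p g c).natDegree ≤ M := by
  unfold ev6
  refine natDegree_sum_le_of_forall_le _ _ fun i _ => ?_
  exact (natDegree_mul_C_le _ _).trans (cf6_degree _ _ _)

private lemma rep6 {A : Type*} [CommRing A] {m : ℕ} {p : A[X]} (hp : ∀ j, m ≤ j → p.coeff j = 0) :
    p = ∑ i : Fin m, C (p.coeff i) * X ^ (i : ℕ) := by
  ext j
  rw [finsetSum_coeff]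
  by_cases hj : j < m
  · rw [Finset.sum_eq_single ⟨j, hj⟩]
    · simp
    · intro i _ hij
      rw [coeff_C_mul, coeff_X_pow, if_neg, mul_zero]
      intro h
      apply hij
      apply Fin.ext
      exact h.symm
    · intro h
      exact absurd (Finset.mem_univ _) h
  · rw [hp j (by omega)]
    symm
    apply Finset.sum_eq_zero
    intro i _
    rw [coeff_C_mul, coeff_X_pow, if_neg, mul_zero]
    have := i.2
    omega

private lemma sc6 {m : ℕ} {p : k[X]} (hp : ∀ j, m ≤ j → p.coeff j = 0) (c : k) :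
    ∑ i : Fin m, p.coeff i * c ^ (i : ℕ) = p.eval c := by
  conv_rhs => rw [rep6 hp]
  rw [eval_finsetSum]
  refine Finset.sum_congr rfl fun i _ => ?_
  rw [eval_mul, eval_C, eval_pow, eval_X]

private lemma ev6_eval {A : Type*} [CommRing A] [Algebra k A] {m M : ℕ} {p : k[X]}
    (hp : ∀ j, m ≤ j → p.coeff j = 0) (g : Fin m → Fin M → A) (c : k) :
    (ev6 p g c).eval 0 = algebraMap k A (p.eval c) := by
  unfold ev6
  rw [eval_finsetSum, ← sc6 hp, map_sum]
  refine Finset.sum_congr rfl fun i _ => ?_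
  rw [eval_mul, eval_C, cf6_eval, map_mul]

private lemma ev6_zero {A : Type*} [CommRing A] [Algebra k A] {m M : ℕ} {p : k[X]}
    (hp : ∀ j, m ≤ j → p.coeff j = 0) (c : k) :
    ev6 p (fun (_ : Fin m) (_ : Fin M) => (0 : A)) c = C (algebraMap k A (p.eval c)) := by
  unfold ev6
  rw [← sc6 hp, map_sum, map_sum]
  refine Finset.sum_congr rfl fun i _ => ?_
  unfold cf6
  rw [pl6_of_zero, add_zero, map_mul, C_mul]

/-- a polynomial over `k[s]` -/
private noncomputable def mk6 {m M : ℕ} (p : k[X]) (g : Fin m → Fin M → k) : k[X][X] :=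
  ∑ i : Fin m, C (cf6 p i (g i)) * X ^ (i : ℕ)

private lemma mk6_coeff {m M : ℕ} (p : k[X]) (g : Fin m → Fin M → k) (i : Fin m) :
    (mk6 p g).coeff (i : ℕ) = cf6 p i (g i) := by
  unfold mk6
  rw [finsetSum_coeff, Finset.sum_eq_single i]
  · simp
  · intro i' _ hij
    rw [coeff_C_mul, coeff_X_pow, if_neg, mul_zero]
    intro h
    exact hij (Fin.ext h.symm)
  · intro h
    exact absurd (Finset.mem_univ _) h

private lemma mk6_coeff' {m M : ℕ} (p : k[X]) (g : Fin m → Fin M → k) (j : ℕ) (hj : m ≤ j) :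
    (mk6 p g).coeff j = 0 := by
  unfold mk6
  rw [finsetSum_coeff]
  apply Finset.sum_eq_zero
  intro i _
  rw [coeff_C_mul, coeff_X_pow, if_neg, mul_zero]
  have := i.2
  omega

private lemma mk6_eval {m M : ℕ} (p : k[X]) (g : Fin m → Fin M → k) (c : k) :
    (mk6 p g).eval (C c) = ev6 p g c := by
  unfold mk6 ev6
  rw [eval_finsetSum]
  refine Finset.sum_congr rfl fun i _ => ?_
  rw [eval_mul, eval_C, eval_pow, eval_X, Algebra.algebraMap_self, RingHom.id_apply, C_pow]

private lemma mk6_map0 {m M : ℕ} {p : k[X]} (hp : ∀ j, m ≤ j → p.coeff j = 0)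
    (g : Fin m → Fin M → k) : (mk6 p g).map (evalRingHom 0) = p := by
  conv_rhs => rw [rep6 hp]
  unfold mk6
  rw [Polynomial.map_sum]
  refine Finset.sum_congr rfl fun i _ => ?_
  rw [Polynomial.map_mul, Polynomial.map_C, Polynomial.map_pow, Polynomial.map_X]
  congr 2
  exact cf6_eval _ _ _

private lemma mk6_inj {m M : ℕ} {p : k[X]} {g : Fin m → Fin M → k} (h : mk6 p g = p.map C)
    (i : Fin m) (j : Fin M) : g i j = 0 := by
  have h1 := congrArg (fun P => coeff P (i : ℕ)) h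
  simp only [mk6_coeff, coeff_map] at h1
  unfold cf6 at h1
  rw [Algebra.algebraMap_self, RingHom.id_apply] at h1
  exact pl6_zero _ (add_eq_left.mp h1) j

private lemma mk6_ev {m M : ℕ} (p : k[X]) (g : Fin m → Fin M → k) {K : Type u} [Field K]
    [Algebra k K] (s : K) (c : k) :
    ((mk6 p g).map (aeval s : k[X] →ₐ[k] K).toRingHom).eval (algebraMap k K c) =
      aeval s (ev6 p g c) := by
  have h1 : algebraMap k K c = (aeval s : k[X] →ₐ[k] K).toRingHom (C c) := by
    change _ = aeval s (C c)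
    rw [aeval_C]
  rw [h1, Polynomial.eval_map_apply, mk6_eval]
  rfl

/-- the unknowns -/
private abbrev Ix6 (m n N : ℕ) : Type :=
  Fin m ⊕ (((Fin ((n + 1) / 2) ⊕ (Fin ((n + 1) / 2) ⊕ (Fin (n / 2 + 1) ⊕ Fin (n / 2)))) ×
    Fin (6 * N)) ⊕ (Fin (2 * N) ⊕ Fin (3 * N)))

private lemma card6 (m n N : ℕ) :
    Nat.card (Ix6 m n N) = m + (2 * n + 1) * (6 * N) + 5 * N := by
  rw [Nat.card_eq_fintype_card]
  simp only [Fintype.card_sum, Fintype.card_prod, Fintype.card_fin]
  have h1 : (n + 1) / 2 + ((n + 1) / 2 + (n / 2 + 1 + n / 2)) = 2 * n + 1 := by omega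
  rw [h1]
  ring

section fam

variable {μ n N : ℕ} {A : Type*}

private def gq6 (x : Ix6 μ n N → A) : Fin μ → A := fun i => x (Sum.inl i)
private def gU6 (x : Ix6 μ n N → A) : Fin ((n + 1) / 2) → Fin (6 * N) → A :=
  fun i m => x (Sum.inr (Sum.inl (Sum.inl i, m)))
private def gV6 (x : Ix6 μ n N → A) : Fin ((n + 1) / 2) → Fin (6 * N) → A :=
  fun i m => x (Sum.inr (Sum.inl (Sum.inr (Sum.inl i), m)))
private def gQ6 (x : Ix6 μ n N → A) : Fin (n / 2 + 1) → Fin (6 * N) → A :=
  fun i m => x (Sum.inr (Sum.inl (Sum.inr (Sum.inr (Sum.inl i)), m)))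
private def gR6 (x : Ix6 μ n N → A) : Fin (n / 2) → Fin (6 * N) → A :=
  fun i m => x (Sum.inr (Sum.inl (Sum.inr (Sum.inr (Sum.inr i)), m)))
private def gX6 (x : Ix6 μ n N → A) : Fin (2 * N) → A :=
  fun m => x (Sum.inr (Sum.inr (Sum.inl m)))
private def gO6 (x : Ix6 μ n N → A) : Fin (3 * N) → A :=
  fun m => x (Sum.inr (Sum.inr (Sum.inr m)))

end fam

end aux6

section eqs

variable {k : Type u} [Field k] [IsAlgClosed k] [CharZero k] {FB : Type u} [Field FB]
  [Algebra k FB] (D : Ell k FB) [D.Gen]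

/-- the section whose norm is the right hand side of `form` at `c` -/
private noncomputable def G6 (c : k) : FB :=
  D.be ^ 2 - algebraMap k FB (c / 4) * (D.be ^ 2 - D.al ^ 3)

private lemma G6_ne (c : k) : G6 D c ≠ 0 := sub_ne_zero.mpr (D.hj (c / 4))

private lemma G6_ord (c : k) (P : Place k FB) :
    0 ≤ ord P.ring (G6 D c) + (12 : ℕ) * D.E P := by
  obtain ⟨z, hz0, hz⟩ := FF.exists_ord_eq D.hL P (D.E P)
  have hal : z ^ 4 * D.al ∈ P.ring := by
    rw [← ord_nonneg_iff D.hL P (mul_ne_zero (pow_ne_zero _ hz0) D.hal),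
      ord_mul D.hL P (pow_ne_zero _ hz0) D.hal, FF.ord_pow D.hL P hz0, hz]
    have := D.h4 P D.hal
    push_cast
    omega
  have hbe : z ^ 6 * D.be ∈ P.ring := by
    rw [← ord_nonneg_iff D.hL P (mul_ne_zero (pow_ne_zero _ hz0) D.hbe),
      ord_mul D.hL P (pow_ne_zero _ hz0) D.hbe, FF.ord_pow D.hL P hz0, hz]
    have := D.h6 P D.hbe
    push_cast
    omega
  have hG : z ^ 12 * G6 D c ∈ P.ring := by
    have h1 : z ^ 12 * G6 D c = (z ^ 6 * D.be) ^ 2 - algebraMap k FB (c / 4) *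
        ((z ^ 6 * D.be) ^ 2 - (z ^ 4 * D.al) ^ 3) := by
      unfold G6
      ring
    rw [h1]
    exact sub_mem (pow_mem hbe 2) (mul_mem (P.algebraMap_mem _)
      (sub_mem (pow_mem hbe 2) (pow_mem hal 3)))
  rw [← ord_nonneg_iff D.hL P (mul_ne_zero (pow_ne_zero _ hz0) (G6_ne D c)),
    ord_mul D.hL P (pow_ne_zero _ hz0) (G6_ne D c), FF.ord_pow D.hL P hz0, hz] at hG
  push_cast at hG ⊢
  omega

/-- the value of `G6` at a nice place -/
private lemma G6_rs (c : k) {P : Place k FB} (hP : D.Nice P) :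
    rs P (G6 D c) = D.b₀ P ^ 2 - c / 4 * D.d₀ P := by
  have h1 := isRes_rs D.hL hP.1
  have h2 := isRes_rs D.hL hP.2.1
  exact rs_eq ((h2.pow 2).sub ((isRes_const (c / 4)).mul ((h2.pow 2).sub (h1.pow 3))))

/-- the discriminant of a nice fibre -/
private lemma d₀_ne6 {P : Place k FB} (hP : D.Nice P) : D.d₀ P ≠ 0 := by
  intro h0
  have h1 := isRes_rs D.hL hP.1
  have h2 := isRes_rs D.hL hP.2.1
  have h3 : IsRes P (D.be ^ 2 - D.al ^ 3) (D.d₀ P) := (h2.pow 2).sub (h1.pow 3)
  rw [h0, isRes_zero_iff, ← ord_pos_iff D.hL P D.hD, hP.2.2.1] at h3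
  exact lt_irrefl _ h3

/-- the value of `G6` at a point with coordinates in a field -/
private lemma G6_ev (c : k) {K : Type u} [Field K] [Algebra k K] {t : Bpt k FB K}
    (ht : t.p.Nc D) : t.l ^ 12 * t.p.ev (G6 D c) =
      D.b t ^ 2 - algebraMap k K (c / 4) * D.d t := by
  obtain ⟨p, l, hl⟩ := t
  rcases p with P | ι
  · have hP : D.Nice P := ht P rfl
    change l ^ 12 * algebraMap k K (rs P (G6 D c)) = (l ^ 6 * algebraMap k K (rs P D.be)) ^ 2 -
      algebraMap k K (c / 4) * ((l ^ 6 * algebraMap k K (rs P D.be)) ^ 2 -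
        (l ^ 4 * algebraMap k K (rs P D.al)) ^ 3)
    rw [G6_rs D c hP]
    unfold Ell.d₀ Ell.b₀ Ell.a₀
    rw [map_sub, map_mul, map_sub, map_pow, map_pow]
    ring
  · change l ^ 12 * ι (G6 D c) = (l ^ 6 * ι D.be) ^ 2 -
      algebraMap k K (c / 4) * ((l ^ 6 * ι D.be) ^ 2 - (l ^ 4 * ι D.al) ^ 3)
    unfold G6
    rw [map_sub, map_mul, map_sub, map_pow, map_pow, AlgHom.commutes]
    ring

section norm6

variable {n μ : ℕ} {G : FB} (hG : G ≠ 0) (m : ℕ) (T : Fin n → Place k FB) (q : Fin μ → FB)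

/-- the norm for the pencil with coefficients `y` -/
private noncomputable def nq6 {A : Type*} [CommRing A] [Algebra k A] (y : Fin μ → A) : A[X] :=
  nm D hG m T (fun P => ∑ j, y j * algebraMap k A (rs P (q j)))

private lemma nq_map6 {A B : Type*} [CommRing A] [Algebra k A] [CommRing B] [Algebra k B]
    (f : A →ₐ[k] B) (y : Fin μ → A) :
    (nq6 D hG m T q y).map f.toRingHom = nq6 D hG m T q (fun j => f (y j)) := by
  unfold nq6
  rw [nm_map]
  congr 1
  funext P
  rw [map_sum]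
  refine Finset.sum_congr rfl fun j _ => ?_
  rw [map_mul, AlgHom.commutes]

private lemma nq_degree6 {A : Type*} [CommRing A] [Algebra k A]
    (h : ∀ P : Place k FB, 0 ≤ ord P.ring G + m * D.E P) (y : Fin μ → A) :
    (nq6 D hG m T q y).natDegree ≤ m * D.N := nm_degree D hG m h _

private lemma nq_zero6 {A : Type*} [CommRing A] [Algebra k A] (y : Fin μ → A) :
    (nq6 D hG m T q y).eval 0 = algebraMap k A (∏ i, rs (T i) G) := nm_zero D hG m _

private lemma nq_const6 {A : Type*} [CommRing A] [Algebra k A] :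
    nq6 D hG m T q (fun _ => (0 : A)) = C (algebraMap k A (∏ i, rs (T i) G)) := by
  unfold nq6
  rw [← nm_const D hG m]
  congr 1
  funext P
  exact Finset.sum_eq_zero fun j _ => zero_mul _

private lemma nq_val6 (hq : ∀ x : Fin μ → k, InRR D T (∑ j, algebraMap k FB (x j) * q j))
    (hnc : ∀ i, D.Nice (T i)) (h : ∀ P : Place k FB, 0 ≤ ord P.ring G + m * D.E P)
    (hT : ∀ i, ord (T i).ring G = 0) (y : Fin μ → k) {K : Type u} [Field K] [Algebra k K] {s : K}
    {t : Fin n → Bpt k FB K} (hp : Pen D T (∑ j, algebraMap k FB (y j) * q j) s t) :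
    aeval s (nq6 D hG m T q y) = ∏ i, ((t i).l ^ m * (t i).p.ev G) := by
  classical
  rw [hp.prod G hG m h hT]
  congr 1
  unfold nq6 nm
  congr 1
  refine Finset.prod_congr rfl fun P _ => ?_
  by_cases hP : ∃ i, T i = P
  · obtain ⟨i, rfl⟩ := hP
    rw [hT i, D.nice (T i) (hnc i).1 (hnc i).2.1 (hnc i).2.2.1 (hnc i).2.2.2]
    simp
  · push Not at hP
    have h1 : rs P (∑ j, algebraMap k FB (y j) * q j) =
        ∑ j, y j * algebraMap k k (rs P (q j)) := by
      apply rs_eq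
      refine IsRes.sum _ fun j _ => ?_
      refine (isRes_const (y j)).mul (isRes_rs D.hL ?_)
      have h2 := hq (Pi.single j 1)
      have h3 : (∑ j', algebraMap k FB ((Pi.single j 1 : Fin μ → k) j') * q j') = q j := by
        rw [Finset.sum_eq_single j]
        · rw [Pi.single_eq_same, map_one, one_mul]
        · intro j' _ hj
          rw [Pi.single_eq_of_ne hj, map_zero, zero_mul]
        · intro hj
          exact absurd (Finset.mem_univ j) hj
      rw [h3] at h2
      exact h2.mem hP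
    beta_reduce
    rw [h1]

end norm6

variable {μ n : ℕ} (T : Fin n → Place k FB) (q : Fin μ → FB) (V₀ : V4 k) (ξ η : k)

private noncomputable def E1_6 {A : Type*} [CommRing A] [Algebra k A] (c : k)
    (x : Ix6 μ n D.N → A) : A[X] :=
  ev6 V₀.Q (gQ6 x) c ^ 2 - C (algebraMap k A c) * ev6 V₀.U (gU6 x) c * ev6 V₀.U' (gV6 x) c -
    C (algebraMap k A (c * (c - 4))) * ev6 V₀.R (gR6 x) c ^ 2 -
      nq6 D (G6_ne D c) 12 T q (gq6 x)

private noncomputable def E2_6 {A : Type*} [CommRing A] [Algebra k A]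
    (x : Ix6 μ n D.N → A) : A[X] :=
  ev6 V₀.Q (gQ6 x) 0 - nq6 D D.hbe 6 T q (gq6 x)

private noncomputable def E3_6 {A : Type*} [CommRing A] [Algebra k A]
    (x : Ix6 μ n D.N → A) : A[X] :=
  (C (algebraMap k A η) + pl6 (gO6 x)) ^ 2 - (C (algebraMap k A ξ) + pl6 (gX6 x)) ^ 3 +
    C (algebraMap k A 3) * (nq6 D D.hal 4 T q (gq6 x) * (C (algebraMap k A ξ) + pl6 (gX6 x))) +
    C (algebraMap k A 2) * ev6 V₀.Q (gQ6 x) 4

private lemma mapC6 {A B : Type*} [CommRing A] [Algebra k A] [CommRing B] [Algebra k B]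
    (f : A →ₐ[k] B) (c : k) :
    (C (algebraMap k A c) : A[X]).map f.toRingHom = C (algebraMap k B c) := by
  rw [Polynomial.map_C]
  congr 1
  exact f.commutes c

private lemma E1_map6 {A B : Type*} [CommRing A] [Algebra k A] [CommRing B] [Algebra k B]
    (f : A →ₐ[k] B) (c : k) (x : Ix6 μ n D.N → A) :
    (E1_6 D T q V₀ c x).map f.toRingHom = E1_6 D T q V₀ c (fun i => f (x i)) := by
  unfold E1_6
  rw [Polynomial.map_sub, Polynomial.map_sub, Polynomial.map_sub, Polynomial.map_pow,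
    Polynomial.map_mul, Polynomial.map_mul, Polynomial.map_mul, Polynomial.map_pow, mapC6, mapC6,
    ev6_map, ev6_map, ev6_map, ev6_map, nq_map6]
  rfl

private lemma E2_map6 {A B : Type*} [CommRing A] [Algebra k A] [CommRing B] [Algebra k B]
    (f : A →ₐ[k] B) (x : Ix6 μ n D.N → A) :
    (E2_6 D T q V₀ x).map f.toRingHom = E2_6 D T q V₀ (fun i => f (x i)) := by
  unfold E2_6
  rw [Polynomial.map_sub, ev6_map, nq_map6]
  rfl

private lemma E3_map6 {A B : Type*} [CommRing A] [Algebra k A] [CommRing B] [Algebra k B]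
    (f : A →ₐ[k] B) (x : Ix6 μ n D.N → A) :
    (E3_6 D T q V₀ ξ η x).map f.toRingHom = E3_6 D T q V₀ ξ η (fun i => f (x i)) := by
  unfold E3_6
  rw [Polynomial.map_add, Polynomial.map_add, Polynomial.map_sub, Polynomial.map_pow,
    Polynomial.map_pow, Polynomial.map_add, Polynomial.map_add, Polynomial.map_mul,
    Polynomial.map_mul, Polynomial.map_mul, Polynomial.map_add, mapC6, mapC6, mapC6, mapC6,
    pl6_map, pl6_map, ev6_map, nq_map6]
  rfl

private lemma E1_degree6 {A : Type*} [CommRing A] [Algebra k A] (c : k) (x : Ix6 μ n D.N → A) :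
    (E1_6 D T q V₀ c x).natDegree ≤ 12 * D.N := by
  have hU := ev6_degree V₀.U (gU6 x) c
  have hV := ev6_degree V₀.U' (gV6 x) c
  have hQ := ev6_degree V₀.Q (gQ6 x) c
  have hR := ev6_degree V₀.R (gR6 x) c
  unfold E1_6
  refine (natDegree_sub_le _ _).trans (max_le ?_
    (nq_degree6 D (G6_ne D c) 12 T q (G6_ord D c) _))
  refine (natDegree_sub_le _ _).trans (max_le ?_ ?_)
  · refine (natDegree_sub_le _ _).trans (max_le (natDegree_pow_le.trans (by omega)) ?_)
    rw [mul_assoc]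
    refine (natDegree_C_mul_le _ _).trans (natDegree_mul_le.trans (by omega))
  · exact (natDegree_C_mul_le _ _).trans (natDegree_pow_le.trans (by omega))

private lemma h4_6 (P : Place k FB) : 0 ≤ ord P.ring D.al + (4 : ℕ) * D.E P := by
  exact_mod_cast D.h4 P D.hal

private lemma h6_6 (P : Place k FB) : 0 ≤ ord P.ring D.be + (6 : ℕ) * D.E P := by
  exact_mod_cast D.h6 P D.hbe

private lemma E2_degree6 {A : Type*} [CommRing A] [Algebra k A] (x : Ix6 μ n D.N → A) :
    (E2_6 D T q V₀ x).natDegree ≤ 6 * D.N := by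
  unfold E2_6
  exact (natDegree_sub_le _ _).trans (max_le (ev6_degree _ _ _)
    (nq_degree6 D D.hbe 6 T q (h6_6 D) _))

private lemma E3_degree6 {A : Type*} [CommRing A] [Algebra k A] (x : Ix6 μ n D.N → A) :
    (E3_6 D T q V₀ ξ η x).natDegree ≤ 6 * D.N := by
  have hO : (C (algebraMap k A η) + pl6 (gO6 x)).natDegree ≤ 3 * D.N :=
    (natDegree_add_le _ _).trans (max_le (by rw [natDegree_C]; omega) (pl6_degree _))
  have hX : (C (algebraMap k A ξ) + pl6 (gX6 x)).natDegree ≤ 2 * D.N :=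
    (natDegree_add_le _ _).trans (max_le (by rw [natDegree_C]; omega) (pl6_degree _))
  unfold E3_6
  refine (natDegree_add_le _ _).trans (max_le ?_ ?_)
  · refine (natDegree_add_le _ _).trans (max_le ?_ ?_)
    · exact (natDegree_sub_le _ _).trans (max_le (natDegree_pow_le.trans (by omega))
        (natDegree_pow_le.trans (by omega)))
    · refine (natDegree_C_mul_le _ _).trans (natDegree_mul_le.trans ?_)
      have := nq_degree6 D D.hal 4 T q (h4_6 D) (gq6 x)
      omega
  · exact (natDegree_C_mul_le _ _).trans (ev6_degree _ _ _)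

private lemma E1_zero6 {A : Type*} [CommRing A] [Algebra k A] (hd : V₀.Deg n) (c : k) :
    E1_6 D T q V₀ c (fun _ => (0 : A)) = C (algebraMap k A (V₀.form.eval c -
      ∏ i, rs (T i) (G6 D c))) := by
  obtain ⟨h1, h2, h3, h4⟩ := hd
  unfold E1_6
  have eQ : ev6 V₀.Q (gQ6 (fun _ : Ix6 μ n D.N => (0 : A))) c = _ := ev6_zero h3 c
  have eU : ev6 V₀.U (gU6 (fun _ : Ix6 μ n D.N => (0 : A))) c = _ := ev6_zero h1 c
  have eV : ev6 V₀.U' (gV6 (fun _ : Ix6 μ n D.N => (0 : A))) c = _ := ev6_zero h2 c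
  have eR : ev6 V₀.R (gR6 (fun _ : Ix6 μ n D.N => (0 : A))) c = _ := ev6_zero h4 c
  have eN : nq6 D (G6_ne D c) 12 T q (gq6 (fun _ : Ix6 μ n D.N => (0 : A))) = _ :=
    nq_const6 D (G6_ne D c) 12 T q
  rw [eQ, eU, eV, eR, eN, ← C_pow, ← C_mul, ← C_mul, ← C_pow, ← C_mul, ← C_sub, ← C_sub, ← C_sub,
    ← map_pow, ← map_mul, ← map_mul, ← map_pow, ← map_mul, ← map_sub, ← map_sub, ← map_sub]
  congr 2
  have h5 : V₀.form.eval c = V₀.Q.eval c ^ 2 - c * V₀.U.eval c * V₀.U'.eval c -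
      c * (c - 4) * V₀.R.eval c ^ 2 := by
    simp only [V4.form, eval_sub, eval_mul, eval_pow, eval_X]
    rw [show (4 : k[X]) = C 4 from (map_ofNat C 4).symm, eval_C]
  rw [h5]

private lemma E1_eval6 {A : Type*} [CommRing A] [Algebra k A] (hd : V₀.Deg n) (c : k)
    (x : Ix6 μ n D.N → A) :
    (E1_6 D T q V₀ c x).eval 0 = algebraMap k A (V₀.form.eval c - ∏ i, rs (T i) (G6 D c)) := by
  obtain ⟨h1, h2, h3, h4⟩ := hd
  unfold E1_6
  rw [eval_sub, eval_sub, eval_sub, eval_pow, eval_mul, eval_mul, eval_mul, eval_pow, eval_C,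
    eval_C, ev6_eval h3, ev6_eval h1, ev6_eval h2, ev6_eval h4, nq_zero6,
    ← map_pow, ← map_mul, ← map_mul, ← map_pow, ← map_mul, ← map_sub, ← map_sub, ← map_sub]
  congr 1
  have h5 : V₀.form.eval c = V₀.Q.eval c ^ 2 - c * V₀.U.eval c * V₀.U'.eval c -
      c * (c - 4) * V₀.R.eval c ^ 2 := by
    simp only [V4.form, eval_sub, eval_mul, eval_pow, eval_X]
    rw [show (4 : k[X]) = C 4 from (map_ofNat C 4).symm, eval_C]
  rw [h5]

private lemma E2_zero6 {A : Type*} [CommRing A] [Algebra k A] (hd : V₀.Deg n) :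
    E2_6 D T q V₀ (fun _ => (0 : A)) = C (algebraMap k A (V₀.Q.eval 0 -
      ∏ i, rs (T i) D.be)) := by
  obtain ⟨h1, h2, h3, h4⟩ := hd
  unfold E2_6
  have eQ : ev6 V₀.Q (gQ6 (fun _ : Ix6 μ n D.N => (0 : A))) 0 = _ := ev6_zero h3 0
  have eN : nq6 D D.hbe 6 T q (gq6 (fun _ : Ix6 μ n D.N => (0 : A))) = _ :=
    nq_const6 D D.hbe 6 T q
  rw [eQ, eN, ← C_sub, ← map_sub]

private lemma E2_eval6 {A : Type*} [CommRing A] [Algebra k A] (hd : V₀.Deg n)
    (x : Ix6 μ n D.N → A) :
    (E2_6 D T q V₀ x).eval 0 = algebraMap k A (V₀.Q.eval 0 - ∏ i, rs (T i) D.be) := by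
  obtain ⟨h1, h2, h3, h4⟩ := hd
  unfold E2_6
  rw [eval_sub, ev6_eval h3, nq_zero6, ← map_sub]

private lemma E3_zero6 {A : Type*} [CommRing A] [Algebra k A] (hd : V₀.Deg n) :
    E3_6 D T q V₀ ξ η (fun _ => (0 : A)) = C (algebraMap k A (η ^ 2 - ξ ^ 3 +
      3 * ((∏ i, rs (T i) D.al) * ξ) + 2 * V₀.Q.eval 4)) := by
  obtain ⟨h1, h2, h3, h4⟩ := hd
  unfold E3_6
  have eQ : ev6 V₀.Q (gQ6 (fun _ : Ix6 μ n D.N => (0 : A))) 4 = _ := ev6_zero h3 4
  have eN : nq6 D D.hal 4 T q (gq6 (fun _ : Ix6 μ n D.N => (0 : A))) = _ :=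
    nq_const6 D D.hal 4 T q
  have eO : pl6 (gO6 (fun _ : Ix6 μ n D.N => (0 : A))) = 0 := pl6_of_zero
  have eX : pl6 (gX6 (fun _ : Ix6 μ n D.N => (0 : A))) = 0 := pl6_of_zero
  rw [eQ, eN, eO, eX, add_zero, add_zero, ← C_pow, ← C_pow, ← C_mul, ← C_mul, ← C_mul, ← C_sub,
    ← C_add, ← C_add, ← map_pow, ← map_pow, ← map_mul, ← map_mul, ← map_mul, ← map_sub, ← map_add,
    ← map_add]

private lemma E3_eval6 {A : Type*} [CommRing A] [Algebra k A] (hd : V₀.Deg n)
    (x : Ix6 μ n D.N → A) :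
    (E3_6 D T q V₀ ξ η x).eval 0 = algebraMap k A (η ^ 2 - ξ ^ 3 +
      3 * ((∏ i, rs (T i) D.al) * ξ) + 2 * V₀.Q.eval 4) := by
  obtain ⟨h1, h2, h3, h4⟩ := hd
  unfold E3_6
  rw [eval_add, eval_add, eval_sub, eval_pow, eval_pow, eval_add, eval_add, eval_mul, eval_mul,
    eval_mul, eval_add, eval_C, eval_C, eval_C, eval_C, pl6_eval, pl6_eval, ev6_eval h3,
    nq_zero6, add_zero, add_zero, ← map_pow, ← map_pow, ← map_mul, ← map_mul, ← map_mul,
    ← map_sub, ← map_add, ← map_add]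

private lemma polyzero6 {p : k[X]} {d : ℕ} (hd : p.natDegree ≤ d) (h0 : p.eval 0 = 0)
    (h : ∀ m : Fin d, p.coeff ((m : ℕ) + 1) = 0) : p = 0 := by
  ext j
  rw [coeff_zero]
  rcases Nat.eq_zero_or_pos j with hj | hj
  · subst hj
    rw [coeff_zero_eq_eval_zero, h0]
  · rcases Nat.lt_or_ge d j with hj' | hj'
    · exact coeff_eq_zero_of_natDegree_lt (lt_of_le_of_lt hd hj')
    · have := h ⟨j - 1, by omega⟩
      simp only at this
      rwa [Nat.sub_add_cancel hj] at this

/-- the choice of the values `ϖ` -/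
private lemma exists_pi6 (hnc : ∀ i, D.Nice (T i)) : ∃ ϖ : Fin n → k, Injective ϖ ∧
    (∀ j, ϖ j ≠ 0) ∧ ∀ i j, rs (T i) (G6 D (ϖ j)) ≠ 0 := by
  classical
  obtain ⟨S, hS⟩ : ∃ S : Finset k, S = insert 0 (Finset.univ.image fun i =>
    4 * D.b₀ (T i) ^ 2 / D.d₀ (T i)) := ⟨_, rfl⟩
  have hinf : Infinite ((S : Set k)ᶜ : Set k) := (S.finite_toSet.infinite_compl).to_subtype
  let e : ℕ ↪ ((S : Set k)ᶜ : Set k) := Infinite.natEmbedding _
  refine ⟨fun j => (e j : k), ?_, ?_, ?_⟩
  · intro i j hij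
    have h1 := e.injective (Subtype.ext hij)
    exact Fin.ext h1
  · intro j h0
    have h1 : ((e j : k)) ∉ (S : Set k) := (e j).2
    apply h1
    change (e j : k) = 0 at h0
    rw [h0, hS]
    simp
  · intro i j h0
    have h1 : ((e j : k)) ∉ (S : Set k) := (e j).2
    apply h1
    rw [G6_rs D _ (hnc i)] at h0
    have h2 : (e j : k) = 4 * D.b₀ (T i) ^ 2 / D.d₀ (T i) := by
      rw [eq_div_iff (d₀_ne6 D (hnc i))]
      linear_combination (-4) * h0
    rw [h2, hS]
    simp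

end eqs

section contact

variable {k : Type u} [Field k] [IsAlgClosed k] [CharZero k] {FB : Type u} [Field FB]
  [Algebra k FB] (D : Ell k FB) [D.Gen] {n : ℕ} {T : Fin n → Place k FB}

/-- Contact data exist if `n ≥ N + g`. -/
theorem exists_con {g : ℕ} (hg : IsGenus k FB g) (hn : D.N + g ≤ n) (hinj : Injective T)
    (hnc : ∀ i, D.Nice (T i)) (ha : ∀ i, D.a₀ (T i) ≠ 0) (hb : ∀ i, D.b₀ (T i) ≠ 0) {V₀ : V4 k}
    {ξ η : k} (hV : V₀.form = ∏ i, (C (D.b₀ (T i) ^ 2) - C (D.d₀ (T i) / 4) * X))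
    (hQ : V₀.Q.eval 0 = ∏ i, D.b₀ (T i)) (hd : V₀.Deg n)
    (hη : η ^ 2 = ξ ^ 3 - 3 * (∏ i, D.a₀ (T i)) * ξ - 2 * V₀.Q.eval 4) :
    Nonempty (Con D T V₀ ξ η) := by
  classical
  obtain ⟨d1, d2, d3, d4⟩ := hd
  have hd : V₀.Deg n := ⟨d1, d2, d3, d4⟩
  have h1N := D.hN
  obtain ⟨q, hli, hq⟩ := exists_rr (D := D) (T := T) hg hinj
  -- the constant terms
  have v1 : ∀ c : k, V₀.form.eval c - ∏ i, rs (T i) (G6 D c) = 0 := by
    intro c
    rw [hV, eval_prod, sub_eq_zero]
    refine Finset.prod_congr rfl fun i _ => ?_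
    rw [G6_rs D c (hnc i)]
    simp only [eval_sub, eval_C, eval_mul, eval_X]
    ring
  have v2 : V₀.Q.eval 0 - ∏ i, rs (T i) D.be = 0 := by
    rw [hQ]
    exact sub_self _
  have v3 : η ^ 2 - ξ ^ 3 + 3 * ((∏ i, rs (T i) D.al) * ξ) + 2 * V₀.Q.eval 4 = 0 := by
    rw [hη]
    change ξ ^ 3 - 3 * (∏ i, rs (T i) D.al) * ξ - 2 * V₀.Q.eval 4 - ξ ^ 3 +
      3 * ((∏ i, rs (T i) D.al) * ξ) + 2 * V₀.Q.eval 4 = 0
    ring
  -- the equations
  obtain ⟨ϖ, hϖi, hϖ0, hϖG⟩ := exists_pi6 D T hnc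
  let J : Type := (Fin n × Fin (12 * D.N)) ⊕ (Fin (6 * D.N) ⊕ Fin (6 * D.N - 1))
  let R := MvPolynomial (Ix6 (n - g) n D.N) k
  let X0 : Ix6 (n - g) n D.N → R := MvPolynomial.X
  let F : J → R := Sum.elim (fun p => (E1_6 D T q V₀ (ϖ p.1) X0).coeff ((p.2 : ℕ) + 1))
    (Sum.elim (fun m => (E2_6 D T q V₀ X0).coeff ((m : ℕ) + 1))
      (fun m => (E3_6 D T q V₀ ξ η X0).coeff ((m : ℕ) + 1)))
  have hX0 : ∀ x : Ix6 (n - g) n D.N → k, (fun i => (MvPolynomial.aeval x : R →ₐ[k] k) (X0 i)) = x := by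
    intro x
    funext i
    exact MvPolynomial.aeval_X x i
  have hev : ∀ (x : Ix6 (n - g) n D.N → k) (r : R), MvPolynomial.eval x r =
      (MvPolynomial.aeval x : R →ₐ[k] k) r := by
    intro x r
    exact (congrArg (fun g : R →+* k => g r) (MvPolynomial.coe_aeval_eq_eval x)).symm
  have s1 : ∀ (x : Ix6 (n - g) n D.N → k) (c : k) (j : ℕ),
      MvPolynomial.eval x ((E1_6 D T q V₀ c X0).coeff j) = (E1_6 D T q V₀ c x).coeff j := by
    intro x c j
    have h := E1_map6 D T q V₀ (MvPolynomial.aeval x : R →ₐ[k] k) c X0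
    rw [hX0] at h
    rw [hev, ← h, coeff_map]
    rfl
  have s2 : ∀ (x : Ix6 (n - g) n D.N → k) (j : ℕ),
      MvPolynomial.eval x ((E2_6 D T q V₀ X0).coeff j) = (E2_6 D T q V₀ x).coeff j := by
    intro x j
    have h := E2_map6 D T q V₀ (MvPolynomial.aeval x : R →ₐ[k] k) X0
    rw [hX0] at h
    rw [hev, ← h, coeff_map]
    rfl
  have s3 : ∀ (x : Ix6 (n - g) n D.N → k) (j : ℕ),
      MvPolynomial.eval x ((E3_6 D T q V₀ ξ η X0).coeff j) = (E3_6 D T q V₀ ξ η x).coeff j := by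
    intro x j
    have h := E3_map6 D T q V₀ ξ η (MvPolynomial.aeval x : R →ₐ[k] k) X0
    rw [hX0] at h
    rw [hev, ← h, coeff_map]
    rfl
  let eJ : Fin (Fintype.card J) ≃ J := (Fintype.equivFin J).symm
  have hcard : Fintype.card J < Nat.card (Ix6 (n - g) n D.N) := by
    rw [card6]
    simp only [J, Fintype.card_sum, Fintype.card_prod, Fintype.card_fin]
    have h2 : n * (12 * D.N) = (2 * n) * (6 * D.N) := by ring
    have h3 : (2 * n + 1) * (6 * D.N) = (2 * n) * (6 * D.N) + 6 * D.N := by ring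
    rw [h2, h3]
    omega
  obtain ⟨x, hx0, hx⟩ := Helper71.SE.exists_common_zero (fun j => F (eJ j)) (by
    intro j
    have key : ∀ j : J, MvPolynomial.eval 0 (F j) = 0 := by
      intro j
      rcases j with ⟨p, m⟩ | m | m
      · change MvPolynomial.eval 0 ((E1_6 D T q V₀ (ϖ p) X0).coeff ((m : ℕ) + 1)) = 0
        rw [s1]
        have := E1_zero6 (A := k) D T q V₀ hd (ϖ p)
        rw [show (0 : Ix6 (n - g) n D.N → k) = fun _ => (0 : k) from rfl, this, coeff_C,
          if_neg (Nat.succ_ne_zero _)]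
      · change MvPolynomial.eval 0 ((E2_6 D T q V₀ X0).coeff ((m : ℕ) + 1)) = 0
        rw [s2]
        have := E2_zero6 (A := k) D T q V₀ hd
        rw [show (0 : Ix6 (n - g) n D.N → k) = fun _ => (0 : k) from rfl, this, coeff_C,
          if_neg (Nat.succ_ne_zero _)]
      · change MvPolynomial.eval 0 ((E3_6 D T q V₀ ξ η X0).coeff ((m : ℕ) + 1)) = 0
        rw [s3]
        have := E3_zero6 (A := k) D T q V₀ ξ η hd
        rw [show (0 : Ix6 (n - g) n D.N → k) = fun _ => (0 : k) from rfl, this, coeff_C,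
          if_neg (Nat.succ_ne_zero _)]
    exact key (eJ j)) hcard
  have hF : ∀ j : J, MvPolynomial.eval x (F j) = 0 := by
    intro j
    have := hx (eJ.symm j)
    simpa using this
  have z1 : ∀ j : Fin n, E1_6 D T q V₀ (ϖ j) x = 0 := by
    intro j
    refine polyzero6 (E1_degree6 D T q V₀ (ϖ j) x) ?_ ?_
    · rw [E1_eval6 D T q V₀ hd, v1, map_zero]
    · intro m
      have := hF (Sum.inl (j, m))
      change MvPolynomial.eval x ((E1_6 D T q V₀ (ϖ j) X0).coeff ((m : ℕ) + 1)) = 0 at this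
      rwa [s1] at this
  have z2 : E2_6 D T q V₀ x = 0 := by
    refine polyzero6 (E2_degree6 D T q V₀ x) ?_ ?_
    · rw [E2_eval6 D T q V₀ hd, v2, map_zero]
    · intro m
      have := hF (Sum.inr (Sum.inl m))
      change MvPolynomial.eval x ((E2_6 D T q V₀ X0).coeff ((m : ℕ) + 1)) = 0 at this
      rwa [s2] at this
  obtain ⟨c, hc⟩ : ∃ c : k, E3_6 D T q V₀ ξ η x = C c * X ^ (6 * D.N) := by
    refine ⟨(E3_6 D T q V₀ ξ η x).coeff (6 * D.N), ?_⟩
    ext j
    rw [coeff_C_mul_X_pow]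
    split_ifs with hj
    · rw [hj]
    rcases Nat.lt_or_ge (6 * D.N) j with hj' | hj'
    · exact coeff_eq_zero_of_natDegree_lt (lt_of_le_of_lt (E3_degree6 D T q V₀ ξ η x) hj')
    rcases Nat.eq_zero_or_pos j with hj0 | hj0
    · subst hj0
      rw [coeff_zero_eq_eval_zero, E3_eval6 D T q V₀ ξ η hd, v3, map_zero]
    · have := hF (Sum.inr (Sum.inr ⟨j - 1, by omega⟩))
      change MvPolynomial.eval x ((E3_6 D T q V₀ ξ η X0).coeff (j - 1 + 1)) = 0 at this
      rw [s3, Nat.sub_add_cancel hj0] at this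
      exact this
  -- the values over a field
  have hQ0 : ∀ (K : Type u) [Field K] [Algebra k K] (s : K) (t : Fin n → Bpt k FB K),
      Pen D T (∑ j, algebraMap k FB (gq6 x j) * q j) s t →
      ((mk6 V₀.Q (gQ6 x)).map (aeval s : k[X] →ₐ[k] K).toRingHom).eval 0 =
        ∏ i, D.b (t i) := by
    intro K _ _ s t hp
    have h2 := mk6_ev V₀.Q (gQ6 x) s (0 : k)
    rw [map_zero] at h2
    rw [h2]
    have h3 := sub_eq_zero.1 z2
    rw [h3]
    exact nq_val6 D D.hbe 6 T q hq hnc (h6_6 D) (fun i => ord_of_rs D.hL (hb i)) (gq6 x) hp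
  have hfour : ∀ (K : Type u) [Field K] [Algebra k K] (s : K),
      ((mk6 V₀.Q (gQ6 x)).map (aeval s : k[X] →ₐ[k] K).toRingHom).eval 4 =
        aeval s (ev6 V₀.Q (gQ6 x) 4) := by
    intro K _ _ s
    have h2 := mk6_ev V₀.Q (gQ6 x) s (4 : k)
    rwa [map_ofNat] at h2
  refine ⟨{
    q := ∑ j, algebraMap k FB (gq6 x j) * q j
    V := ⟨mk6 V₀.U (gU6 x), mk6 V₀.U' (gV6 x), mk6 V₀.Q (gQ6 x), mk6 V₀.R (gR6 x)⟩
    Xp := C ξ + pl6 (gX6 x)
    Op := C η + pl6 (gO6 x)
    c := c
    hq := ?_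
    hV := ?_
    hXp := ?_
    hOp := ?_
    dOp := ?_
    ne := ?_
    dg := ?_
    form := ?_
    Q0 := ?_
    eqn := ?_ }⟩
  · exact hq _
  · unfold V4.map
    simp only [mk6_map0 d1, mk6_map0 d2, mk6_map0 d3, mk6_map0 d4]
  · rw [eval_add, eval_C, pl6_eval, add_zero]
  · rw [eval_add, eval_C, pl6_eval, add_zero]
  · exact (natDegree_add_le _ _).trans (max_le (by rw [natDegree_C]; omega) (pl6_degree _))
  · by_contra hcon
    push Not at hcon
    obtain ⟨n1, n2, n3, n4⟩ := hcon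
    have n3' := pl6_zero _ (add_eq_left.mp n3)
    have n4' := pl6_zero _ (add_eq_left.mp n4)
    have nU : mk6 V₀.U (gU6 x) = V₀.U.map C := congrArg V4.U n2
    have nV : mk6 V₀.U' (gV6 x) = V₀.U'.map C := congrArg V4.U' n2
    have nQ : mk6 V₀.Q (gQ6 x) = V₀.Q.map C := congrArg V4.Q n2
    have nR : mk6 V₀.R (gR6 x) = V₀.R.map C := congrArg V4.R n2
    apply hx0
    funext i
    rcases i with i | ⟨i | i | i | i, m⟩ | i | i
    · refine Fintype.linearIndependent_iff.mp hli (gq6 x) ?_ i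
      rw [← n1]
      exact Finset.sum_congr rfl fun j _ => Algebra.smul_def _ _
    · exact mk6_inj nU i m
    · exact mk6_inj nV i m
    · exact mk6_inj nQ i m
    · exact mk6_inj nR i m
    · exact n3' i
    · exact n4' i
  · exact ⟨mk6_coeff' _ _, mk6_coeff' _ _, mk6_coeff' _ _, mk6_coeff' _ _⟩
  · intro K _ _ s t hp
    have hcz : CharZero K := charZero_of_injective_algebraMap (algebraMap k K).injective
    have hdg : V4.Deg n (V4.ev s (⟨mk6 V₀.U (gU6 x), mk6 V₀.U' (gV6 x), mk6 V₀.Q (gQ6 x),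
        mk6 V₀.R (gR6 x)⟩ : V4 k[X])) :=
      dg_map (aeval s : k[X] →ₐ[k] K).toRingHom
        ⟨mk6_coeff' _ _, mk6_coeff' _ _, mk6_coeff' _ _, mk6_coeff' _ _⟩
    set V := V4.ev s (⟨mk6 V₀.U (gU6 x), mk6 V₀.U' (gV6 x), mk6 V₀.Q (gQ6 x),
        mk6 V₀.R (gR6 x)⟩ : V4 k[X]) with hVdef
    obtain ⟨e1, e2, e3, e4⟩ := hdg
    have f3 : V.Q.natDegree ≤ n / 2 :=
      natDegree_le_iff_coeff_eq_zero.2 fun j hj => e3 j (by omega)
    have f1 : V.U.natDegree ≤ (n + 1) / 2 - 1 :=
      natDegree_le_iff_coeff_eq_zero.2 fun j hj => e1 j (by omega)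
    have f2 : V.U'.natDegree ≤ (n + 1) / 2 - 1 :=
      natDegree_le_iff_coeff_eq_zero.2 fun j hj => e2 j (by omega)
    have dl : V.form.natDegree ≤ n := by
      unfold V4.form
      refine (natDegree_sub_le _ _).trans (max_le ?_ ?_)
      · refine (natDegree_sub_le _ _).trans (max_le (natDegree_pow_le.trans (by omega)) ?_)
        refine natDegree_mul_le.trans ?_
        have f4 : (X * V.U).natDegree ≤ 1 + V.U.natDegree :=
          natDegree_mul_le.trans (Nat.add_le_add_right natDegree_X_le _)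
        omega
      · rcases Nat.eq_zero_or_pos (n / 2) with hz | hz
        · have f5 : V.R = 0 := by
            ext j
            rw [coeff_zero]
            exact e4 j (by omega)
          rw [f5, zero_pow (by norm_num), mul_zero, natDegree_zero]
          exact Nat.zero_le _
        · have f4 : V.R.natDegree ≤ n / 2 - 1 :=
            natDegree_le_iff_coeff_eq_zero.2 fun j hj => e4 j (by omega)
          have f6 : (X * (X - 4) : K[X]).natDegree ≤ 2 := by
            refine natDegree_mul_le.trans ?_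
            have f7 : (X - 4 : K[X]).natDegree ≤ 1 := by
              rw [show (4 : K[X]) = C 4 from (map_ofNat C 4).symm]
              exact natDegree_X_sub_C_le _
            have f8 : (X : K[X]).natDegree ≤ 1 := natDegree_X_le
            omega
          refine natDegree_mul_le.trans ?_
          have f9 : (V.R ^ 2).natDegree ≤ 2 * (n / 2 - 1) := natDegree_pow_le.trans (by omega)
          omega
    have dr : (∏ i, (C (D.b (t i) ^ 2) - C (D.d (t i) / 4) * X)).natDegree ≤ n := by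
      refine (natDegree_prod_le _ _).trans ?_
      have f4 : ∀ i ∈ (Finset.univ : Finset (Fin n)),
          (C (D.b (t i) ^ 2) - C (D.d (t i) / 4) * X).natDegree ≤ 1 := by
        intro i _
        refine (natDegree_sub_le _ _).trans (max_le (by rw [natDegree_C]; exact Nat.zero_le _) ?_)
        exact (natDegree_C_mul_le _ _).trans natDegree_X_le
      refine (Finset.sum_le_sum f4).trans ?_
      rw [Finset.sum_const, Finset.card_univ, Fintype.card_fin, smul_eq_mul, mul_one]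
    rw [← sub_eq_zero]
    apply eq_zero_of_natDegree_lt_card_of_eval_eq_zero' _
      (insert 0 (Finset.univ.image fun j => algebraMap k K (ϖ j)))
    · intro z hz
      rw [Finset.mem_insert, Finset.mem_image] at hz
      rcases hz with rfl | ⟨j, -, rfl⟩
      · rw [eval_sub, sub_eq_zero, eval_prod]
        have g1 : V.form.eval 0 = V.Q.eval 0 ^ 2 := by
          simp [V4.form]
        have g2 : V.Q.eval 0 = ∏ i, D.b (t i) := hQ0 K s t hp
        rw [g1, g2, ← Finset.prod_pow]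
        refine Finset.prod_congr rfl fun i _ => ?_
        simp
      · rw [eval_sub, sub_eq_zero, eval_prod]
        have g1 : V.form.eval (algebraMap k K (ϖ j)) =
            V.Q.eval (algebraMap k K (ϖ j)) ^ 2 - algebraMap k K (ϖ j) *
              V.U.eval (algebraMap k K (ϖ j)) * V.U'.eval (algebraMap k K (ϖ j)) -
            algebraMap k K (ϖ j) * (algebraMap k K (ϖ j) - 4) *
              V.R.eval (algebraMap k K (ϖ j)) ^ 2 := by
          simp only [V4.form, eval_sub, eval_mul, eval_pow, eval_X]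
          rw [show (4 : K[X]) = C 4 from (map_ofNat C 4).symm, eval_C]
        have g2 : V.Q.eval (algebraMap k K (ϖ j)) = aeval s (ev6 V₀.Q (gQ6 x) (ϖ j)) :=
          mk6_ev _ _ _ _
        have g3 : V.U.eval (algebraMap k K (ϖ j)) = aeval s (ev6 V₀.U (gU6 x) (ϖ j)) :=
          mk6_ev _ _ _ _
        have g4 : V.U'.eval (algebraMap k K (ϖ j)) = aeval s (ev6 V₀.U' (gV6 x) (ϖ j)) :=
          mk6_ev _ _ _ _
        have g5 : V.R.eval (algebraMap k K (ϖ j)) = aeval s (ev6 V₀.R (gR6 x) (ϖ j)) :=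
          mk6_ev _ _ _ _
        have g6 : aeval s (nq6 D (G6_ne D (ϖ j)) 12 T q (gq6 x)) =
            ∏ i, ((t i).l ^ 12 * (t i).p.ev (G6 D (ϖ j))) :=
          nq_val6 D (G6_ne D (ϖ j)) 12 T q hq hnc (G6_ord D (ϖ j))
            (fun i => ord_of_rs D.hL (hϖG i j)) (gq6 x) hp
        have g7 : ∏ i, ((t i).l ^ 12 * (t i).p.ev (G6 D (ϖ j))) =
            ∏ i, (C (D.b (t i) ^ 2) - C (D.d (t i) / 4) * X).eval (algebraMap k K (ϖ j)) := by
          refine Finset.prod_congr rfl fun i _ => ?_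
          rw [G6_ev D (ϖ j) (hp.nc i)]
          simp only [map_div₀, map_ofNat, eval_sub, eval_C, eval_mul, eval_X]
          ring
        have g8 := congrArg (aeval s) (z1 j)
        unfold E1_6 at g8
        simp only [map_sub, map_mul, map_pow, aeval_C, Algebra.algebraMap_self,
          RingHom.id_apply, map_ofNat, map_zero] at g8
        rw [g6] at g8
        rw [g1, g2, g3, g4, g5, ← g7]
        linear_combination g8
    · rw [Finset.card_insert_of_notMem, Finset.card_image_of_injective, Finset.card_univ,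
        Fintype.card_fin]
      · exact Nat.lt_succ_of_le ((natDegree_sub_le _ _).trans (max_le dl dr))
      · exact (algebraMap k K).injective.comp hϖi
      · rw [Finset.mem_image]
        rintro ⟨j, -, hj⟩
        exact hϖ0 j ((map_eq_zero _).1 hj)
  · exact hQ0
  · intro K _ _ s t hp
    change aeval s (C η + pl6 (gO6 x)) ^ 2 = aeval s (C ξ + pl6 (gX6 x)) ^ 3 -
      3 * (∏ i, D.a (t i)) * aeval s (C ξ + pl6 (gX6 x)) -
      2 * ((mk6 V₀.Q (gQ6 x)).map (aeval s : k[X] →ₐ[k] K).toRingHom).eval 4 +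
      algebraMap k K c * s ^ (6 * D.N)
    rw [hfour]
    have h2 := congrArg (aeval s) hc
    unfold E3_6 at h2
    simp only [map_add, map_sub, map_mul, map_pow, aeval_C, aeval_X, Algebra.algebraMap_self,
      RingHom.id_apply, map_ofNat] at h2
    have h3 : aeval s (nq6 D D.hal 4 T q (gq6 x)) = ∏ i, D.a (t i) :=
      nq_val6 D D.hal 4 T q hq hnc (h4_6 D) (fun i => ord_of_rs D.hL (ha i)) (gq6 x) hp
    rw [h3] at h2
    simp only [map_add, aeval_C]
    linear_combination h2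

end contact

end Pool.Agent.Helper51.VB
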