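import Mathlib
import Pool.Agent.Helper51.VB.Fld
import Pool.Agent.Helper51.VB.Fld

/-!
# Block VN-F1B: the identities over the first function field

`F.V.z = aeval s (- C.V.U'.eval 4)`, its value at `s = 0` is `V₀.z ≠ 0`, so it does not vanish
(`aeval_ne_zero` and `C.hV`). `A ≠ 0` as in `F1ex` (`nm_val`, `nm_zero`). `V_form`, `V_Q`, `V_deg`
are `C.form`, `C.Q0`, `C.dg` and the lemmas on the torus in `Map.lean`; note
`D.d (t i) = D.b (t i) ^ 2 - κ i ^ 2`. For `tot`: `form_four` and `C.form` give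
`4 V.z V.z' = V.Q (4) ^ 2 - A ^ 3`; `C.eqn` and `F.hy` give `y ^ 2 = Xp ^ 3 - 3 A Xp - 2 Q (4)`, with
`Xp = m ^ 2 + A / m ^ 2` this is `m ^ 6 + A ^ 3 / m ^ 6 - 2 Q (4)`, so
`zT m * ((m ^ 6 - Q (4) - m ^ 3 y) / 2) = V.z V.z'`.
-/

set_option linter.unusedSectionVars false

namespace Pool.Agent.Helper51.VB

open VC VF Function Polynomial
open Pool.Agent.Helper83.VN
open Pool.Agent.Helper51.VN (Harm OnE OnX px py Fun FF dsc GF rho Gam)

universe u

variable {k : Type u} [Field k] [IsAlgClosed k] [CharZero k] {FB : Type u} [Field FB] [Algebra k FB]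
  {D : Ell k FB} [D.Gen] {n : ℕ}
  {T : Fin n → Place k FB} {V₀ : V4 k} {ξ η : k} {C : Con D T V₀ ξ η} {c : List (Ed (Fin n) k)} {μ : k}

section fl1

variable {K : Type u} [Field K] [Algebra k K] (F : Fl1 C K)

private lemma ev_eval74 (s : K) (P : (k[X])[X]) :
    (P.map (aeval s : k[X] →ₐ[k] K).toRingHom).eval 4 = aeval s (P.eval 4) := by
  have h4 : ((aeval s : k[X] →ₐ[k] K).toRingHom) (4 : k[X]) = 4 := map_ofNat _ 4
  have h := eval_map_apply (aeval s : k[X] →ₐ[k] K).toRingHom (4 : k[X]) (p := P)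
  rw [h4] at h
  exact h

private lemma zero_eval74 (P : (k[X])[X]) :
    (P.map (evalRingHom (0 : k))).eval 4 = (P.eval 4).eval 0 := by
  have h4 : (evalRingHom (0 : k)) (4 : k[X]) = 4 := map_ofNat _ 4
  have h := eval_map_apply (evalRingHom (0 : k)) (4 : k[X]) (p := P)
  rw [h4] at h
  exact h

private lemma tr_ne74 {s : K} (hs : Transcendental k s) {P : k[X]} (h : P.eval 0 ≠ 0) :
    aeval s P ≠ 0 := by
  intro h0
  have := (transcendental_iff.1 hs) P h0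
  rw [this, eval_zero] at h
  exact h rfl

theorem Fl1.z_ne (hz : V₀.z ≠ 0) (hz' : V₀.z' ≠ 0) : F.V.z ≠ 0 ∧ F.V.z' ≠ 0 := by
  constructor
  · have h1 : F.V.z = aeval F.s (-(C.V.U'.eval 4)) := by
      change -((C.V.U'.map (aeval F.s : k[X] →ₐ[k] K).toRingHom).eval 4) = _
      rw [ev_eval74 F.s, map_neg]
    rw [h1]
    refine tr_ne74 F.tr ?_
    have h2 : (-(C.V.U'.eval 4)).eval 0 = V₀.z := by
      rw [eval_neg, ← zero_eval74]
      exact congrArg (fun V : V4 k => -V.U'.eval 4) C.hV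
    rw [h2]
    exact hz
  · have h1 : F.V.z' = aeval F.s (-(C.V.U.eval 4)) := by
      change -((C.V.U.map (aeval F.s : k[X] →ₐ[k] K).toRingHom).eval 4) = _
      rw [ev_eval74 F.s, map_neg]
    rw [h1]
    refine tr_ne74 F.tr ?_
    have h2 : (-(C.V.U.eval 4)).eval 0 = V₀.z' := by
      rw [eval_neg, ← zero_eval74]
      exact congrArg (fun V : V4 k => -V.U.eval 4) C.hV
    rw [h2]
    exact hz'

theorem Fl1.A_ne (ha : ∀ i, D.a₀ (T i) ≠ 0) : F.A ≠ 0 ∧ F.ρ ^ 2 = F.A ∧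
    (∏ i, F.κ i) ^ 2 = F.A ^ 3 := by
  have hA : F.A ≠ 0 := by
    have h2 : F.A = aeval F.s (nm D D.hal 4 T (fun P => rs P C.q)) := F.pen.prod_a ha
    rw [h2]
    refine tr_ne74 F.tr ?_
    rw [nm_zero, Algebra.algebraMap_self, RingHom.id_apply]
    exact Finset.prod_ne_zero_iff.2 fun i _ => ha i
  have hκ : (∏ i, F.κ i) ^ 2 = F.A ^ 3 := by
    rw [← Finset.prod_pow]
    unfold Fl1.A
    rw [← Finset.prod_pow]
    exact Finset.prod_congr rfl fun i _ => F.hκ i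
  refine ⟨hA, ?_, hκ⟩
  unfold Fl1.ρ
  rw [div_pow, hκ, div_eq_iff (pow_ne_zero 2 hA)]
  ring

theorem Fl1.V_form (x : K) (hx : x ≠ 0) : (F.V.tor x).form =
    (F.lab.map fun p => Polynomial.C (p.2.1 ^ 2) -
      Polynomial.C ((p.2.1 ^ 2 - p.2.2 ^ 2) / 4) * X).prod := by
  rw [tor_form hx]
  have h := C.form K F.s F.t F.pen
  unfold Fl1.V
  rw [h]
  unfold Fl1.lab
  rw [List.map_ofFn, List.prod_ofFn]
  refine Finset.prod_congr rfl fun i _ => ?_
  simp only [Function.comp]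
  rw [F.hκ i]
  rfl

theorem Fl1.V_Q (x : K) : (F.V.tor x).Q.eval 0 = (F.lab.map fun p => p.2.1).prod := by
  rw [tor_Q]
  have h := C.Q0 K F.s F.t F.pen
  unfold Fl1.V
  rw [h]
  unfold Fl1.lab
  rw [List.map_ofFn, List.prod_ofFn]
  rfl

theorem Fl1.V_deg (x : K) : (F.V.tor x).Deg F.lab.length := by
  have h : F.lab.length = n := by
    unfold Fl1.lab
    rw [List.length_ofFn]
  rw [h]
  exact tor_deg (deg_iff.2 (dg_map _ C.dg)) x

theorem Fl1.y_sq : F.y ^ 2 = aeval F.s C.Xp ^ 3 - 3 * F.A * aeval F.s C.Xp -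
    2 * F.V.Q.eval 4 := by
  rw [F.hy, C.eqn K F.s F.t F.pen]
  unfold Fl1.A Fl1.V
  ring

/-- The total point, for `m = μ` or `m = ρ / μ`. -/
theorem Fl1.tot (ha : ∀ i, D.a₀ (T i) ≠ 0) (hz : V₀.z ≠ 0) (hz' : V₀.z' ≠ 0) {m : K}
    (hm : m = F.μ ∨ m = F.ρ / F.μ) : m ≠ 0 ∧ m ^ 2 + F.A / m ^ 2 = aeval F.s C.Xp ∧
      F.zT m ≠ 0 ∧ (F.Vt m).z = F.zT m ∧
      (F.Vt m).z' = (m ^ 6 - F.V.Q.eval 4 - m ^ 3 * F.y) / 2 ∧ (F.Vt m).N = m ^ 6 := by
  have hch : CharZero K := charZero_of_injective_algebraMap (algebraMap k K).injective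
  obtain ⟨hA, hρ, -⟩ := F.A_ne ha
  obtain ⟨hVz, hVz'⟩ := F.z_ne hz hz'
  have hρ0 : F.ρ ≠ 0 := by
    intro h
    rw [h] at hρ
    apply hA
    rw [← hρ]
    ring
  have hμ := F.hμ
  have hξ : F.μ ^ 2 + F.A / F.μ ^ 2 = aeval F.s C.Xp := F.hξ
  have hm0 : m ≠ 0 := by
    rcases hm with rfl | rfl
    · exact hμ
    · exact div_ne_zero hρ0 hμ
  have hmX : m ^ 2 + F.A / m ^ 2 = aeval F.s C.Xp := by
    rcases hm with rfl | rfl
    · exact hξ
    · rw [← hξ, div_pow, hρ]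
      field_simp
      ring
  have hy := F.y_sq
  set Q := F.V.Q.eval 4 with hQ
  have hform : F.V.form.eval 4 = F.A ^ 3 := by
    have h := C.form K F.s F.t F.pen
    have h' : F.V.form = ∏ i, (Polynomial.C (D.b (F.t i) ^ 2) -
        Polynomial.C (D.d (F.t i) / 4) * X) := h
    rw [h', eval_prod]
    unfold Fl1.A
    rw [← Finset.prod_pow]
    refine Finset.prod_congr rfl fun i _ => ?_
    rw [eval_sub, eval_C, eval_mul, eval_C, eval_X]
    unfold Ell.d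
    ring
  have h4 := form_four F.V
  rw [hform, ← hQ] at h4
  have hprod : F.zT m * ((m ^ 6 - Q - m ^ 3 * F.y) / 2) = F.V.z * F.V.z' := by
    unfold Fl1.zT
    rw [← hQ]
    have hy2 : m ^ 6 * F.y ^ 2 = m ^ 12 + F.A ^ 3 - 2 * Q * m ^ 6 := by
      rw [hy, ← hmX]
      field_simp
      ring
    linear_combination (-1 / 4 : K) * h4 - (1 / 4 : K) * hy2
  have hzT : F.zT m ≠ 0 := by
    intro h
    rw [h, zero_mul] at hprod
    exact mul_ne_zero hVz hVz' hprod.symm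
  have e1 : (F.Vt m).z = F.zT m := by
    unfold Fl1.Vt
    rw [tor_z, div_mul_cancel₀ _ hVz]
  have e2 : (F.Vt m).z' = (m ^ 6 - Q - m ^ 3 * F.y) / 2 := by
    unfold Fl1.Vt
    rw [tor_z', div_div_eq_mul_div, div_eq_iff hzT, mul_comm F.V.z', ← hprod]
    ring
  refine ⟨hm0, hmX, hzT, e1, e2, ?_⟩
  rw [N_eq, e1, e2]
  unfold Fl1.Vt
  rw [tor_Q, ← hQ]
  unfold Fl1.zT
  rw [← hQ]
  ring

end fl1

end Pool.Agent.Helper51.VB
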