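import Mathlib
import Pool.Agent.Helper51.VB.Fld
import Pool.Agent.Helper51.VB.F1b
import Pool.Agent.Helper51.VB.Fld

/-!
# Block VN-F1C: the chains over the function field, given a place over `s = 0`

`exists_chain` (Iface) for `F.Vt F.μ` and `F.Vt (F.ρ / F.μ)`: the hypotheses are `Fl1.V_form`,
`Fl1.V_Q`, `Fl1.V_deg`, and the residues: `F.V` has the value `V₀`, the parameter of the torus
`F.zT m / F.V.z` has the value `xm V₀ η ε m₀`, and `F.ρ` has the value `rho c₁ = (∏ κ₀ i) / ∏ a`.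
`FineC` from `fine_of_res`.
-/

set_option linter.unusedSectionVars false

namespace Pool.Agent.Helper51.VB

open VC VF Function Polynomial
open Pool.Agent.Helper83.VN
open Pool.Agent.Helper51.VN (Harm OnE OnX px py Fun FF dsc GF rho Gam)
open Pool.Agent.Helper51.EW (IsRes.prod' IsRes.div')

universe u

private lemma forall₂_ofFn62 {α β : Type*} {R : α → β → Prop} {n : ℕ} {f : Fin n → α}
    {g : Fin n → β} (h : ∀ i, R (f i) (g i)) : List.Forall₂ R (List.ofFn f) (List.ofFn g) := by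
  rw [List.forall₂_iff_get]
  refine ⟨by simp, fun i h1 h2 => ?_⟩
  simp only [List.get_ofFn]
  exact h _

private lemma fam_lab62 {ι F : Type*} [Field F] (c : List (Ed ι F)) (x : F) :
    (fam c x).map Ed.lab = c.map Ed.lab := by
  induction c generalizing x with
  | nil => rfl
  | cons e c ih => simp only [fam, List.map_cons, ih]; rfl

variable {k : Type u} [Field k] [IsAlgClosed k] [CharZero k] {FB : Type u} [Field FB] [Algebra k FB]
  {D : Ell k FB} [D.Gen] {n : ℕ}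
  {T : Fin n → Place k FB} {V₀ : V4 k} {ξ η : k} {C : Con D T V₀ ξ η} {c : List (Ed (Fin n) k)} {μ : k}

section res

variable {K : Type u} [Field K] [Algebra k K] {w : Place k K}

private lemma res_four62 : IsRes w (4 : K) (4 : k) := by
  have := isRes_const (v := w) (4 : k)
  rwa [map_ofNat] at this

private lemma res_two62 : IsRes w (2 : K) (2 : k) := by
  have := isRes_const (v := w) (2 : k)
  rwa [map_ofNat] at this

private lemma res_eval62 {p : K[X]} {q : k[X]} (h : ∀ m, IsRes w (p.coeff m) (q.coeff m)) :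
    IsRes w (p.eval 4) (q.eval 4) := by
  rw [eval_eq_sum_range' (n := max p.natDegree q.natDegree + 1)
      (lt_of_le_of_lt (le_max_left _ _) (Nat.lt_succ_self _)),
    eval_eq_sum_range' (n := max p.natDegree q.natDegree + 1)
      (lt_of_le_of_lt (le_max_right _ _) (Nat.lt_succ_self _))]
  exact IsRes.sum _ fun i _ => (h i).mul (res_four62.pow i)

private lemma res_aeval62 {x : K} {c : k} (h : IsRes w x c) (p : k[X]) :
    IsRes w (aeval x p) (aeval c p) := by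
  have := h.poly (p := p)
  rwa [← coe_aeval_eq_eval] at this

private lemma res_tor62 (hK : IsFunctionField k K) {V : V4 K} {V₁ : V4 k} (h : V4.Res w V V₁)
    {x : K} {x₁ : k} (hx : IsRes w x x₁) (h0 : x₁ ≠ 0) : V4.Res w (V.tor x) (V₁.tor x₁) := by
  obtain ⟨h1, h2, h3, h4⟩ := h
  refine ⟨fun m => ?_, fun m => ?_, h3, h4⟩
  · show IsRes w ((Polynomial.C x⁻¹ * V.U).coeff m) ((Polynomial.C x₁⁻¹ * V₁.U).coeff m)
    rw [coeff_C_mul, coeff_C_mul]
    exact (hx.inv hK h0).mul (h1 m)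
  · show IsRes w ((Polynomial.C x * V.U').coeff m) ((Polynomial.C x₁ * V₁.U').coeff m)
    rw [coeff_C_mul, coeff_C_mul]
    exact hx.mul (h2 m)

/-- The value of the parameter of the torus. -/
private lemma res_x62 (F : Fl1 C K) (hz : V₀.z ≠ 0) {ε : k} (hV : V4.Res w F.V V₀)
    (hy : IsRes w F.y (ε * η)) {M : K} {m : k} (hM : IsRes w M m) :
    IsRes w (F.zT M / F.V.z) (xm V₀ η ε m) := by
  obtain ⟨-, h2, h3, -⟩ := hV
  have hzz : IsRes w F.V.z V₀.z := by
    unfold V4.z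
    exact (res_eval62 h2).neg
  unfold Fl1.zT xm
  refine IsRes.div' F.hK (IsRes.div' F.hK ?_ res_two62 two_ne_zero) hzz hz
  exact ((hM.pow 6).sub (res_eval62 h3)).add ((hM.pow 3).mul hy)

end res

/-- One of the two chains. -/
private lemma one62 (H : Chn D T V₀ ξ η c μ) {K : Type u} [Field K] [Algebra k K] (F : Fl1 C K)
    (w : Place k K) {π : Equiv.Perm (Fin n)} {κ₀ : Fin n → k} {ε m : k} (hw : AtW F w π κ₀ ε m)
    {c₂ : List (Ed (Fin n) k)}
    (hl : c₂.map Ed.lab = List.ofFn (fun i => (π i, D.b₀ (T (π i)), κ₀ i))) (hf : FineC c₂)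
    {M : K} (hM : M = F.μ ∨ M = F.ρ / F.μ) {m' : k} (hMm : IsRes w M m')
    (hx : xm V₀ η ε m' ≠ 0) (hv : vec c₂ = V₀.tor (xm V₀ η ε m')) :
    ∃ d : List (Ed (Fin n) K), d.map Ed.lab = F.lab ∧ FineC d ∧ vec d = F.Vt M ∧
      List.Forall₂ (Ed.Res w) d c₂ := by
  obtain ⟨hz1, -⟩ := F.z_ne H.hz H.hz'
  obtain ⟨-, -, hz2, -⟩ := F.tot H.ha H.hz H.hz' hM
  have hx0 : F.zT M / F.V.z ≠ 0 := div_ne_zero hz2 hz1
  have hL : List.Forall₂ (fun (p : Fin n × K × K) (e : Ed (Fin n) k) =>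
      IsRes w p.2.1 e.b ∧ IsRes w p.2.2 e.κ) F.lab c₂ := by
    have h1 : List.Forall₂ (fun (p : Fin n × K × K) (q : Fin n × k × k) =>
        IsRes w p.2.1 q.2.1 ∧ IsRes w p.2.2 q.2.2) F.lab (c₂.map Ed.lab) := by
      rw [hl]
      unfold Fl1.lab
      refine forall₂_ofFn62 fun i => ⟨?_, ?_⟩
      · exact isRes_b D (hw.ht i) (H.nc _)
      · exact hw.hκ₀ i
    exact List.forall₂_map_right_iff.1 h1
  have hR : (F.Vt M).Res w (vec c₂) := by
    rw [hv]
    exact res_tor62 F.hK hw.hV (res_x62 F H.hz hw.hV hw.hy hMm) hx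
  obtain ⟨d, hd1, hd2, hd3⟩ := exists_chain F.hK w (F.Vt M) F.lab (F.V_form _ hx0) (F.V_Q _)
    (F.V_deg _) hL hf hR
  exact ⟨d, hd1, fine_of_res F.hK w hd3 hf, hd2, hd3⟩

theorem exists_dd (H : Chn D T V₀ ξ η c μ) {K : Type u} [Field K] [Algebra k K] (F : Fl1 C K)
    (w : Place k K) {π : Equiv.Perm (Fin n)} {κ₀ : Fin n → k} {ε m : k} (hw : AtW F w π κ₀ ε m)
    {c₁ : List (Ed (Fin n) k)} (h1 : AtK D T V₀ ξ η c π κ₀ ε m c₁) :
    ∃ d d' : List (Ed (Fin n) K), d.map Ed.lab = F.lab ∧ d'.map Ed.lab = F.lab ∧ FineC d ∧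
      FineC d' ∧ vec d = F.Vt F.μ ∧ vec d' = F.Vt (F.ρ / F.μ) ∧
      List.Forall₂ (Ed.Res w) d c₁ ∧ List.Forall₂ (Ed.Res w) d' (flc D T c₁ m) := by
  have hA0 : ∏ i, D.a₀ (T i) ≠ 0 := Finset.prod_ne_zero_iff.2 fun i _ => H.ha i
  have hkap : kap c₁ = ∏ i, κ₀ i := by
    have h2 : c₁.map (fun e => e.κ) = (c₁.map Ed.lab).map (fun p => p.2.2) := by
      rw [List.map_map]
      rfl
    unfold kap
    rw [h2, h1.hl, List.map_ofFn, List.prod_ofFn]
    rfl
  have hA : IsRes w F.A (∏ i, D.a₀ (T i)) := by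
    have h2 : ∏ i, D.a₀ (T i) = ∏ i, D.a₀ (T (π i)) := (Equiv.prod_comp π fun i => D.a₀ (T i)).symm
    rw [h2]
    unfold Fl1.A
    exact IsRes.prod' _ fun i _ => isRes_a D (hw.ht i) (H.nc _)
  have hρ : IsRes w (F.ρ / F.μ) (rho (fun i => D.a₀ (T i)) c₁ / m) := by
    refine IsRes.div' F.hK ?_ hw.hμm hw.hm
    unfold Fl1.ρ rho
    rw [hkap]
    exact IsRes.div' F.hK (IsRes.prod' _ fun i _ => hw.hκ₀ i) hA hA0
  obtain ⟨d, a1, a2, a3, a4⟩ := one62 H F w hw h1.hl h1.hf (Or.inl rfl) hw.hμm h1.hx h1.hv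
  have hl' : (flc D T c₁ m).map Ed.lab =
      List.ofFn (fun i => (π i, D.b₀ (T (π i)), κ₀ i)) := by
    unfold flc
    rw [fam_lab62]
    exact h1.hl
  obtain ⟨d', b1, b2, b3, b4⟩ := one62 H F w hw hl' h1.hf' (Or.inr rfl) hρ h1.hx' h1.hv'
  exact ⟨d, d', a1, b1, a2, b2, a3, b3, a4, b4⟩

end Pool.Agent.Helper51.VB
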