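import Mathlib
import Pool.Agent.Helper51.VB.Ctc
import Pool.Agent.Helper70.VP.Norm

/-!
# Block VB-CNJ: conjugates and points over a place

Let `K` be a Galois cover of the line with coordinate `q`, containing `FB`, all poles of `q` on `FB` simple, and `v`
a place of `K` over `q = ∞`. `VC.card_cover` for `t = q⁻¹` (see the proof of `VP.degree_zero`, `cnt1`, for the
passage from `q` to `q⁻¹`) says that the number of `φ` with `φ⁻¹ (v) = P` is `max (ord P q⁻¹) 0`, which is
`1` for `P ∈ S` (the poles are simple). So the map is injective and surjective.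
-/

set_option linter.unusedSectionVars false

namespace Pool.Agent.Helper51.VB

open VC VF Function Polynomial IntermediateField

universe u

variable {k : Type u} [Field k] [IsAlgClosed k] [CharZero k] {FB : Type u} [Field FB]
  [Algebra k FB]

private lemma transc_inv61 {F : Type u} [Field F] [Algebra k F] {f : F} (hf : Transcendental k f) :
    Transcendental k f⁻¹ := by
  intro h
  apply hf
  have := h.inv
  rwa [inv_inv] at this

private lemma adjoin_inv61 {F : Type u} [Field F] [Algebra k F] (f : F) : k⟮f⁻¹⟯ = k⟮f⟯ := by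
  apply le_antisymm
  · rw [IntermediateField.adjoin_simple_le_iff]
    exact inv_mem (IntermediateField.mem_adjoin_simple_self k _)
  · rw [IntermediateField.adjoin_simple_le_iff]
    have h := inv_mem (IntermediateField.mem_adjoin_simple_self k f⁻¹)
    rwa [inv_inv] at h

/-- The conjugates and the points over a place. -/
theorem card_conj (hF : IsFunctionField k FB) {K : Type u} [Field K] [Algebra k K]
    [Algebra FB K] [IsScalarTower k FB K] (hK : IsFunctionField k K) {q : FB}
    (hq : Transcendental k q) (Γ : Type u) [Group Γ] [Finite Γ] [MulSemiringAction Γ K]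
    (hΓ : IsGaloisGroup Γ k⟮algebraMap FB K q⟯ K) (hs : ∀ P : Place k FB, -1 ≤ ord P.ring q)
    {S : Finset (Place k FB)} (hS : ∀ P, P ∈ S ↔ q ∉ P.ring) (v : Place k K)
    (hv : algebraMap FB K q ∉ v.ring) :
    Bijective (fun φ : {φ : FB →ₐ[k] K // φ q = algebraMap FB K q} =>
      (⟨Place.comap hF hK φ.1 v, (hS _).2 (fun h => hv (by
        have h1 : φ.1 q ∈ v.ring := h
        rwa [φ.2] at h1))⟩ : {P // P ∈ S})) := by
  have hq0 : q ≠ 0 := by
    rintro rfl
    exact hq isAlgebraic_zero
  have hG' : IsGaloisGroup Γ k⟮algebraMap FB K q⁻¹⟯ K := by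
    rw [map_inv₀, adjoin_inv61]
    exact hΓ
  have hv' : algebraMap FB K q⁻¹ ∈ v.ring.nonunits := by
    rw [map_inv₀]
    exact (ValuationSubring.inv_mem_nonunits_iff _).mpr (Or.inr hv)
  have h1 : ∀ P : Place k FB, q ∉ P.ring → max (ord P.ring q⁻¹) 0 = 1 := by
    intro P hP
    have h2 : ¬ 0 ≤ ord P.ring q := fun h => hP ((ord_nonneg_iff hF P hq0).mp h)
    have h3 := hs P
    rw [ord_inv hF P hq0, max_eq_left (by omega)]
    omega
  have h2 : ∀ P : Place k FB, q ∉ P.ring →
      Nat.card {φ : FB →ₐ[k] K // φ q = algebraMap FB K q ∧ Place.comap hF hK φ v = P} = 1 := by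
    intro P hP
    have h3 := card_cover hF hK q⁻¹ (transc_inv61 hq) Γ hG' v hv' P
    rw [h1 P hP] at h3
    have h4 : Nat.card {φ : FB →ₐ[k] K // φ q⁻¹ = algebraMap FB K q⁻¹ ∧
        Place.comap hF hK φ v = P} = 1 := by exact_mod_cast h3
    rw [← h4]
    apply Nat.card_congr
    apply Equiv.subtypeEquivRight
    intro φ
    rw [map_inv₀, map_inv₀, inv_inj]
  constructor
  · intro φ ψ h
    have h3 : Place.comap hF hK φ.1 v = Place.comap hF hK ψ.1 v := congrArg Subtype.val h
    have h4 : q ∉ (Place.comap hF hK ψ.1 v).ring := (hS _).1 (by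
      exact (hS _).2 (fun h => hv (by
        have h1 : ψ.1 q ∈ v.ring := h
        rwa [ψ.2] at h1)))
    have h5 := h2 _ h4
    rw [Nat.card_eq_one_iff_unique] at h5
    obtain ⟨h6, -⟩ := h5
    have h7 := h6.elim ⟨φ.1, φ.2, h3⟩ ⟨ψ.1, ψ.2, rfl⟩
    rw [Subtype.mk.injEq] at h7
    exact Subtype.ext h7
  · rintro ⟨P, hP⟩
    have h5 := h2 P ((hS P).1 hP)
    rw [Nat.card_eq_one_iff_unique] at h5
    obtain ⟨-, ⟨φ, hφ, hφ'⟩⟩ := h5
    exact ⟨⟨φ, hφ⟩, Subtype.ext hφ'⟩

end Pool.Agent.Helper51.VB
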