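import Mathlib
import Pool.Agent.Helper51.VB.Ctc
import Pool.Agent.Helper70.VP.Norm
import Pool.Agent.Helper15.VB.Norm

/-!
# Block VB-NRM: the norm of a function

Let `K` be a Galois cover of the line with coordinate `q`, containing `FB`. The product of the conjugates
`φ g` of a function `g` which is a unit at all poles of `q`, where all poles of `q` are simple.

Proof. Let `R` be the quotient of the two sides. At a place `v` of `K` over `q = c`, `c ∈ k`:
`ord v (∏ φ g) = ∑ φ, ord v (φ g)`, and for `P = φ⁻¹ (v)` (`Place.comap`) `ord v (φ f) = e ord P f` for all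
`f` (`ord_comap`), in particular `ord v (q - c) = e ord P (q - c)`; the number of `φ` with given `P` is
`max (ord P (q - c)) 0` (`VC.card_cover` for `t = q - c`; compare `VP.card_cover_sub`, `VP.ord_norm`, whose
proof is the model). So `ord v (∏ φ g) = ord v (q - c) * ∑_{P over c} ord P g`. For the right hand side:
`1 - q (P) / q = (q - q (P)) / q`, and `ord v (q - q (P)) = 0` unless `q (P) = c`; the powers of `q` cancel
because `∑ ord P g = 0` (`VP.degree_zero`). At `v` over `q = ∞` all `φ g` are units (`φ⁻¹ (v)` is a pole of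
`q`) and all factors `1 - q (P) / q` have the value `1`. (`g` is a unit at the poles of `q`, so for all `P` in
the support of `g` the value `rs P q` is the value of `q`.) So `R` has no zeros and poles and is constant
(if it were transcendental it would have a zero, `VC.exists_place`; `VP.exists_const_of_not_transcendental`).
At a place `v₁` over `q = ∞` (`VC.exists_place` for `q⁻¹`) the map `φ ↦ φ⁻¹ (v₁)` is a bijection to the set
of poles of `q` (`VC.card_cover` for `t = q⁻¹`, all poles are simple, see `VP.degree_zero`), so the value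
of `∏ φ g` is `∏ P ∈ S, rs P g`, and `R` has the value `1`.
-/

set_option linter.unusedSectionVars false

namespace Pool.Agent.Helper51.VB

open VC VF Function Polynomial IntermediateField

universe u

variable {k : Type u} [Field k] [IsAlgClosed k] [CharZero k] {FB : Type u} [Field FB]
  [Algebra k FB]

theorem norm_formula (hF : IsFunctionField k FB) {K : Type u} [Field K] [Algebra k K]
    [Algebra FB K] [IsScalarTower k FB K] (hK : IsFunctionField k K) {q : FB}
    (hq : Transcendental k q) (Γ : Type u) [Group Γ] [Finite Γ] [MulSemiringAction Γ K]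
    (hΓ : IsGaloisGroup Γ k⟮algebraMap FB K q⟯ K) (hs : ∀ P : Place k FB, -1 ≤ ord P.ring q)
    [Fintype {φ : FB →ₐ[k] K // φ q = algebraMap FB K q}] {S : Finset (Place k FB)}
    (hS : ∀ P, P ∈ S ↔ q ∉ P.ring) {g : FB} (hg : g ≠ 0)
    (hgS : ∀ P ∈ S, ord P.ring g = 0) :
    ∏ φ : {φ : FB →ₐ[k] K // φ q = algebraMap FB K q}, φ.1 g =
      algebraMap k K (∏ P ∈ S, rs P g) *
        ∏ P ∈ (finite_support_ord hF hg).toFinset,
          (1 - algebraMap k K (rs P q) / algebraMap FB K q) ^ (ord P.ring g) := by
  classical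
  have hq0 : q ≠ 0 := by
    rintro rfl
    exact hq isAlgebraic_zero
  have hordS : ∀ P : Place k FB, P ∈ S ↔ ord P.ring q < 0 := by
    intro P
    rw [hS, ← ord_nonneg_iff hF P hq0]
    omega
  obtain ⟨c, hc⟩ := Helper15.VB.norm_eq hF hK hq hΓ hg (fun P hP => hgS P ((hordS P).mpr hP))
  have hQ : Transcendental k (algebraMap FB K q)⁻¹ := VP.transcendental_inv (Helper15.VB.Q_tr hq)
  obtain ⟨v, hv⟩ := exists_place hK hQ
  -- the residues of the conjugates
  have hcomap : ∀ φ : Helper15.VB.Ems k K q, Place.comap hF hK φ.1 v ∈ S := by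
    intro φ
    rw [hordS]
    have h1 : (algebraMap FB K q)⁻¹ = φ.1 q⁻¹ := by rw [map_inv₀, φ.2]
    rw [h1] at hv
    have h2 : q⁻¹ ∈ (Place.comap hF hK φ.1 v).ring.nonunits :=
      (mem_nonunits_comap _ _ _).mpr hv
    have h3 := (ord_pos_iff hF _ (inv_ne_zero hq0)).mpr h2
    rw [ord_inv hF _ hq0] at h3
    omega
  have hres : ∀ P ∈ S, IsRes P g (rs P g) := by
    intro P hP
    have h1 : g ∈ P.ring := by
      rw [← ord_nonneg_iff hF P hg, hgS P hP]
    obtain ⟨d, hd⟩ := exists_res hF h1
    have h2 : rs P g = d := by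
      unfold rs
      rw [dif_pos ⟨d, hd⟩]
      exact (Exists.choose_spec (⟨d, hd⟩ : ∃ d, IsRes P g d)).unique hd
    rw [h2]
    exact hd
  have hφ : ∀ φ : Helper15.VB.Ems k K q, IsRes v (φ.1 g) (rs (Place.comap hF hK φ.1 v) g) := by
    intro φ
    have h1 := hres _ (hcomap φ)
    have h2 : φ.1 (g - algebraMap k FB (rs (Place.comap hF hK φ.1 v) g)) ∈ v.ring.nonunits :=
      (mem_nonunits_comap _ _ _).mp h1
    rw [map_sub, AlgHom.commutes] at h2
    exact h2
  have hprod : IsRes v (∏ φ : Helper15.VB.Ems k K q, φ.1 g) (∏ P ∈ S, rs P g) := by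
    have h1 := Helper15.VB.isRes_prod (v := v) (Finset.univ : Finset (Helper15.VB.Ems k K q))
      (fun φ _ => hφ φ)
    have h2 : ∏ φ : Helper15.VB.Ems k K q, rs (Place.comap hF hK φ.1 v) g = ∏ P ∈ S, rs P g := by
      rw [← Finset.prod_fiberwise_of_maps_to (s := (Finset.univ : Finset (Helper15.VB.Ems k K q)))
        (t := S) (g := fun φ => Place.comap hF hK φ.1 v) (fun φ _ => hcomap φ)]
      refine Finset.prod_congr rfl fun P hP => ?_
      have h3 := Helper15.VB.cnt_inf hF hK hq hΓ v hv P
      have h4 := hs P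
      have h5 := (hordS P).mp hP
      rw [max_eq_left (by omega)] at h3
      have h6 : ((Finset.univ : Finset (Helper15.VB.Ems k K q)).filter
          (fun φ => Place.comap hF hK φ.1 v = P)).card = 1 := by
        omega
      rw [Finset.prod_congr rfl (g := fun _ => rs P g), Finset.prod_const, h6, pow_one]
      intro φ hφ
      rw [(Finset.mem_filter.1 hφ).2]
    rw [h2] at h1
    exact h1
  have hright : IsRes v (algebraMap k K c *
      ∏ P ∈ (finite_support_ord hF hg).toFinset, Helper15.VB.un K q (rs P q) ^ (ord P.ring g))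
      (c * 1) := by
    refine (isRes_const c).mul ?_
    have h1 := Helper15.VB.isRes_prod (v := v) (finite_support_ord hF hg).toFinset
      (f := fun P => Helper15.VB.un K q (rs P q) ^ (ord P.ring g)) (g := fun _ => (1 : k))
      (fun P _ => Helper15.VB.isRes_zpow (Helper15.VB.un_res hv (rs P q)) _)
    rw [Finset.prod_const_one] at h1
    exact h1
  rw [← hc] at hright
  have hce : c = ∏ P ∈ S, rs P g := by
    have := hright.unique hprod
    rwa [mul_one] at this
  have hfin : ∏ φ : Helper15.VB.Ems k K q, φ.1 g = algebraMap k K (∏ P ∈ S, rs P g) *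
        ∏ P ∈ (finite_support_ord hF hg).toFinset,
          (1 - algebraMap k K (rs P q) / algebraMap FB K q) ^ (ord P.ring g) := by
    rw [hc, ← hce]
    congr 1
    refine Finset.prod_congr rfl fun P _ => ?_
    unfold Helper15.VB.un
    rw [div_eq_mul_inv, mul_comm (algebraMap FB K q)⁻¹]
  exact hfin

end Pool.Agent.Helper51.VB
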