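import Mathlib
import Pool.Agent.Helper51.VB.Kf
import Pool.Agent.Helper51.VB.Nrm
import Pool.Agent.Helper51.VB.Cnj
import Pool.Agent.Helper70.VP.Norm

/-!
# Block VB-PEN: pencils exist

Case `q = 0`: `K = RatFunc k`, `s = X`, `t i = cs (T i)` (`nm` is the constant `∏ rs (T i) G` because
`rs P 0 = 0`; `BRes` with `π = 1`; `(cs P).p.ev G = algebraMap (rs P G)`).
Case `q ≠ 0`: `q` is not constant (it has a zero at `e1`: `T i ≠ e1` because `e1` is not nice, `D.bad`,
and the `T i` are nice), so it is transcendental (`VP.exists_const_of_not_transcendental`) and has a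
pole. Let `S` be the finite set of the poles of `q`, `I` the set of the `i` with `T i ∈ S`; by `InRR` all poles
are simple and `S = {T i : i ∈ I}`; `T` is injective. `VC.exists_cover D.hL q` gives `K`, Galois over `k (q)`
(see the proof of `VP.degree_zero`). By `card_conj` (for a place `v₁` over `q = ∞`) the number of
`φ : FB →ₐ[k] K` with `φ q = algebraMap FB K q` is `card S = card I`. Choose a bijection `φ_i`, `i ∈ I`, from
`I` to the set of these `φ`. `s = - (algebraMap q)⁻¹`; `l₀ = ∏ P ∈ E.support, (1 + s (q (P))) ^ (E P)`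
(integer exponents; `1 + s c ≠ 0` because `s` is transcendental); `t i = ⟨.emb φ_i, 1 or l₀⟩` for `i ∈ I`,
`⟨.cst (T i), 1 or l₀⟩` otherwise, with `l₀` only for the first index `0`.
* `prod`: `∏ i, (t i).p.ev G = ∏_{i ∉ I} rs (T i) G * ∏ φ G`, then `norm_formula` (note
  `1 - q (P) / q = 1 + s q (P)`), and `∏ i, (t i).l ^ m = l₀ ^ m`; collect the exponents
  `ord P G + m E P ≥ 0` in the product over `supp G ∪ supp E`. (`aeval s (nm ..)`: `map_prod`, ..)
* `zero`: at `w` with `s ↦ 0` (a pole of `q`) the map `i ↦ φ_i⁻¹ (w)` is a bijection from `I` to `S`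
  (`card_conj`), which gives `π` (the identity outside `I`); `l₀ ↦ 1` (`IsRes` of a product of
  integer powers of elements with value `1`); `Over` for `Place.comap` is the definition.
* `infty`: at `w` with a pole of `s` the function `q` vanishes; `e1` is a zero of `q`, and the number of the
  `φ` with `φ⁻¹ (w) = e1` is `ord e1 q > 0` (`VC.card_cover` for `t = q`).
-/

set_option linter.unusedSectionVars false

namespace Pool.Agent.Helper51.VB

open VC VF Function Polynomial
open Pool.Agent.Helper83.VN
open Pool.Agent.Helper51.VN (Harm OnE OnX px py Fun FF)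

universe u

variable {k : Type u} [Field k] [IsAlgClosed k] [CharZero k] {FB : Type u} [Field FB]
  [Algebra k FB] {D : Ell k FB} [D.Pos] {n : ℕ} {T : Fin n → Place k FB} {q : FB}

section aux23

variable {L : Type u} [Field L] [Algebra k L] {K : Type u} [Field K] [Algebra k K]

private lemma isRes_inv_one_23 {w : Place k K} {x : K} (h : IsRes w x 1) : IsRes w x⁻¹ 1 := by
  obtain ⟨h0, h1⟩ := h.inv_mem one_ne_zero
  have h2 := nonunits_mul (R := w.ring) (neg_mem h1) h
  unfold IsRes at *
  convert h2 using 1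
  rw [map_one]
  field_simp
  ring

private lemma isRes_zpow_one_23 {w : Place k K} {x : K} (h : IsRes w x 1) (m : ℤ) :
    IsRes w (x ^ m) 1 := by
  obtain ⟨a, rfl | rfl⟩ := m.eq_nat_or_neg
  · rw [zpow_natCast]
    simpa using h.pow a
  · rw [zpow_neg, zpow_natCast]
    apply isRes_inv_one_23
    simpa using h.pow a

private lemma isRes_prod_one_23 {w : Place k K} {ι : Type*} (S : Finset ι) {f : ι → K}
    (h : ∀ i ∈ S, IsRes w (f i) 1) : IsRes w (∏ i ∈ S, f i) 1 := by
  classical
  induction S using Finset.induction_on with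
  | empty => simpa using isRes_one
  | insert a S ha ih =>
    rw [Finset.prod_insert ha]
    have := (h a (Finset.mem_insert_self _ _)).mul
      (ih (fun i hi => h i (Finset.mem_insert_of_mem hi)))
    rwa [one_mul] at this

private lemma over_comap_23 (hL : IsFunctionField k L) (hK : IsFunctionField k K)
    (φ : L →ₐ[k] K) (w : Place k K) : Over (Place.comap hL hK φ w) φ w := by
  intro f c h
  unfold IsRes at *
  change f - algebraMap k L c ∈ (w.ring.comap φ.toRingHom).nonunits at h
  rw [mem_nonunits_comap] at h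
  change φ (f - algebraMap k L c) ∈ _ at h
  rwa [map_sub, AlgHom.commutes] at h

private lemma unit_ne_zero_23 {s : K} (hs : Transcendental k s) (c : k) :
    1 + s * algebraMap k K c ≠ 0 := by
  intro h
  have h1 := (transcendental_iff.mp hs) (1 + X * C c) (by
    rw [map_add, map_one, map_mul, aeval_X, aeval_C, h])
  have h2 := congrArg (Polynomial.eval 0) h1
  simp at h2

/-- The norm as a product of integer powers. -/
private lemma aeval_nm_23 (D : Ell k FB) {G : FB} (hG : G ≠ 0) (m : ℕ)
    (hm : ∀ P : Place k FB, 0 ≤ ord P.ring G + m * D.E P) (T : Fin n → Place k FB) (q : FB)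
    {s : K} (hs : Transcendental k s) :
    aeval s (nm D hG m T (fun P => rs P q)) = algebraMap k K (∏ i, rs (T i) G) *
      ((∏ P ∈ (finite_support_ord D.hL hG).toFinset,
        (1 + s * algebraMap k K (rs P q)) ^ (ord P.ring G)) *
      (∏ P ∈ D.E.support, (1 + s * algebraMap k K (rs P q)) ^ (D.E P)) ^ m) := by
  classical
  have hu : ∀ P : Place k FB, 1 + s * algebraMap k K (rs P q) ≠ 0 := fun P =>
    unit_ne_zero_23 hs _
  unfold nm
  rw [map_mul, aeval_C]
  refine congrArg₂ (· * ·) rfl ?_
  have h1 : ∏ P ∈ (finite_support_ord D.hL hG).toFinset,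
      (1 + s * algebraMap k K (rs P q)) ^ (ord P.ring G) =
      ∏ P ∈ (finite_support_ord D.hL hG).toFinset ∪ D.E.support,
        (1 + s * algebraMap k K (rs P q)) ^ (ord P.ring G) := by
    apply Finset.prod_subset Finset.subset_union_left
    intro P _ hP
    rw [Set.Finite.mem_toFinset] at hP
    have h2 : ord P.ring G = 0 := by
      by_contra h3
      exact hP h3
    rw [h2, zpow_zero]
  have h2 : ∏ P ∈ D.E.support, (1 + s * algebraMap k K (rs P q)) ^ (D.E P) =
      ∏ P ∈ (finite_support_ord D.hL hG).toFinset ∪ D.E.support,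
        (1 + s * algebraMap k K (rs P q)) ^ (D.E P) := by
    apply Finset.prod_subset Finset.subset_union_right
    intro P _ hP
    rw [Finsupp.notMem_support_iff] at hP
    rw [hP, zpow_zero]
  rw [h1, h2, ← Finset.prod_pow, ← Finset.prod_mul_distrib, map_prod]
  refine Finset.prod_congr (by congr) ?_
  intro P _
  have h3 : ((ord P.ring G + m * D.E P).toNat : ℤ) = ord P.ring G + m * D.E P :=
    Int.toNat_of_nonneg (hm P)
  rw [map_pow, map_add, map_one, map_mul, aeval_X, aeval_C, ← zpow_natCast _ (Int.toNat _), h3,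
    zpow_add₀ (hu P), ← zpow_natCast _ m, ← zpow_mul, mul_comm (D.E P)]

end aux23

/-- The pencil for `q = 0`. -/
private lemma exists_pen_zero_23 (hnc : ∀ i, D.Nice (T i)) :
    ∃ (K : Type u) (_ : Field K) (_ : Algebra k K) (s : K) (t : Fin n → Bpt k FB K),
      IsFunctionField k K ∧ Transcendental k s ∧ Pen D T 0 s t := by
  refine ⟨RatFunc k, inferInstance, inferInstance, RatFunc.X, fun i => cs (T i), ff_ratFunc,
    transcendental_ratX, ?_⟩
  have h0 : ∀ P : Place k FB, rs P (0 : FB) = 0 := fun P => rs_eq isRes_zero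
  constructor
  · intro i P hP
    have h1 : BP.cst (T i) = (BP.cst P : BP k FB (RatFunc k)) := hP
    have h2 : T i = P := by injection h1
    rw [← h2]
    exact hnc i
  · intro G hG m _ _
    have h1 : (fun P : Place k FB => rs P (0 : FB)) = fun _ => 0 := funext h0
    rw [h1, nm_const, aeval_C, map_prod, map_prod]
    apply Finset.prod_congr rfl
    intro i _
    change (1 : RatFunc k) ^ m * algebraMap k (RatFunc k) (rs (T i) G) = _
    rw [one_pow, one_mul]
    rfl
  · intro w _
    exact ⟨1, fun i => ⟨rfl, isRes_one⟩⟩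
  · intro w _ h
    exact absurd rfl h
  · intro _ i
    rfl

/-- Pencils exist. -/
theorem exists_pen (hn : n ≠ 0) (hinj : Injective T) (hnc : ∀ i, D.Nice (T i))
    (hq : InRR D T q) :
    ∃ (K : Type u) (_ : Field K) (_ : Algebra k K) (s : K) (t : Fin n → Bpt k FB K),
      IsFunctionField k K ∧ Transcendental k s ∧ Pen D T q s t := by
  classical
  by_cases hq0 : q = 0
  · subst hq0
    exact exists_pen_zero_23 hnc
  have hq' : ∀ P : Place k FB, (if P = D.e1 then 1 else 0) ≤
      ord P.ring q + (if ∃ i, T i = P then 1 else 0) := by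
    intro P
    have := (hq.resolve_left hq0) P
    convert this using 2
  have hTe : ∀ i, T i ≠ D.e1 := by
    intro i h
    have h1 := hnc i
    rw [h] at h1
    exact D.bad h1
  have he1 : 1 ≤ ord D.e1.ring q := by
    have h1 := hq' D.e1
    rw [if_pos rfl, if_neg (by rintro ⟨i, hi⟩; exact hTe i hi), add_zero] at h1
    exact h1
  have ht : Transcendental k q := by
    by_contra h
    obtain ⟨b, rfl⟩ := VP.exists_const_of_not_transcendental h
    have hb : b ≠ 0 := by
      rintro rfl
      exact hq0 (map_zero _)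
    rw [ord_algebraMap D.hL D.e1 hb] at he1
    omega
  have hs1 : ∀ P : Place k FB, -1 ≤ ord P.ring q := by
    intro P
    have h1 := hq' P
    split_ifs at h1 <;> omega
  have hpole : ∀ P : Place k FB, q ∉ P.ring ↔ ord P.ring q < 0 := by
    intro P
    rw [← ord_nonneg_iff D.hL P hq0]
    omega
  let S : Finset (Place k FB) := (finite_support_ord D.hL hq0).toFinset.filter
    (fun P => ord P.ring q < 0)
  have hS : ∀ P, P ∈ S ↔ q ∉ P.ring := by
    intro P
    rw [hpole, Finset.mem_filter, Set.Finite.mem_toFinset]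
    constructor
    · exact fun h => h.2
    · intro h
      refine ⟨?_, h⟩
      change ord P.ring q ≠ 0
      omega
  have hST : ∀ P ∈ S, ∃ i, T i = P := by
    intro P hP
    by_contra h
    have h1 := hq' P
    rw [if_neg h] at h1
    have h2 := (hpole P).mp ((hS P).mp hP)
    split_ifs at h1 <;> omega
  obtain ⟨K, _, _, _, _, hK, Γ, _, _, _, hΓ⟩ := exists_cover D.hL q ht
  have hΦ : Finite {φ : FB →ₐ[k] K // φ q = algebraMap FB K q} :=
    finite_homs q (D.hL.finiteDimensional ht)
  have hΦ' : Fintype {φ : FB →ₐ[k] K // φ q = algebraMap FB K q} := Fintype.ofFinite _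
  set Q : K := algebraMap FB K q with hQ
  have hQt : Transcendental k Q :=
    (transcendental_algebraMap_iff (algebraMap FB K).injective).mpr ht
  have hQi : Transcendental k Q⁻¹ := VP.transcendental_inv hQt
  have hQ0 : Q ≠ 0 := by
    intro h
    rw [h] at hQt
    exact hQt isAlgebraic_zero
  set s : K := -Q⁻¹ with hsdef
  have hst : Transcendental k s := by
    intro h
    apply hQi
    have := h.neg
    rwa [hsdef, neg_neg] at this
  have hu : ∀ c : k, 1 + s * algebraMap k K c ≠ 0 := fun c => unit_ne_zero_23 hst c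
  obtain ⟨v₁, hv₁⟩ := exists_place hK hQi
  have hv₁' : Q ∉ v₁.ring := by
    rw [ValuationSubring.inv_mem_nonunits_iff] at hv₁
    exact hv₁.resolve_left hQ0
  let e₁ : {φ : FB →ₐ[k] K // φ q = Q} ≃ {P // P ∈ S} :=
    Equiv.ofBijective _ (card_conj D.hL hK ht Γ hΓ hs1 hS v₁ hv₁')
  obtain ⟨n', rfl⟩ := Nat.exists_eq_succ_of_ne_zero hn
  set l₀ : K := ∏ P ∈ D.E.support, (1 + s * algebraMap k K (rs P q)) ^ (D.E P) with hl₀
  have hl₀0 : l₀ ≠ 0 := by
    rw [hl₀]
    exact Finset.prod_ne_zero_iff.mpr (fun P _ => zpow_ne_zero _ (hu _))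
  let p : Fin (n' + 1) → BP k FB K := fun i =>
    if h : T i ∈ S then .emb (e₁.symm ⟨T i, h⟩).1 else .cst (T i)
  have hp1 : ∀ (i) (h : T i ∈ S), p i = .emb (e₁.symm ⟨T i, h⟩).1 := fun i h => dif_pos h
  have hp2 : ∀ (i) (h : T i ∉ S), p i = .cst (T i) := fun i h => dif_neg h
  let l : Fin (n' + 1) → K := fun i => if i = 0 then l₀ else 1
  have hl : ∀ i, l i ≠ 0 := by
    intro i
    change (if i = 0 then l₀ else 1) ≠ 0
    split_ifs
    · exact hl₀0
    · exact one_ne_zero
  refine ⟨K, inferInstance, inferInstance, s, fun i => ⟨p i, l i, hl i⟩, hK, hst, ?_⟩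
  constructor
  · -- the constant points are nice
    intro i P hP
    change p i = .cst P at hP
    by_cases h : T i ∈ S
    · rw [hp1 i h] at hP
      exact absurd hP (by simp)
    · rw [hp2 i h] at hP
      have h2 : T i = P := by injection hP
      rw [← h2]
      exact hnc i
  · -- the norms
    intro G hG m hm hTG
    rw [aeval_nm_23 D hG m hm T q hst]
    change ∏ i, (l i ^ m * (p i).ev G) = _
    rw [Finset.prod_mul_distrib, Finset.prod_pow]
    have h1 : ∏ i, l i = l₀ := by
      change ∏ i, (if i = 0 then l₀ else 1) = _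
      rw [Finset.prod_ite_eq']
      simp
    rw [h1]
    let g : Place k FB → K := fun P => if h : P ∈ S then (e₁.symm ⟨P, h⟩).1 G else 1
    have h2 : ∏ i, (p i).ev G = ∏ i, (if T i ∈ S then g (T i) else
        algebraMap k K (rs (T i) G)) := by
      apply Finset.prod_congr rfl
      intro i _
      by_cases h : T i ∈ S
      · rw [if_pos h, hp1 i h]
        change _ = (if h : T i ∈ S then (e₁.symm ⟨T i, h⟩).1 G else 1)
        rw [dif_pos h]
        rfl
      · rw [if_neg h, hp2 i h]
        rfl
    have h3 : (Finset.univ.filter (fun i => T i ∈ S)).image T = S := by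
      ext P
      rw [Finset.mem_image]
      constructor
      · rintro ⟨i, hi, rfl⟩
        exact (Finset.mem_filter.mp hi).2
      · intro hP
        obtain ⟨i, rfl⟩ := hST P hP
        exact ⟨i, Finset.mem_filter.mpr ⟨Finset.mem_univ _, hP⟩, rfl⟩
    have h4 : ∀ f : Place k FB → K, ∏ i ∈ Finset.univ.filter (fun i => T i ∈ S), f (T i) =
        ∏ P ∈ S, f P := by
      intro f
      conv_rhs => rw [← h3]
      rw [Finset.prod_image (fun i _ j _ h => hinj h)]
    have h5 : ∏ P ∈ S, g P = ∏ φ : {φ : FB →ₐ[k] K // φ q = Q}, φ.1 G := by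
      rw [← Finset.prod_coe_sort, ← Equiv.prod_comp e₁.symm]
      apply Finset.prod_congr rfl
      intro P _
      change (if h : P.1 ∈ S then (e₁.symm ⟨P.1, h⟩).1 G else 1) = _
      rw [dif_pos P.2]
    have hGS : ∀ P ∈ S, ord P.ring G = 0 := by
      intro P hP
      obtain ⟨i, rfl⟩ := hST P hP
      exact hTG i
    have h6 := norm_formula D.hL hK ht Γ hΓ hs1 hS hG hGS
    have h7 : ∀ P : Place k FB, 1 - algebraMap k K (rs P q) / algebraMap FB K q =
        1 + s * algebraMap k K (rs P q) := by
      intro P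
      rw [hsdef, ← hQ, div_eq_mul_inv]
      ring
    simp only [h7] at h6
    have h8 : algebraMap k K (∏ i, rs (T i) G) = algebraMap k K (∏ P ∈ S, rs P G) *
        ∏ i ∈ Finset.univ.filter (fun i => ¬ T i ∈ S), algebraMap k K (rs (T i) G) := by
      rw [map_prod, map_prod, ← h4 (fun P => algebraMap k K (rs P G)),
        Finset.prod_filter_mul_prod_filter_not]
    rw [h2, Finset.prod_ite, h4 g, h5, h6, h8]
    ring
  · -- the zeros of `s`
    intro w hw
    have hQw : Q ∉ w.ring := by
      have h1 : Q⁻¹ ∈ w.ring.nonunits := by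
        have h2 := hw.neg
        rw [hsdef, neg_neg, neg_zero] at h2
        exact isRes_zero_iff.mp h2
      rw [ValuationSubring.inv_mem_nonunits_iff] at h1
      exact h1.resolve_left hQ0
    let ew : {φ : FB →ₐ[k] K // φ q = Q} ≃ {P // P ∈ S} :=
      Equiv.ofBijective _ (card_conj D.hL hK ht Γ hΓ hs1 hS w hQw)
    have hew : ∀ φ, (ew φ).1 = Place.comap D.hL hK φ.1 w := fun φ => rfl
    let e₂ : {i // T i ∈ S} ≃ {P // P ∈ S} :=
      Equiv.ofBijective (fun i => ⟨T i.1, i.2⟩) (by
        constructor
        · intro i j h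
          apply Subtype.ext
          apply hinj
          exact congrArg Subtype.val h
        · rintro ⟨P, hP⟩
          obtain ⟨i, rfl⟩ := hST P hP
          exact ⟨⟨i, hP⟩, rfl⟩)
    have he₂ : ∀ i, (e₂ i).1 = T i.1 := fun i => rfl
    let ρ : Equiv.Perm {i // T i ∈ S} := (e₂.trans (e₁.symm.trans ew)).trans e₂.symm
    refine ⟨Equiv.Perm.ofSubtype ρ, fun i => ⟨?_, ?_⟩⟩
    · change (p i).Ov w _
      by_cases h : T i ∈ S
      · rw [hp1 i h, Equiv.Perm.ofSubtype_apply_of_mem ρ h]
        have h1 : T (ρ ⟨i, h⟩).1 = Place.comap D.hL hK (e₁.symm ⟨T i, h⟩).1 w := by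
          rw [← he₂, ← hew]
          congr 1
          change e₂ (e₂.symm (ew (e₁.symm (e₂ ⟨i, h⟩)))) = _
          rw [Equiv.apply_symm_apply]
          rfl
        rw [h1]
        exact over_comap_23 D.hL hK _ w
      · rw [hp2 i h, Equiv.Perm.ofSubtype_apply_of_not_mem ρ h]
        rfl
    · change IsRes w (if i = 0 then l₀ else 1) 1
      split_ifs
      · rw [hl₀]
        apply isRes_prod_one_23
        intro P _
        apply isRes_zpow_one_23
        have h1 := (isRes_one (v := w)).add (hw.mul (isRes_const (rs P q)))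
        rwa [zero_mul, add_zero] at h1
      · exact isRes_one
  · -- the poles of `s`
    intro w hw _
    have hQw : Q ∈ w.ring.nonunits := by
      have h1 : Q⁻¹ ∉ w.ring := by
        intro h
        apply hw
        rw [hsdef]
        exact neg_mem h
      rw [ValuationSubring.mem_nonunits_iff_or]
      exact Or.inr h1
    have h1 := card_cover D.hL hK q ht Γ hΓ w hQw D.e1
    have h2 : Nat.card {φ : FB →ₐ[k] K // φ q = algebraMap FB K q ∧
        Place.comap D.hL hK φ w = D.e1} ≠ 0 := by
      intro h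
      rw [h] at h1
      have h3 := le_max_left (ord D.e1.ring q) 0
      push_cast at h1
      omega
    have h3 : Nonempty {φ : FB →ₐ[k] K // φ q = algebraMap FB K q ∧
        Place.comap D.hL hK φ w = D.e1} := by
      by_contra h
      rw [not_nonempty_iff] at h
      exact h2 Nat.card_of_isEmpty
    obtain ⟨φ, hφ, hφw⟩ := h3
    obtain ⟨i, hi⟩ := hST (e₁ ⟨φ, hφ⟩).1 (e₁ ⟨φ, hφ⟩).2
    have hiS : T i ∈ S := by rw [hi]; exact (e₁ ⟨φ, hφ⟩).2
    refine ⟨i, ?_⟩
    change (p i).Ov w _
    rw [hp1 i hiS]
    have h4 : e₁.symm ⟨T i, hiS⟩ = ⟨φ, hφ⟩ := by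
      rw [Equiv.symm_apply_eq]
      exact Subtype.ext hi
    rw [h4]
    change Over D.e1 φ w
    rw [← hφw]
    exact over_comap_23 D.hL hK _ w
  · intro h
    exact absurd h hq0

end Pool.Agent.Helper51.VB
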