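import Mathlib
import Pool.Agent.Helper51.VB.Kf
import Pool.Agent.Helper26.VC.Main4

/-!
# Block VB-PMAP: pencils, change of the field

The values of the functions are mapped by `φ`. `zero`, `infty`: restrict the place `w` of `K'` to `K`
(`Place.comap hK hK' φ w`): `s` has there the value of `φ s` at `w`, and a pole iff `φ s` has a pole; `BP.Ov` is
compatible (composition of embeddings; constants).
-/

set_option linter.unusedSectionVars false

namespace Pool.Agent.Helper51.VB

open VC VF Function Polynomial
open Pool.Agent.Helper83.VN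
open Pool.Agent.Helper51.VN (Harm OnE OnX px py Fun FF)

universe u

variable {k : Type u} [Field k] [IsAlgClosed k] [CharZero k] {FB : Type u} [Field FB]
  [Algebra k FB] {D : Ell k FB} {n : ℕ} {T : Fin n → Place k FB} {q : FB}

private lemma isRes_comap97 {K K' : Type u} [Field K] [Algebra k K] [Field K'] [Algebra k K']
    (hK : IsFunctionField k K) (hK' : IsFunctionField k K') (φ : K →ₐ[k] K') (w : Place k K')
    (x : K) (c : k) : IsRes (Place.comap hK hK' φ w) x c ↔ IsRes w (φ x) c := by
  unfold IsRes
  change x - algebraMap k K c ∈ (w.ring.comap φ.toRingHom).nonunits ↔ _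
  rw [mem_nonunits_comap]
  have e : φ.toRingHom (x - algebraMap k K c) = φ x - algebraMap k K' c := by
    change φ (x - algebraMap k K c) = _
    rw [map_sub, φ.commutes]
  rw [e]

private lemma ev_map97 {K K' : Type u} [Field K] [Algebra k K] [Field K'] [Algebra k K']
    (φ : K →ₐ[k] K') (p : BP k FB K) (f : FB) : (p.map φ).ev f = φ (p.ev f) := by
  cases p with
  | cst P => exact (φ.commutes _).symm
  | emb ι => rfl

private lemma ov_map97 {K K' : Type u} [Field K] [Algebra k K] [Field K'] [Algebra k K']
    (hK : IsFunctionField k K) (hK' : IsFunctionField k K') (φ : K →ₐ[k] K') (w : Place k K')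
    (p : BP k FB K) (P : Place k FB) :
    (p.map φ).Ov w P ↔ p.Ov (Place.comap hK hK' φ w) P := by
  cases p with
  | cst P' => exact Iff.rfl
  | emb ι =>
    change (∀ (f : FB) (c : k), IsRes P f c → IsRes w (φ (ι f)) c) ↔
      ∀ (f : FB) (c : k), IsRes P f c → IsRes (Place.comap hK hK' φ w) (ι f) c
    constructor
    · intro h f c hf
      exact (isRes_comap97 hK hK' φ w _ _).2 (h f c hf)
    · intro h f c hf
      exact (isRes_comap97 hK hK' φ w _ _).1 (h f c hf)

/-- Extension of the field. -/
theorem Pen.map {K K' : Type u} [Field K] [Algebra k K] [Field K'] [Algebra k K']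
    (hK : IsFunctionField k K) (hK' : IsFunctionField k K') (φ : K →ₐ[k] K') {s : K}
    {t : Fin n → Bpt k FB K} (h : Pen D T q s t) :
    Pen D T q (φ s) (fun i => (t i).map φ) := by
  refine ⟨fun i => ?_, fun G hG m h1 h2 => ?_, fun w hw => ?_, fun w hw hq => ?_, fun hq i => ?_⟩
  · have h1 := h.nc i
    intro P hP
    apply h1 P
    change (t i).p.map φ = .cst P at hP
    revert hP
    cases (t i).p with
    | cst P' =>
      intro hP
      have h2 : P' = P := BP.cst.inj hP
      rw [h2]
    | emb ι =>
      intro hP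
      change BP.emb (φ.comp ι) = BP.cst P at hP
      cases hP
  · rw [aeval_algHom_apply, ← h.prod G hG m h1 h2, map_prod]
    refine Finset.prod_congr rfl fun i _ => ?_
    rw [map_mul, map_pow, ← ev_map97]
    rfl
  · obtain ⟨π, hπ⟩ := h.zero _ ((isRes_comap97 hK hK' φ w s 0).2 hw)
    refine ⟨π, fun i => ⟨(ov_map97 hK hK' φ w _ _).2 (hπ i).1, ?_⟩⟩
    exact (isRes_comap97 hK hK' φ w _ _).1 (hπ i).2
  · obtain ⟨i, hi⟩ := h.infty (Place.comap hK hK' φ w) (fun hs => hw hs) hq
    exact ⟨i, (ov_map97 hK hK' φ w _ _).2 hi⟩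
  · have h1 := h.cst hq i
    change (t i).map φ = cs (T i)
    rw [h1]
    unfold cs Bpt.map BP.map
    simp only [map_one]

end Pool.Agent.Helper51.VB
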