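import Mathlib
import Pool.Agent.Helper51.VB.Fld
import Pool.Agent.Helper51.VB.Pen
import Pool.Agent.Helper51.VB.Pmap

/-!
# Block VB-F1EX: the first function field exists
-/

set_option linter.unusedSectionVars false

namespace Pool.Agent.Helper51.VB

open VC VF Function Polynomial
open Pool.Agent.Helper83.VN
open Pool.Agent.Helper51.VN (Harm OnE OnX px py Fun FF dsc GF rho Gam)

universe u

variable {k : Type u} [Field k] [IsAlgClosed k] [CharZero k] {FB : Type u} [Field FB] [Algebra k FB]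
  {D : Ell k FB} [D.Gen] {n : ℕ} {T : Fin n → Place k FB} {V₀ : V4 k} {ξ η : k}

theorem exists_fl1 (C : Con D T V₀ ξ η) (hn : n ≠ 0) (hinj : Injective T)
    (hnc : ∀ i, D.Nice (T i)) (ha : ∀ i, D.a₀ (T i) ≠ 0) :
    ∃ (K : Type u) (_ : Field K) (_ : Algebra k K), Nonempty (Fl1 C K) := by
  obtain ⟨K₀, _, _, s₀, t₀, hK₀, hs₀, hpen₀⟩ := exists_pen hn hinj hnc C.hq
  obtain ⟨A, hA⟩ : ∃ A, A = ∏ i, D.a (t₀ i) := ⟨_, rfl⟩
  have hA0 : A ≠ 0 := by
    rw [hA, hpen₀.prod_a ha]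
    apply aeval_ne_zero hs₀
    intro h0
    have h1 := nm_zero (T := T) D D.hal 4 (fun P => rs P C.q)
    rw [h0, eval_zero, Algebra.algebraMap_self, RingHom.id_apply] at h1
    exact Finset.prod_ne_zero_iff.2 (fun i _ => ha i) h1.symm
  obtain ⟨r, hr⟩ : ∃ r : K₀, r = aeval s₀ C.Op ^ 2 - algebraMap k K₀ C.c * s₀ ^ (6 * D.N) :=
    ⟨_, rfl⟩
  obtain ⟨x, hx⟩ : ∃ x : K₀, x = aeval s₀ C.Xp := ⟨_, rfl⟩
  obtain ⟨P1, hP1⟩ : ∃ P1 : K₀[X], P1 = ∏ i, (X ^ 2 - Polynomial.C (D.a (t₀ i) ^ 3)) := ⟨_, rfl⟩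
  obtain ⟨P2, hP2⟩ : ∃ P2 : K₀[X], P2 = X ^ 2 - Polynomial.C r := ⟨_, rfl⟩
  obtain ⟨P3, hP3⟩ : ∃ P3 : K₀[X], P3 = X ^ 4 - Polynomial.C x * X ^ 2 + Polynomial.C A :=
    ⟨_, rfl⟩
  have d1 : ∀ b : K₀, (X ^ 2 - Polynomial.C b : K₀[X]).degree = 2 := fun b =>
    degree_X_pow_sub_C (n := 2) two_pos b
  have d3 : P3.degree = 4 := by
    rw [hP3]
    compute_degree!
  have n1 : ∀ b : K₀, (X ^ 2 - Polynomial.C b : K₀[X]) ≠ 0 := fun b h => by
    have := d1 b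
    rw [h, degree_zero] at this
    exact absurd this (by decide)
  have n3 : P3 ≠ 0 := fun h => by
    rw [h, degree_zero] at d3
    exact absurd d3 (by decide)
  have nP1 : P1 ≠ 0 := by
    rw [hP1]
    exact Finset.prod_ne_zero_iff.2 fun i _ => n1 _
  have nP2 : P2 ≠ 0 := by rw [hP2]; exact n1 _
  obtain ⟨K, _, _, _, _, hK, hsp⟩ := exists_splits hK₀ (P1 * P2 * P3)
  obtain ⟨φ, hφ⟩ : ∃ φ : K₀ →ₐ[k] K, φ = IsScalarTower.toAlgHom k K₀ K := ⟨_, rfl⟩
  have hφa : ∀ z, φ z = algebraMap K₀ K z := fun z => by rw [hφ]; rfl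
  have hroot : ∀ Q : K₀[X], Q ∣ P1 * P2 * P3 → Q.degree ≠ 0 → ∃ z : K, (Q.map (algebraMap K₀ K)).eval z = 0 := by
    intro Q hQ hd
    have h1 : (Q.map (algebraMap K₀ K)).Splits := by
      apply hsp.of_dvd
      · rw [Ne, Polynomial.map_eq_zero]
        exact mul_ne_zero (mul_ne_zero nP1 nP2) n3
      · exact Polynomial.map_dvd _ hQ
    exact h1.exists_eval_eq_zero (by rw [degree_map]; exact hd)
  have hκ : ∀ i, ∃ z : K, z ^ 2 = φ (D.a (t₀ i)) ^ 3 := by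
    intro i
    obtain ⟨z, hz⟩ := hroot (X ^ 2 - Polynomial.C (D.a (t₀ i) ^ 3))
      (Dvd.dvd.mul_right (Dvd.dvd.mul_right (by
        rw [hP1]
        exact Finset.dvd_prod_of_mem _ (Finset.mem_univ i)) _) _) (by rw [d1]; decide)
    refine ⟨z, ?_⟩
    simp only [Polynomial.map_sub, Polynomial.map_pow, Polynomial.map_X, Polynomial.map_C,
      eval_sub, eval_pow, eval_X, eval_C, map_pow] at hz
    rw [hφa]
    exact sub_eq_zero.mp hz
  choose κ hκ using hκ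
  obtain ⟨y, hy, hyc⟩ : ∃ y : K, y ^ 2 = φ r ∧ (C.c = 0 → y = φ (aeval s₀ C.Op)) := by
    by_cases hc : C.c = 0
    · refine ⟨φ (aeval s₀ C.Op), ?_, fun _ => rfl⟩
      rw [hr, hc, map_zero, zero_mul, sub_zero, map_pow]
    · obtain ⟨z, hz⟩ := hroot P2 (Dvd.dvd.mul_right (Dvd.intro_left _ rfl) _)
        (by rw [hP2, d1]; decide)
      refine ⟨z, ?_, fun h0 => absurd h0 hc⟩
      rw [hP2] at hz
      simp only [Polynomial.map_sub, Polynomial.map_pow, Polynomial.map_X, Polynomial.map_C,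
        eval_sub, eval_pow, eval_X, eval_C] at hz
      rw [hφa]
      exact sub_eq_zero.mp hz
  obtain ⟨μ, hμ⟩ := hroot P3 (Dvd.intro_left _ rfl) (by rw [d3]; decide)
  rw [hP3] at hμ
  simp only [Polynomial.map_sub, Polynomial.map_add, Polynomial.map_mul, Polynomial.map_pow,
    Polynomial.map_X, Polynomial.map_C, eval_sub, eval_add, eval_mul, eval_pow, eval_X,
    eval_C] at hμ
  have hA' : algebraMap K₀ K A ≠ 0 := (_root_.map_ne_zero _).2 hA0
  have hμ0 : μ ≠ 0 := by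
    rintro rfl
    apply hA'
    linear_combination hμ
  refine ⟨K, inferInstance, inferInstance, ⟨⟨hK, φ s₀,
    by rw [hφa]; exact (transcendental_algebraMap_iff (algebraMap K₀ K).injective).2 hs₀, fun i => (t₀ i).map φ, κ, y,
    μ, hpen₀.map hK₀ hK φ, ?_, ?_, ?_, hμ0, ?_⟩⟩⟩
  · intro i
    rw [hκ, a_map]
  · rw [hy, hr, map_sub, map_mul, map_pow, map_pow, AlgHom.commutes, ← aeval_algHom_apply]
  · intro hc
    rw [hyc hc, ← aeval_algHom_apply]
  · have h1 : ∏ i, D.a ((t₀ i).map φ) = algebraMap K₀ K A := by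
      rw [← hφa, hA, map_prod]
      exact Finset.prod_congr rfl fun i _ => a_map D φ _
    have h2 : aeval (φ s₀) C.Xp = algebraMap K₀ K x := by
      rw [aeval_algHom_apply, ← hx, hφa]
    rw [h1, h2]
    field_simp
    linear_combination hμ

end Pool.Agent.Helper51.VB
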