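import Mathlib
import Pool.Agent.Helper51.VB.Mv2
import Pool.Agent.Helper83.KV.App
import Pool.Agent.Helper94.VQ.MoveLift
import Pool.Agent.Helper70.VP.RH2

/-!
# Block VB-MV3: all points

Induction on the number of indices which are not yet general. Precisely: for a set `S` of indices
(a `Finset (Fin n)`) let `P (S)` be: `Ψ p = 0` for all `p` (nice, on the curves) such that the places
`(p i).1`, `i ∈ S`, are general among themselves (`a₀, b₀ ≠ 0`, and different spectral values for `i ≠ j` in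
`S`). `P (univ)` is `ps_zero`. Suppose `P (insert m S)`, `m ∉ S`, and let `p` be as in `P (S)`;
`(P₀, x₀, y₀) = p m`. Let `K` be a function field containing `FB` and `y` with
`y ^ 2 = x₀ ^ 3 - 3 al x₀ - 2 be` (`VF.exists_roots` with `m = 2`, `n = 1`), and let `w₀` be a place of `K`
over `P₀` (`VP.exists_res`, `VQ.res`; or `VC`); `y` has a value `e` at `w₀` with `e ^ 2 = y₀ ^ 2`
(`exists_res_of_pow`), change the sign of `y` if necessary. Apply `h.harm` to the points `c m = (emb, x₀, y)`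
and `c i = (cst, x_i, y_i)` for `i ≠ m` (constants): it gives a harmonic function `F` on the places of `K` with
`F w₀ = Ψ p`. For almost all `w` (`finite_support_ord` for the images of `al`, `be`, `be ^ 2 - al ^ 3`,
`be ^ 2 d_i - b_i ^ 2 (be ^ 2 - al ^ 3)`, `i ∈ S`; the last ones are not zero by `D.hj`) the place `P` below
`w` is nice, general with respect to the `(p i).1`, `i ∈ S`, and `y` is regular, so `F w = 0` by
`P (insert m S)`. By the analogue of `KV.app` for harmonic functions (`KV.exists_zero_at`, see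
`Helper51/VN/FfApp.lean`) `F w₀ = 0`.
-/

set_option linter.unusedSectionVars false

namespace Pool.Agent.Helper51.VB

open VC VF Function Polynomial
open Pool.Agent.Helper51.VN (Harm OnE OnX px py Fun FF)

universe u

variable {k : Type u} [Field k] [IsAlgClosed k] [CharZero k] {FB : Type u} [Field FB]
  [Algebra k FB] {D : Ell k FB} [D.Gen] {n : ℕ}

/-- A harmonic function which vanishes at almost all places vanishes. -/
private lemma harm_app82 {K : Type u} [Field K] [Algebra k K] {hK : IsFunctionField k K}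
    {F : Place k K → k} (h : Harm hK F) {T : Set (Place k K)} (hT : T.Finite)
    (h0 : ∀ v, v ∉ T → F v = 0) (v : Place k K) : F v = 0 := by
  classical
  by_cases hv : v ∈ T
  swap
  · exact h0 v hv
  obtain ⟨f, hf0, hf1, hf2⟩ := Helper83.KV.exists_zero_at hK (hT.toFinset.erase v) v
    (Finset.notMem_erase v _)
  have h1 := h f hf0
  have h2 : ∀ w ∈ (finite_support_ord hK hf0).toFinset, w ≠ v →
      (ord w.ring f : k) * F w = 0 := by
    intro w _ hw
    by_cases hwT : w ∈ T
    · rw [hf2 w (Finset.mem_erase.mpr ⟨hw, hT.mem_toFinset.mpr hwT⟩), Int.cast_zero, zero_mul]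
    · rw [h0 w hwT, mul_zero]
  rw [Finset.sum_eq_single v h2 (fun hn => by
    exfalso
    apply hn
    rw [Set.Finite.mem_toFinset, Set.mem_ofPred_eq]
    exact hf1)] at h1
  exact (mul_eq_zero.mp h1).resolve_left (Int.cast_ne_zero.mpr hf1)

/-- Values of elements of `K` at the places of `L`. -/
private lemma isRes_iff82 {K L : Type u} [Field K] [Algebra k K] [Field L] [Algebra k L]
    [Algebra K L] [IsScalarTower k K L] (hK : IsFunctionField k K) (hL : IsFunctionField k L)
    (Q : Place k L) (x : K) (c : k) :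
    IsRes Q (algebraMap K L x) c ↔ IsRes (VQ.res hK hL Q) x c := by
  have e : algebraMap K L x - algebraMap k L c = algebraMap K L (x - algebraMap k K c) := by
    rw [map_sub, ← IsScalarTower.algebraMap_apply k K L]
  unfold IsRes
  rw [e]
  exact (mem_nonunits_comap (IsScalarTower.toAlgHom k K L).toRingHom Q.ring _).symm

/-- Elements of order zero have nonzero values. -/
private lemma val_ne82 {L : Type u} [Field L] [Algebra k L] (hL : IsFunctionField k L)
    {Q : Place k L} {x : L} (hx : x ≠ 0) (h : ord Q.ring x = 0) : ∃ c : k, IsRes Q x c ∧ c ≠ 0 := by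
  have h1 : x ∈ Q.ring := (ord_nonneg_iff hL Q hx).mp h.ge
  obtain ⟨c, hc⟩ := VF.exists_res hL h1
  refine ⟨c, hc, ?_⟩
  rintro rfl
  have := (ord_pos_iff hL Q hx).mpr (isRes_zero_iff.mp hc)
  omega

/-- Admissible points. -/
private def Adm82 (D : Ell k FB) {n : ℕ} (p : Fin n → Place k FB × k × k) : Prop :=
  ∀ i, D.Nice (p i).1 ∧ OnE (D.a₀ (p i).1) (D.b₀ (p i).1) (p i).2.1 (p i).2.2

/-- The places with index in `S` are general. -/
private def Gen82 (D : Ell k FB) {n : ℕ} (S : Finset (Fin n)) (p : Fin n → Place k FB × k × k) :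
    Prop :=
  (∀ i ∈ S, D.a₀ (p i).1 ≠ 0 ∧ D.b₀ (p i).1 ≠ 0) ∧ ∀ i ∈ S, ∀ j ∈ S, i ≠ j →
    D.b₀ (p i).1 ^ 2 * D.d₀ (p j).1 ≠ D.b₀ (p j).1 ^ 2 * D.d₀ (p i).1

/-- The point over a moving place. -/
private lemma step82 {Ψ : (Fin n → Place k FB × k × k) → k} (h : OJ D n Ψ) (S : Finset (Fin n))
    (m : Fin n) (_hm : m ∉ S)
    (hS : ∀ p, Adm82 D p → Gen82 D (insert m S) p → Ψ p = 0)
    (p : Fin n → Place k FB × k × k) (hp : Adm82 D p) (hg : Gen82 D S p) : Ψ p = 0 := by
  classical
  obtain ⟨x₀, hx₀⟩ : ∃ x₀, x₀ = (p m).2.1 := ⟨_, rfl⟩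
  obtain ⟨y₀, hy₀⟩ : ∃ y₀, y₀ = (p m).2.2 := ⟨_, rfl⟩
  obtain ⟨P₀, hP₀⟩ : ∃ P₀, P₀ = (p m).1 := ⟨_, rfl⟩
  obtain ⟨K, _, _, _, _, yy, hK, hyy⟩ := VF.exists_roots D.hL (m := 2) (by norm_num)
    (fun _ : Fin 1 => algebraMap k FB x₀ ^ 3 - 3 * D.al * algebraMap k FB x₀ - 2 * D.be)
  obtain ⟨w₀, hw₀⟩ := VP.exists_res D.hL hK P₀
  -- the value of `y ^ 2` at a place
  have hsq : ∀ w : Place k K, D.Nice (VQ.res D.hL hK w) → ∀ y : K,
      y ^ 2 = algebraMap FB K (algebraMap k FB x₀ ^ 3 - 3 * D.al * algebraMap k FB x₀ -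
        2 * D.be) →
      IsRes w (y ^ 2) (x₀ ^ 3 - 3 * D.a₀ (VQ.res D.hL hK w) * x₀ -
        2 * D.b₀ (VQ.res D.hL hK w)) := by
    intro w hw y hy
    rw [hy]
    refine (isRes_iff82 D.hL hK w _ _).mpr ?_
    have e3 : IsRes (VQ.res D.hL hK w) (3 : FB) 3 := by
      have := isRes_const (v := VQ.res D.hL hK w) (3 : k)
      rwa [map_ofNat] at this
    have e2 : IsRes (VQ.res D.hL hK w) (2 : FB) 2 := by
      have := isRes_const (v := VQ.res D.hL hK w) (2 : k)
      rwa [map_ofNat] at this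
    exact (((isRes_const x₀).pow 3).sub ((e3.mul (isRes_rs D.hL hw.1)).mul (isRes_const x₀))).sub
      (e2.mul (isRes_rs D.hL hw.2.1))
  have hpm := hp m
  rw [← hP₀, ← hx₀, ← hy₀] at hpm
  have hE0 : y₀ ^ 2 = x₀ ^ 3 - 3 * D.a₀ P₀ * x₀ - 2 * D.b₀ P₀ := hpm.2
  obtain ⟨y, hy, hyv⟩ : ∃ y : K, y ^ 2 = algebraMap FB K (algebraMap k FB x₀ ^ 3 -
      3 * D.al * algebraMap k FB x₀ - 2 * D.be) ∧ IsRes w₀ y y₀ := by
    have h1 := hsq w₀ (by rw [hw₀]; exact hpm.1) (yy 0) (hyy 0)
    rw [hw₀, ← hE0] at h1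
    obtain ⟨e, he, he2⟩ := exists_res_of_pow hK two_ne_zero h1
    rcases sq_eq_sq_iff_eq_or_eq_neg.mp he2 with h2 | h2
    · exact ⟨yy 0, hyy 0, by rw [← h2]; exact he⟩
    · refine ⟨-yy 0, by rw [neg_sq]; exact hyy 0, ?_⟩
      have h3 := (isRes_zero_iff.mpr (by
        rw [ValuationSubring.mem_nonunits_iff, map_zero]
        exact zero_lt_one) : IsRes w₀ (0 : K) 0).sub he
      rw [zero_sub, zero_sub, h2, neg_neg] at h3
      exact h3
  -- the points
  obtain ⟨cm, hcm⟩ : ∃ cm : KPt D K, cm.p = .emb (IsScalarTower.toAlgHom k FB K) ∧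
      cm.x = algebraMap k K x₀ ∧ cm.y = y := by
    refine ⟨⟨.emb (IsScalarTower.toAlgHom k FB K), algebraMap k K x₀, y, ?_, ?_⟩, rfl, rfl, rfl⟩
    · intro P hP
      cases hP
    · change y ^ 2 = algebraMap k K x₀ ^ 3 - 3 * algebraMap FB K D.al * algebraMap k K x₀ -
        2 * algebraMap FB K D.be
      rw [hy, map_sub, map_sub, map_pow, map_mul, map_mul, map_mul, map_ofNat, map_ofNat,
        ← IsScalarTower.algebraMap_apply k FB K]
  have hci : ∀ i, ∃ c : KPt D K, c.p = .cst (p i).1 ∧ c.x = algebraMap k K (p i).2.1 ∧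
      c.y = algebraMap k K (p i).2.2 := by
    intro i
    refine ⟨⟨.cst (p i).1, algebraMap k K (p i).2.1, algebraMap k K (p i).2.2, ?_, ?_⟩, rfl, rfl,
      rfl⟩
    · intro P hP
      have h1 : (p i).1 = P := by injection hP
      rw [← h1]
      exact (hp i).1
    · have h1 := congrArg (algebraMap k K) (hp i).2
      rw [map_pow, map_sub, map_sub, map_pow, map_mul, map_mul, map_mul, map_ofNat,
        map_ofNat] at h1
      exact h1
  choose ci hci1 hci2 hci3 using hci
  obtain ⟨F, hF, hFv, -⟩ := h.harm K hK (fun i => if i = m then cm else ci i)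
  have hval : ∀ (w : Place k K) (q : Fin n → Place k FB × k × k), D.Nice (q m).1 →
      (q m).1 = VQ.res D.hL hK w → (q m).2.1 = x₀ → IsRes w y (q m).2.2 →
      (∀ i, i ≠ m → q i = p i) → F w = Ψ q := by
    intro w q h1 h2 h3 h4 h5
    apply hFv
    intro i
    by_cases him : i = m
    · rw [if_pos him, him]
      refine ⟨h1, ?_, ?_, ?_⟩
      · rw [hcm.1]
        intro f c hf
        rw [h2] at hf
        exact (isRes_iff82 D.hL hK w f c).mpr hf
      · rw [hcm.2.1, h3]
        exact isRes_const _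
      · rw [hcm.2.2]
        exact h4
    · rw [if_neg him, h5 i him]
      refine ⟨(hp i).1, ?_, ?_, ?_⟩
      · rw [hci1]
        exact rfl
      · rw [hci2]
        exact isRes_const _
      · rw [hci3]
        exact isRes_const _
  have hw0 : F w₀ = Ψ p := hval w₀ p (hp m).1 (by rw [hw₀, hP₀]) hx₀.symm
    (by rw [← hy₀]; exact hyv) (fun i _ => rfl)
  rw [← hw0]
  -- the bad places
  have hG : ∀ i, D.be ^ 2 * algebraMap k FB (D.d₀ (p i).1) -
      algebraMap k FB (D.b₀ (p i).1 ^ 2) * (D.be ^ 2 - D.al ^ 3) ≠ 0 := by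
    intro i h0
    have hd : D.d₀ (p i).1 ≠ 0 := d₀_ne D (hp i).1
    apply D.hj (D.b₀ (p i).1 ^ 2 / D.d₀ (p i).1)
    have hd' : algebraMap k FB (D.d₀ (p i).1) ≠ 0 := (_root_.map_ne_zero _).mpr hd
    rw [map_div₀, div_mul_eq_mul_div, eq_div_iff hd']
    exact sub_eq_zero.mp h0
  obtain ⟨B, hB⟩ : ∃ B : Set (Place k FB), B = {P | ord P.ring D.al ≠ 0} ∪
      {P | ord P.ring D.be ≠ 0} ∪ {P | ord P.ring (D.be ^ 2 - D.al ^ 3) ≠ 0} ∪
      (D.R : Set (Place k FB)) ∪ ⋃ i, {P | ord P.ring (D.be ^ 2 * algebraMap k FB (D.d₀ (p i).1) -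
      algebraMap k FB (D.b₀ (p i).1 ^ 2) * (D.be ^ 2 - D.al ^ 3)) ≠ 0} := ⟨_, rfl⟩
  have hBf : B.Finite := by
    rw [hB]
    refine Set.Finite.union (Set.Finite.union (Set.Finite.union (Set.Finite.union ?_ ?_) ?_) ?_)
      (Set.finite_iUnion fun i => ?_)
    · exact finite_support_ord D.hL D.hal
    · exact finite_support_ord D.hL D.hbe
    · exact finite_support_ord D.hL D.hD
    · exact Finset.finite_toSet _
    · exact finite_support_ord D.hL (hG i)
  refine harm_app82 hF (T := {w | VQ.res D.hL hK w ∈ B}) ?_ ?_ w₀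
  · have e : {w : Place k K | VQ.res D.hL hK w ∈ B} =
        ⋃ P ∈ B, {w : Place k K | VQ.res D.hL hK w = P} := by
      ext w
      simp
    rw [e]
    exact hBf.biUnion (fun P _ => VP.finite_res D.hL hK P)
  · intro w hw
    have hw' : VQ.res D.hL hK w ∉ B := hw
    rw [hB] at hw'
    simp only [Set.mem_union, Set.mem_iUnion, not_or, not_exists] at hw'
    obtain ⟨⟨⟨⟨h1, h2⟩, h3⟩, h4⟩, h5⟩ := hw'
    obtain ⟨P, hP⟩ : ∃ P, P = VQ.res D.hL hK w := ⟨_, rfl⟩
    rw [← hP] at h1 h2 h3 h4 h5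
    have h1 : ord P.ring D.al = 0 := not_not.mp h1
    have h2 : ord P.ring D.be = 0 := not_not.mp h2
    have h3 : ord P.ring (D.be ^ 2 - D.al ^ 3) = 0 := not_not.mp h3
    have hN : D.Nice P := ⟨(ord_nonneg_iff D.hL P D.hal).mp h1.ge,
      (ord_nonneg_iff D.hL P D.hbe).mp h2.ge, h3, h4⟩
    have ha : IsRes P D.al (D.a₀ P) := isRes_rs D.hL hN.1
    have hb : IsRes P D.be (D.b₀ P) := isRes_rs D.hL hN.2.1
    have ha0 : D.a₀ P ≠ 0 := by
      obtain ⟨c, hc, hc0⟩ := val_ne82 D.hL D.hal h1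
      rwa [ha.unique hc]
    have hb0 : D.b₀ P ≠ 0 := by
      obtain ⟨c, hc, hc0⟩ := val_ne82 D.hL D.hbe h2
      rwa [hb.unique hc]
    have hd : IsRes P (D.be ^ 2 - D.al ^ 3) (D.d₀ P) := (hb.pow 2).sub (ha.pow 3)
    have hneq : ∀ i, D.b₀ P ^ 2 * D.d₀ (p i).1 ≠ D.b₀ (p i).1 ^ 2 * D.d₀ P := by
      intro i h0
      have h6 : ord P.ring (D.be ^ 2 * algebraMap k FB (D.d₀ (p i).1) -
        algebraMap k FB (D.b₀ (p i).1 ^ 2) * (D.be ^ 2 - D.al ^ 3)) = 0 := not_not.mp (h5 i)
      obtain ⟨c, hc, hc0⟩ := val_ne82 D.hL (hG i) h6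
      have h7 : IsRes P (D.be ^ 2 * algebraMap k FB (D.d₀ (p i).1) -
        algebraMap k FB (D.b₀ (p i).1 ^ 2) * (D.be ^ 2 - D.al ^ 3))
        (D.b₀ P ^ 2 * D.d₀ (p i).1 - D.b₀ (p i).1 ^ 2 * D.d₀ P) :=
        ((hb.pow 2).mul (isRes_const _)).sub ((isRes_const _).mul hd)
      apply hc0
      rw [hc.unique h7, h0, sub_self]
    have h8 := hsq w (by rw [← hP]; exact hN) y hy
    rw [← hP] at h8
    obtain ⟨e, he, he2⟩ := exists_res_of_pow hK two_ne_zero h8
    obtain ⟨q, hq⟩ : ∃ q : Fin n → Place k FB × k × k, q = update p m (P, x₀, e) := ⟨_, rfl⟩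
    have hqm : q m = (P, x₀, e) := by rw [hq, update_self]
    have hqi : ∀ i, i ≠ m → q i = p i := fun i hi => by rw [hq, update_of_ne hi]
    rw [hval w q (by rw [hqm]; exact hN) (by rw [hqm, hP]) (by rw [hqm]) (by rw [hqm]; exact he)
      hqi]
    apply hS
    · intro i
      by_cases him : i = m
      · rw [him, hqm]
        exact ⟨hN, he2⟩
      · rw [hqi i him]
        exact hp i
    · refine ⟨fun i hi => ?_, fun i hi j hj hij => ?_⟩
      · by_cases him : i = m
        · rw [him, hqm]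
          exact ⟨ha0, hb0⟩
        · rw [hqi i him]
          exact hg.1 i ((Finset.mem_insert.mp hi).resolve_left him)
      · by_cases him : i = m
        · have hjm : j ≠ m := fun h0 => hij (by rw [him, h0])
          rw [him, hqm, hqi j hjm]
          exact hneq j
        · by_cases hjm : j = m
          · rw [hjm, hqm, hqi i him]
            exact (hneq i).symm
          · rw [hqi i him, hqi j hjm]
            exact hg.2 i ((Finset.mem_insert.mp hi).resolve_left him) j
              ((Finset.mem_insert.mp hj).resolve_left hjm) hij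

/-- The functional vanishes. -/
theorem oj_zero {g : ℕ} (hg : IsGenus k FB g) (hn : D.N + g ≤ n)
    {Ψ : (Fin n → Place k FB × k × k) → k} (h : OJ D n Ψ) (p : Fin n → Place k FB × k × k)
    (hp : ∀ i, D.Nice (p i).1 ∧ OnE (D.a₀ (p i).1) (D.b₀ (p i).1) (p i).2.1 (p i).2.2) :
    Ψ p = 0 := by
  classical
  have key : ∀ S : Finset (Fin n), ∀ p : Fin n → Place k FB × k × k, Adm82 D p →
      Gen82 D (Finset.univ \ S) p → Ψ p = 0 := by
    intro S
    induction S using Finset.induction_on with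
    | empty =>
      intro p hp hG
      rw [Finset.sdiff_empty] at hG
      have hT : Gn D (fun i => (p i).1) := ⟨fun i => (hp i).1,
        fun i => (hG.1 i (Finset.mem_univ i)).1, fun i => (hG.1 i (Finset.mem_univ i)).2,
        fun i j hij => hG.2 i (Finset.mem_univ i) j (Finset.mem_univ j) hij⟩
      exact ps_zero hg hn h hT (fun i => (p i).2.1) (fun i => (p i).2.2) fun i => (hp i).2
    | insert m S hmS ih =>
      intro p hp hG
      refine step82 h (Finset.univ \ insert m S) m ?_ ?_ p hp hG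
      · simp
      · intro q hq hGq
        refine ih q hq ?_
        have e : insert m (Finset.univ \ insert m S) = Finset.univ \ S := by
          ext i
          simp only [Finset.mem_insert, Finset.mem_sdiff, Finset.mem_univ, true_and, not_or]
          constructor
          · rintro (rfl | ⟨_, hi⟩)
            · exact hmS
            · exact hi
          · intro hi
            by_cases him : i = m
            · exact Or.inl him
            · exact Or.inr ⟨him, hi⟩
        rw [← e]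
        exact hGq
  refine key Finset.univ p hp ?_
  rw [Finset.sdiff_self]
  exact ⟨fun i hi => absurd hi (Finset.notMem_empty i), fun i hi => absurd hi
    (Finset.notMem_empty i)⟩

end Pool.Agent.Helper51.VB
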