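import Mathlib
import Pool.Agent.Helper51.VB.Mv3

/-!
# The main theorem of project VB

Let `D` be an elliptic curve over the function field `L` of a curve of genus `g`, with a divisor of
degree `N` such that the coefficients are sections of its multiples, and one place `e1` which is not
nice. For `n ≥ N + g` every function of the class `OJ` vanishes.
-/

namespace Pool.Agent.Helper51.VB

open VC VF Function

universe u

/-- The functionals of class `OJ` vanish. -/
theorem vb_main {k : Type u} [Field k] [IsAlgClosed k] [CharZero k] {L : Type u} [Field L]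
    [Algebra k L] (D : Ell k L) [D.Gen] {g : ℕ} (hg : IsGenus k L g) {n : ℕ} (hn : D.N + g ≤ n)
    {Ψ : (Fin n → Place k L × k × k) → k} (h : OJ D n Ψ) (p : Fin n → Place k L × k × k)
    (hp : ∀ i, D.Nice (p i).1 ∧
      Helper51.VN.OnE (D.a₀ (p i).1) (D.b₀ (p i).1) (p i).2.1 (p i).2.2) :
    Ψ p = 0 := oj_zero hg hn h p hp

end Pool.Agent.Helper51.VB
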