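import Mathlib
import Pool.Agent.Helper51.VB.Main

/-!
# The vanishing property of an elliptic surface over a curve
-/

set_option linter.unusedSectionVars false

namespace Pool.Agent.Helper51.VB

open VC VF Function
open Pool.Agent.Helper51.VN (OnE)

universe u

variable {k : Type u} [Field k] [IsAlgClosed k] [CharZero k] {L : Type u} [Field L] [Algebra k L]

theorem gen_of_j {D : Ell k L} (hN : 1 ≤ D.N)
    (hj : ∀ c : k, D.be ^ 2 ≠ algebraMap k L c * (D.be ^ 2 - D.al ^ 3)) : D.Gen where
  N0 := hN
  al0 := by
    intro h
    apply hj 1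
    rw [h, map_one, one_mul]
    ring
  be0 := by
    intro h
    apply hj 0
    rw [h, map_zero, zero_mul]
    ring
  j0 := hj

end Pool.Agent.Helper51.VB
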